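import Pool.Agent.H15.Dep

/-!
The chain argument.
-/

open Module Submodule

namespace H15

variable {E : Type*} [AddCommGroup E] [Module ℝ E] [FiniteDimensional ℝ E]

/-- a proper subspace of `E'` extends to one of dimension one less than `E'`. -/
theorem exists_le_finrank_eq (F E' : Submodule ℝ E) (hF : F ≤ E') (n : ℕ)
    (h1 : finrank ℝ F ≤ n) (h2 : n ≤ finrank ℝ E') :
    ∃ G : Submodule ℝ E, F ≤ G ∧ G ≤ E' ∧ finrank ℝ G = n := by
  induction n, h1 using Nat.le_induction with
  | base => exact ⟨F, le_rfl, hF, rfl⟩
  | succ m hm ih =>
    obtain ⟨G, hFG, hGE, hG⟩ := ih (by omega)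
    have hlt : G < E' := by
      refine lt_of_le_of_ne hGE ?_
      rintro rfl
      omega
    obtain ⟨x, hxE, hxG⟩ := SetLike.exists_of_lt hlt
    refine ⟨G ⊔ span ℝ {x}, hFG.trans le_sup_left, sup_le hGE (by simpa using hxE), ?_⟩
    have h3 := Submodule.finrank_sup_add_finrank_inf_eq G (span ℝ {x})
    have h4 : G ⊓ span ℝ {x} = ⊥ := by
      rw [eq_bot_iff]
      rintro y ⟨hyG, hyx⟩
      obtain ⟨r, rfl⟩ := Submodule.mem_span_singleton.1 hyx
      by_cases hr : r = 0
      · simp [hr]
      · exact absurd ((G.smul_mem_iff hr).1 hyG) hxG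
    have h5 : finrank ℝ (span ℝ ({x} : Set E)) = 1 := by
      refine finrank_span_singleton ?_
      rintro rfl
      exact hxG (zero_mem _)
    rw [h4, finrank_bot, h5] at h3
    omega

/-- The main linear statement. -/
theorem main_linear [DecidableEq E] (k : ℕ) (S : Finset E)
    (hflat : ∀ F : Submodule ℝ E, finrank ℝ F = k + 1 →
      ∀ T : Finset E, T ⊆ S → (∀ x ∈ T, x ∈ F) → T.card ≤ 2 * k + 1)
    (hk : k + 1 ≤ finrank ℝ E) (hcard : 2 * finrank ℝ E + k ≤ S.card) :
    ∃ T : Finset E, T ⊆ S ∧ ∃ c, FullDep T c ∧
      k + 1 ≤ finrank ℝ ↥(posSpan T c ⊓ negSpan T c) := by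
  classical
  -- choose E' minimal
  let P : ℕ → Prop := fun n => ∃ F : Submodule ℝ E, finrank ℝ F = n ∧ k + 1 ≤ n ∧
    2 * n + k ≤ (S.filter (· ∈ F)).card
  have hP : ∃ n, P n := ⟨finrank ℝ E, ⊤, by simp, hk, by simpa using hcard⟩
  obtain ⟨E', hE'n, hkn, hE'c⟩ := Nat.find_spec hP
  have hmin : ∀ F : Submodule ℝ E, k + 1 ≤ finrank ℝ F → finrank ℝ F < finrank ℝ E' →
      (S.filter (· ∈ F)).card < 2 * finrank ℝ F + k := by
    intro F hF1 hF2
    by_contra hcon
    push Not at hcon
    exact Nat.find_min hP (m := finrank ℝ F) (by omega) ⟨F, rfl, hF1, hcon⟩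
  set n := finrank ℝ E' with hn
  rw [← hE'n] at hkn hE'c
  set S0 := S.filter (· ∈ E') with hS0
  have hS0E : ∀ x ∈ S0, x ∈ E' := fun x hx => (Finset.mem_filter.1 hx).2
  have hS0S : S0 ⊆ S := Finset.filter_subset _ _
  have hkn2 : k + 2 ≤ n := by
    by_contra hcon
    have : n = k + 1 := by omega
    have := hflat E' (by omega) S0 hS0S hS0E
    omega
  -- each proper subspace of E' misses at least 3 elements of S0
  have hmiss : ∀ F : Submodule ℝ E, F < E' → 3 ≤ (S0.filter (· ∉ F)).card := by
    intro F hF
    have hlt := Submodule.finrank_lt_finrank_of_lt hF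
    obtain ⟨G, hFG, hGE, hG⟩ := exists_le_finrank_eq F E' hF.le (n - 1) (by omega) (by omega)
    have h1 := hmin G (by omega) (by omega)
    have h2 : S0.filter (· ∈ G) = S.filter (· ∈ G) := by
      ext x
      simp only [Finset.mem_filter, hS0]
      constructor
      · rintro ⟨⟨h1, h2⟩, h3⟩; exact ⟨h1, h3⟩
      · rintro ⟨h1, h3⟩; exact ⟨⟨h1, hGE h3⟩, h3⟩
    have h3 := Finset.card_filter_add_card_filter_not (s := S0) (· ∈ G)
    rw [h2] at h3
    have h4 : (S0.filter (· ∉ G)).card ≤ (S0.filter (· ∉ F)).card := by
      refine Finset.card_le_card ?_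
      intro x hx
      rw [Finset.mem_filter] at hx ⊢
      exact ⟨hx.1, fun h => hx.2 (hFG h)⟩
    omega
  -- removable sets
  let R : Finset E → Prop := fun W => W ⊆ S0 ∧ LinearIndepOn ℝ id (W : Set E) ∧
    ∀ F : Submodule ℝ E, F < E' → 2 ≤ ((S0 \ W).filter (· ∉ F)).card
  have hR0 : R ∅ := by
    refine ⟨Finset.empty_subset _, by simp, fun F hF => ?_⟩
    have := hmiss F hF
    simp only [Finset.sdiff_empty]
    omega
  obtain ⟨W, hWR, hWmax⟩ : ∃ W, R W ∧ ∀ W', R W' → W'.card ≤ W.card := by
    have hne : (S0.powerset.filter R).Nonempty :=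
      ⟨∅, Finset.mem_filter.2 ⟨Finset.empty_mem_powerset _, hR0⟩⟩
    obtain ⟨W, hW, hWm⟩ := Finset.exists_max_image _ Finset.card hne
    refine ⟨W, (Finset.mem_filter.1 hW).2, fun W' hW' => hWm W' ?_⟩
    exact Finset.mem_filter.2 ⟨Finset.mem_powerset.2 hW'.1, hW'⟩
  obtain ⟨hWS, hWind, hWsp⟩ := hWR
  set S' := S0 \ W with hS'
  have hS'0 : S' ⊆ S0 := Finset.sdiff_subset
  have hS'E : ∀ x ∈ S', x ∈ E' := fun x hx => hS0E x (hS'0 hx)
  have hcardS' : S'.card + W.card = S0.card := Finset.card_sdiff_add_card_eq_card hWS
  -- no coloops and spanning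
  have hspan_erase : ∀ q : E, E' ≤ span ℝ ((S'.erase q : Finset E) : Set E) := by
    intro q
    by_contra hcon
    have hle : span ℝ ((S'.erase q : Finset E) : Set E) ≤ E' :=
      span_le.2 fun x hx => hS'E x (Finset.mem_of_mem_erase hx)
    have hlt : span ℝ ((S'.erase q : Finset E) : Set E) < E' :=
      lt_of_le_of_ne hle (fun h => hcon h.ge)
    have h2 := hWsp _ hlt
    have h3 : (S'.filter (· ∉ span ℝ ((S'.erase q : Finset E) : Set E))) ⊆ {q} := by
      intro x hx
      rw [Finset.mem_filter] at hx
      by_contra hxq
      rw [Finset.mem_singleton] at hxq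
      exact hx.2 (subset_span (Finset.mem_erase.2 ⟨hxq, hx.1⟩))
    have := Finset.card_le_card h3
    rw [Finset.card_singleton] at this
    omega
  by_cases hWk : k + 1 ≤ W.card
  · -- Lemma K applies
    obtain ⟨c, hc, hcW⟩ := exists_fullDep_of_indep S' W (Finset.sdiff_disjoint)
      (fun q hq => hspan_erase q (hS'E q hq)) hWind
      (fun w hw => by
        have := hspan_erase 0 (hS0E w (hWS hw))
        exact span_mono (Finset.coe_subset.2 (Finset.erase_subset _ _)) this)
    refine ⟨S' ∪ W, ?_, c, hc, by omega⟩
    exact Finset.union_subset (hS'0.trans hS0S) (hWS.trans hS0S)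
  · -- the chain
    exfalso
    push Not at hWk
    set Z := span ℝ (W : Set E) with hZ
    have hZr : finrank ℝ Z = W.card := finrank_span_finset_eq_card hWind
    have chain : ∀ j, j + (k + 1) ≤ n → ∃ F : Submodule ℝ E, F ≤ E' ∧ finrank ℝ F + j = n ∧
        (S'.filter (· ∉ F)).card ≤ 2 * j := by
      intro j
      induction j with
      | zero =>
        intro _
        refine ⟨E', le_rfl, by simp [hn], ?_⟩
        rw [Finset.filter_false_of_mem]
        · simp
        · intro x hx h
          exact h (hS'E x hx)
      | succ j ih =>
        intro hj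
        obtain ⟨F, hFE, hFr, hFc⟩ := ih (by omega)
        by_cases hcase : ∃ s ∈ S', s ∈ F ∧ s ∉ Z
        · obtain ⟨s, hsS', hsF, hsZ⟩ := hcase
          have hsW : s ∉ W := fun h => hsZ (subset_span h)
          -- insert s W is independent
          have hind : LinearIndepOn ℝ id ((insert s W : Finset E) : Set E) := by
            rw [Finset.coe_insert]
            exact hWind.id_insert hsZ
          have hnR : ¬ R (insert s W) := by
            intro h
            have := hWmax _ h
            rw [Finset.card_insert_of_notMem hsW] at this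
            omega
          have hex : ∃ G : Submodule ℝ E, G < E' ∧
              ((S0 \ insert s W).filter (· ∉ G)).card < 2 := by
            by_contra hcon
            push Not at hcon
            exact hnR ⟨Finset.insert_subset (hS'0 hsS') hWS, hind, fun F hF => hcon F hF⟩
          obtain ⟨G, hGE, hG2⟩ := hex
          have hset : S0 \ insert s W = S'.erase s := by
            ext x
            simp only [Finset.mem_sdiff, Finset.mem_insert, Finset.mem_erase, hS', not_or]
            tauto
          rw [hset] at hG2
          have hsub : (S'.filter (· ∉ G)) ⊆ insert s ((S'.erase s).filter (· ∉ G)) := by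
            intro x hx
            rw [Finset.mem_filter] at hx
            by_cases hxs : x = s
            · simp [hxs]
            · exact Finset.mem_insert_of_mem
                (Finset.mem_filter.2 ⟨Finset.mem_erase.2 ⟨hxs, hx.1⟩, hx.2⟩)
          have hcardG : (S'.filter (· ∉ G)).card ≤ 2 := by
            have := (Finset.card_le_card hsub).trans (Finset.card_insert_le _ _)
            omega
          have hsG : s ∉ G := by
            intro hsG
            have h1 : S'.filter (· ∉ G) = (S'.erase s).filter (· ∉ G) := by
              ext x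
              simp only [Finset.mem_filter, Finset.mem_erase]
              constructor
              · rintro ⟨h1, h2⟩
                exact ⟨⟨fun h => h2 (h ▸ hsG), h1⟩, h2⟩
              · rintro ⟨⟨_, h1⟩, h2⟩
                exact ⟨h1, h2⟩
            have := hWsp G hGE
            rw [h1] at this
            omega
          -- extend G to a hyperplane G' of E' missing s
          obtain ⟨G', hGG', hG'E, hG'r, hsG'⟩ : ∃ G' : Submodule ℝ E, G ≤ G' ∧ G' ≤ E' ∧
              finrank ℝ G' + 1 = n ∧ s ∉ G' := by
            have hsE : s ∈ E' := hS'E s hsS'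
            -- G ⊔ span s has a complement inside E'
            obtain ⟨C, hC⟩ := Submodule.exists_isCompl
              (Submodule.comap E'.subtype (G ⊔ span ℝ {s}))
            refine ⟨G ⊔ C.map E'.subtype, le_sup_left,
              sup_le hGE.le (Submodule.map_subtype_le E' C), ?_, ?_⟩
            · have e1 : (G ⊔ C.map E'.subtype) ⊔ span ℝ {s} = E' := by
                apply le_antisymm
                · exact sup_le (sup_le hGE.le (Submodule.map_subtype_le E' C)) (by simpa using hsE)
                · intro x hx
                  have : (⟨x, hx⟩ : E') ∈ Submodule.comap E'.subtype (G ⊔ span ℝ {s}) ⊔ C := by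
                    rw [hC.sup_eq_top]; trivial
                  obtain ⟨y, hy, z, hz, hyz⟩ := Submodule.mem_sup.1 this
                  have hx' : x = (y : E) + z := by
                    have := congrArg Subtype.val hyz
                    simpa using this.symm
                  rw [hx']
                  refine Submodule.add_mem _ ?_ ?_
                  · have h1 : (y : E) ∈ G ⊔ span ℝ {s} := hy
                    exact (sup_le (le_sup_left.trans le_sup_left) le_sup_right :
                      G ⊔ span ℝ {s} ≤ (G ⊔ C.map E'.subtype) ⊔ span ℝ {s}) h1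
                  · exact mem_sup_left (mem_sup_right (Submodule.mem_map_of_mem hz))
              have e2 : (G ⊔ C.map E'.subtype) ⊓ span ℝ {s} = ⊥ := by
                rw [eq_bot_iff]
                rintro x ⟨hx1, hx2⟩
                obtain ⟨g, hg, z, hz, hgz⟩ := Submodule.mem_sup.1 hx1
                obtain ⟨z', hz', rfl⟩ := hz
                have hz2 : (E'.subtype z' : E) ∈ G ⊔ span ℝ {s} := by
                  have : (E'.subtype z' : E) = x - g := by rw [← hgz]; abel
                  rw [this]
                  exact Submodule.sub_mem _ (mem_sup_right hx2) (mem_sup_left hg)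
                have hz3 : z' ∈ Submodule.comap E'.subtype (G ⊔ span ℝ {s}) ⊓ C := ⟨hz2, hz'⟩
                rw [hC.inf_eq_bot, Submodule.mem_bot] at hz3
                subst hz3
                have hxg : x = g := by rw [← hgz]; simp
                subst hxg
                obtain ⟨r, rfl⟩ := Submodule.mem_span_singleton.1 hx2
                by_cases hr : r = 0
                · simp [hr]
                · exact absurd ((G.smul_mem_iff hr).1 hg) hsG
              have e3 := Submodule.finrank_sup_add_finrank_inf_eq (G ⊔ C.map E'.subtype)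
                (span ℝ {s})
              have e4 : finrank ℝ (span ℝ ({s} : Set E)) = 1 := by
                refine finrank_span_singleton ?_
                rintro rfl
                exact hsG (zero_mem _)
              rw [e1, e2, finrank_bot, e4] at e3
              omega
            · intro hs
              obtain ⟨g, hg, z, hz, hgz⟩ := Submodule.mem_sup.1 hs
              obtain ⟨z', hz', rfl⟩ := hz
              have hz2 : (E'.subtype z' : E) ∈ G ⊔ span ℝ {s} := by
                have : (E'.subtype z' : E) = s - g := by rw [← hgz]; abel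
                rw [this]
                exact Submodule.sub_mem _ (mem_sup_right (mem_span_singleton_self s))
                  (mem_sup_left hg)
              have hz3 : z' ∈ Submodule.comap E'.subtype (G ⊔ span ℝ {s}) ⊓ C := ⟨hz2, hz'⟩
              rw [hC.inf_eq_bot, Submodule.mem_bot] at hz3
              subst hz3
              have : s = g := by rw [← hgz]; simp
              exact hsG (this ▸ hg)
          refine ⟨F ⊓ G', inf_le_left.trans hFE, ?_, ?_⟩
          · have e1 : F ⊔ G' = E' := by
              have hle : F ⊔ G' ≤ E' := sup_le hFE hG'E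
              have hlt : G' < F ⊔ G' := by
                refine lt_of_le_of_ne le_sup_right fun h => hsG' ?_
                rw [h]; exact mem_sup_left hsF
              have := Submodule.finrank_lt_finrank_of_lt hlt
              have h2 := Submodule.finrank_mono hle
              exact Submodule.eq_of_le_of_finrank_le hle (by omega)
            have e2 := Submodule.finrank_sup_add_finrank_inf_eq F G'
            rw [e1] at e2
            omega
          · have hsub2 : S'.filter (· ∉ F ⊓ G') ⊆ S'.filter (· ∉ F) ∪ S'.filter (· ∉ G) := by
              intro x hx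
              rw [Finset.mem_filter] at hx
              rw [Finset.mem_union, Finset.mem_filter, Finset.mem_filter]
              by_contra hcon
              push Not at hcon
              exact hx.2 ⟨hcon.1 hx.1, hGG' (hcon.2 hx.1)⟩
            have := (Finset.card_le_card hsub2).trans (Finset.card_union_le _ _)
            omega
        · push Not at hcase
          have h1 : finrank ℝ ↥(Z ⊓ F) ≤ W.card := by
            rw [← hZr]
            exact Submodule.finrank_mono inf_le_left
          obtain ⟨G, hG1, hG2, hG3⟩ := exists_le_finrank_eq (Z ⊓ F) F inf_le_right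
            (finrank ℝ F - 1) (by omega) (by omega)
          refine ⟨G, hG2.trans hFE, by omega, ?_⟩
          have : S'.filter (· ∉ G) ⊆ S'.filter (· ∉ F) := by
            intro x hx
            rw [Finset.mem_filter] at hx ⊢
            exact ⟨hx.1, fun hxF => hx.2 (hG1 ⟨hcase x hx.1 hxF, hxF⟩)⟩
          have := Finset.card_le_card this
          omega
    obtain ⟨F, hFE, hFr, hFc⟩ := chain (n - (k + 1)) (by omega)
    have h1 := hflat F (by omega) (S'.filter (· ∈ F))
      ((Finset.filter_subset _ _).trans (hS'0.trans hS0S)) (fun x hx => (Finset.mem_filter.1 hx).2)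
    have h3 := Finset.card_filter_add_card_filter_not (s := S') (· ∈ F)
    omega

end H15
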