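import Pool.Agent.H15.Split

/-!
Full-support linear dependencies of finite sets of vectors.
-/

open Module Submodule

namespace H15

variable {E : Type*} [AddCommGroup E] [Module ℝ E]

/-- A full-support linear dependency of the finite set `S`. -/
def FullDep (S : Finset E) (c : E → ℝ) : Prop :=
  (∀ x ∈ S, c x ≠ 0) ∧ ∑ x ∈ S, c x • x = 0

/-- The span of the elements of `S` of positive weight. -/
def posSpan (S : Finset E) (c : E → ℝ) : Submodule ℝ E := span ℝ {x | x ∈ S ∧ 0 < c x}

/-- The span of the elements of `S` of negative weight. -/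
def negSpan (S : Finset E) (c : E → ℝ) : Submodule ℝ E := span ℝ {x | x ∈ S ∧ c x < 0}

theorem exists_fullDep [DecidableEq E] (Q : Finset E)
    (hQ : ∀ q ∈ Q, q ∈ span ℝ ((Q.erase q : Finset E) : Set E)) :
    ∃ c, FullDep Q c := by
  classical
  -- the space of dependencies
  let K : Submodule ℝ (E → ℝ) :=
    { carrier := {c | ∑ x ∈ Q, c x • x = 0}
      add_mem' := by
        intro a b ha hb
        simp only [Set.mem_ofPred_eq] at *
        simp [add_smul, Finset.sum_add_distrib, ha, hb]
      zero_mem' := by simp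
      smul_mem' := by
        intro r a ha
        simp only [Set.mem_ofPred_eq] at *
        simp only [Pi.smul_apply, smul_eq_mul, mul_smul]
        rw [← Finset.smul_sum, ha, smul_zero] }
  let p : Q → Submodule ℝ K := fun q =>
    LinearMap.ker ((LinearMap.proj (R := ℝ) (φ := fun _ : E => ℝ) (q : E)).comp K.subtype)
  have hp : ∀ q, p q ≠ ⊤ := by
    rintro ⟨q, hq⟩ htop
    obtain ⟨f, -, hf⟩ := Submodule.mem_span_finset.1 (hQ q hq)
    let c : E → ℝ := fun x => if x = q then -1 else f x
    have hc : c ∈ K := by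
      change ∑ x ∈ Q, c x • x = 0
      rw [← Finset.add_sum_erase Q _ hq]
      have : ∑ x ∈ Q.erase q, c x • x = q := by
        refine Eq.trans (Finset.sum_congr rfl fun x hx => ?_) hf
        simp [c, Finset.ne_of_mem_erase hx]
      rw [this]
      simp [c]
    have : (⟨c, hc⟩ : K) ∈ p ⟨q, hq⟩ := by rw [htop]; trivial
    have h0 : c q = 0 := this
    simp [c] at h0
  by_contra hcon
  push Not at hcon
  obtain ⟨q, hq⟩ := Subspace.exists_eq_top_of_iUnion_eq_univ (p := p) (by
    rw [Set.eq_univ_iff_forall]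
    rintro ⟨c, hc⟩
    have := hcon c
    unfold FullDep at this
    push Not at this
    by_cases h : ∀ x ∈ Q, c x ≠ 0
    · exact absurd hc (this h)
    · push Not at h
      obtain ⟨x, hx, hx0⟩ := h
      exact Set.mem_iUnion.2 ⟨⟨x, hx⟩, hx0⟩)
  exact hp q hq

/-- Extending a dependency by elements of the span, with prescribed signs. -/
theorem extend_fullDep [DecidableEq E] (Q R : Finset E) (hdisj : Disjoint Q R)
    (c : E → ℝ) (hc : FullDep Q c) (hR : ∀ r ∈ R, r ∈ span ℝ (Q : Set E))
    (σ : E → ℝ) (hσ : ∀ r ∈ R, σ r ≠ 0) :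
    ∃ c', FullDep (Q ∪ R) c' ∧ (∀ q ∈ Q, 0 < c' q * c q) ∧ (∀ r ∈ R, 0 < c' r * σ r) := by
  classical
  have hex : ∀ r : E, ∃ f : E → ℝ, r ∈ R → ∑ q ∈ Q, f q • q = r := by
    intro r
    by_cases hr : r ∈ R
    · obtain ⟨f, -, hf⟩ := Submodule.mem_span_finset.1 (hR r hr)
      exact ⟨f, fun _ => hf⟩
    · exact ⟨0, fun h => absurd h hr⟩
  choose f hf using hex
  -- total correction
  let g : E → ℝ := fun q => ∑ r ∈ R, σ r * f r q
  obtain ⟨ε, hε, hε'⟩ : ∃ ε : ℝ, 0 < ε ∧ ∀ q ∈ Q, 0 < (c q - ε * g q) * c q := by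
    have : ∀ q ∈ Q, ∀ᶠ ε in nhdsWithin (0:ℝ) (Set.Ioi 0), 0 < (c q - ε * g q) * c q := by
      intro q hq
      have hcont : Filter.Tendsto (fun ε : ℝ => (c q - ε * g q) * c q) (nhdsWithin (0:ℝ) (Set.Ioi 0))
          (nhds ((c q - 0 * g q) * c q)) := by
        apply Filter.Tendsto.mono_left _ nhdsWithin_le_nhds
        exact (Continuous.tendsto (by fun_prop) 0)
      have hpos : 0 < (c q - 0 * g q) * c q := by
        have := hc.1 q hq
        simp only [zero_mul, sub_zero]
        exact mul_self_pos.2 this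
      exact hcont.eventually (lt_mem_nhds hpos)
    have h2 : ∀ᶠ ε in nhdsWithin (0:ℝ) (Set.Ioi 0), ∀ q ∈ Q, 0 < (c q - ε * g q) * c q :=
      (Filter.eventually_all_finset Q).2 this
    have h3 : ∀ᶠ ε in nhdsWithin (0:ℝ) (Set.Ioi 0), 0 < ε := self_mem_nhdsWithin
    obtain ⟨ε, h⟩ := (h3.and h2).exists
    exact ⟨ε, h.1, h.2⟩
  refine ⟨fun x => if x ∈ R then ε * σ x else c x - ε * g x, ⟨?_, ?_⟩, ?_, ?_⟩
  · intro x hx
    by_cases hxR : x ∈ R
    · simp [hxR, hε.ne', hσ x hxR]
    · have hxQ : x ∈ Q := by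
        rcases Finset.mem_union.1 hx with h | h
        · exact h
        · exact absurd h hxR
      have := hε' x hxQ
      simp only [hxR, if_false]
      intro h0
      rw [h0] at this
      simp at this
  · rw [Finset.sum_union hdisj]
    have h1 : ∑ x ∈ Q, (if x ∈ R then ε * σ x else c x - ε * g x) • x
        = - (ε • ∑ r ∈ R, σ r • r) := by
      have h11 : ∀ x ∈ Q, (if x ∈ R then ε * σ x else c x - ε * g x) • x
          = c x • x - ε • (∑ r ∈ R, σ r • (f r x • x)) := by
        intro x hx
        have : x ∉ R := Finset.disjoint_left.1 hdisj hx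
        simp only [this, if_false, sub_smul, mul_smul]
        congr 2
        simp only [g, Finset.sum_smul, mul_smul]
      rw [Finset.sum_congr rfl h11, Finset.sum_sub_distrib, hc.2, zero_sub, ← Finset.smul_sum,
        Finset.sum_comm]
      congr 2
      refine Finset.sum_congr rfl fun r hr => ?_
      rw [← Finset.smul_sum, hf r hr]
    have h2 : ∑ x ∈ R, (if x ∈ R then ε * σ x else c x - ε * g x) • x
        = ε • ∑ r ∈ R, σ r • r := by
      rw [Finset.smul_sum]
      refine Finset.sum_congr rfl fun r hr => ?_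
      simp [hr, mul_smul]
    rw [h1, h2]
    simp
  · intro q hq
    have : q ∉ R := Finset.disjoint_left.1 hdisj hq
    simpa [this] using hε' q hq
  · intro r hr
    have := mul_self_pos.2 (hσ r hr)
    simp only [hr, if_true]
    nlinarith [this, hε, mul_pos hε this]

/-- Lemma K: `Q` without coloops, `W` linearly independent, disjoint from `Q` and contained in the
span of `Q`, and `T = Q ∪ W`. -/
theorem exists_fullDep_of_indep [FiniteDimensional ℝ E] [DecidableEq E] (Q W : Finset E)
    (hdisj : Disjoint Q W)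
    (hQ : ∀ q ∈ Q, q ∈ span ℝ ((Q.erase q : Finset E) : Set E))
    (hW : LinearIndepOn ℝ id (W : Set E)) (hWs : ∀ w ∈ W, w ∈ span ℝ (Q : Set E)) :
    ∃ c, FullDep (Q ∪ W) c ∧
      W.card ≤ finrank ℝ ↥(posSpan (Q ∪ W) c ⊓ negSpan (Q ∪ W) c) := by
  classical
  obtain ⟨c, hc⟩ := exists_fullDep Q hQ
  have hspan : posSpan Q c ⊔ negSpan Q c = span ℝ (Q : Set E) := by
    unfold posSpan negSpan
    rw [← span_union]
    congr 1
    ext x
    constructor
    · rintro (h | h)
      · exact h.1
      · exact h.1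
    · intro h
      rcases lt_or_gt_of_ne (hc.1 x h) with h1 | h1
      · exact Or.inr ⟨h, h1⟩
      · exact Or.inl ⟨h, h1⟩
  obtain ⟨s, hs⟩ := exists_split (ι := W) (posSpan Q c) (negSpan Q c) (fun w => (w : E)) hW
    (fun w => by rw [hspan]; exact hWs w w.2)
  let σ : E → ℝ := fun x => if h : x ∈ W then (if (⟨x, h⟩ : W) ∈ s then 1 else -1) else 1
  obtain ⟨c', hc', hcQ, hcW⟩ := extend_fullDep Q W hdisj c hc hWs σ (by
    intro r hr
    by_cases h : (⟨r, hr⟩ : W) ∈ s <;> simp [σ, hr, h])
  refine ⟨c', hc', ?_⟩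
  have hpos : posSpan Q c ⊔ span ℝ ((fun w : W => (w : E)) '' (s : Set W))
      ≤ posSpan (Q ∪ W) c' := by
    refine sup_le (span_mono ?_) (span_le.2 ?_)
    · rintro x ⟨hx, hx0⟩
      refine ⟨Finset.mem_union_left _ hx, ?_⟩
      have := hcQ x hx
      by_contra hcon
      push Not at hcon
      nlinarith
    · rintro _ ⟨w, hw, rfl⟩
      refine subset_span ⟨Finset.mem_union_right _ w.2, ?_⟩
      have := hcW w w.2
      have h1 : σ w = 1 := by
        have : w ∈ s := by exact_mod_cast hw
        simp [σ, this]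
      rw [h1] at this
      linarith
  have hneg : negSpan Q c ⊔ span ℝ ((fun w : W => (w : E)) '' ((s : Set W)ᶜ))
      ≤ negSpan (Q ∪ W) c' := by
    refine sup_le (span_mono ?_) (span_le.2 ?_)
    · rintro x ⟨hx, hx0⟩
      refine ⟨Finset.mem_union_left _ hx, ?_⟩
      have := hcQ x hx
      by_contra hcon
      push Not at hcon
      nlinarith
    · rintro _ ⟨w, hw, rfl⟩
      refine subset_span ⟨Finset.mem_union_right _ w.2, ?_⟩
      have := hcW w w.2
      have h1 : σ w = -1 := by
        have : w ∉ s := fun h => hw (by exact_mod_cast h)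
        simp [σ, this]
      rw [h1] at this
      linarith
  have h1 := Submodule.finrank_mono hpos
  have h2 := Submodule.finrank_mono hneg
  have h3 := Submodule.finrank_sup_add_finrank_inf_eq (posSpan (Q ∪ W) c') (negSpan (Q ∪ W) c')
  have h4 : posSpan (Q ∪ W) c' ⊔ negSpan (Q ∪ W) c' ≤ span ℝ (Q : Set E) := by
    unfold posSpan negSpan
    rw [← span_union]
    refine span_le.2 ?_
    have : ∀ x ∈ Q ∪ W, x ∈ span ℝ (Q : Set E) := by
      intro x hx
      rcases Finset.mem_union.1 hx with h | h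
      · exact subset_span h
      · exact hWs x h
    rintro x (h | h)
    · exact this x h.1
    · exact this x h.1
  have h5 := Submodule.finrank_mono h4
  rw [hspan] at hs
  simp only [Fintype.card_coe] at hs
  omega

end H15
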