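import Pool.Agent.H15.FamDefs

/-!
Dimension counts, the quotient lemma and the spanning theorem for maximal signed vectors.
-/

set_option linter.unusedSectionVars false

open Module Submodule

namespace H15

variable {ι : Type*} [Fintype ι] {E : Type*} [AddCommGroup E] [Module ℝ E]
variable {E' : Type*} [AddCommGroup E'] [Module ℝ E']
variable {v : ι → E} {X Y X' Y' : Set ι}

/-! ### linear independence and ranks -/

theorem linInd_iff : LinearIndepOn ℝ v X ↔ ∀ g : ι → ℝ, (∀ i, i ∉ X → g i = 0) →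
    ∑ i, g i • v i = 0 → ∀ i, g i = 0 := by
  classical
  rw [linearIndepOn_iff]
  constructor
  · intro h g hg hs i
    have := h (Finsupp.equivFunOnFinite.symm g) (by
      rw [Finsupp.mem_supported]
      intro j hj
      by_contra hjX
      exact (Finsupp.mem_support_iff.1 (Finset.mem_coe.1 hj)) (by simpa using hg j hjX)) (by
      rw [Finsupp.linearCombination_apply, Finsupp.sum_fintype]
      · simpa using hs
      · simp)
    simpa using DFunLike.congr_fun this i
  · intro h l hl hs
    rw [Finsupp.linearCombination_apply, Finsupp.sum_fintype _ _ (by simp)] at hs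
    have := h l (fun i hi => by
      by_contra hne
      exact hi (hl (Finset.mem_coe.2 (Finsupp.mem_support_iff.2 hne)))) hs
    ext i
    exact this i

/-- coordinates with respect to a linearly independent subfamily. -/
theorem exists_coord (h : LinearIndepOn ℝ v X) : ∃ f : ι → (E →ₗ[ℝ] ℝ),
    ∀ a : ι → ℝ, (∀ i, i ∉ X → a i = 0) → ∀ i, f i (∑ j, a j • v j) = a i := by
  classical
  -- the map from functions supported on X
  let e : (X → ℝ) →ₗ[ℝ] E := Fintype.linearCombination ℝ (fun i : X => v i)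
  have he : LinearMap.ker e = ⊥ :=
    LinearMap.ker_eq_bot.2 (linearIndependent_iff_injective_fintypeLinearCombination.1 h)
  obtain ⟨g, hg⟩ := LinearMap.exists_leftInverse_of_injective e he
  refine ⟨fun i => if hi : i ∈ X then (LinearMap.proj (⟨i, hi⟩ : X)).comp g else 0, ?_⟩
  intro a ha i
  have h1 : ∑ j, a j • v j = e (fun j : X => a j) := by
    simp only [e, Fintype.linearCombination_apply]
    rw [← Finset.sum_subtype (Finset.univ.filter (· ∈ X)) (by simp) (fun j => a j • v j),
      Finset.sum_filter_of_ne]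
    intro x _ hx
    by_contra hxX
    exact hx (by simp [ha x hxX])
  by_cases hi : i ∈ X
  · simp only [hi, dif_pos, h1, LinearMap.comp_apply]
    have := LinearMap.congr_fun hg (fun j : X => a j)
    simp only [LinearMap.comp_apply, LinearMap.id_apply] at this
    rw [this]
    rfl
  · simp [hi, ha i hi]

/-- general position. -/
theorem exists_generic {V κ : Type*} [AddCommGroup V] [Module ℝ V] [Finite κ]
    (p : κ → Submodule ℝ V) (hp : ∀ k, p k ≠ ⊤) : ∃ z : V, ∀ k, z ∉ p k := by
  by_contra hcon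
  push Not at hcon
  obtain ⟨q, hq⟩ := Subspace.exists_eq_top_of_iUnion_eq_univ (p := p) (by
    rw [Set.eq_univ_iff_forall]
    intro z
    obtain ⟨k, hk⟩ := hcon z
    exact Set.mem_iUnion.2 ⟨k, hk⟩)
  exact hp q hq

theorem eventually_generic {V κ : Type*} [AddCommGroup V] [Module ℝ V] [Finite κ]
    (p : κ → Submodule ℝ V) (x z : V) (hz : ∀ k, z ∉ p k) :
    ∀ᶠ ε in nhdsWithin (0:ℝ) (Set.Ioi 0), ∀ k, x + ε • z ∉ p k := by
  rw [Filter.eventually_all]
  intro k
  by_cases h : ∃ ε1 : ℝ, 0 < ε1 ∧ x + ε1 • z ∈ p k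
  · obtain ⟨ε1, hε1, h1⟩ := h
    have : ∀ᶠ ε in nhdsWithin (0:ℝ) (Set.Ioi 0), ε < ε1 :=
      (Filter.Tendsto.mono_left Filter.tendsto_id nhdsWithin_le_nhds).eventually
        (gt_mem_nhds hε1)
    filter_upwards [this] with ε hε hmem
    have h2 : (ε1 - ε) • z ∈ p k := by
      have := (p k).sub_mem h1 hmem
      convert this using 1
      rw [sub_smul]; abel
    exact hz k (((p k).smul_mem_iff (by linarith)).1 h2)
  · push Not at h
    filter_upwards [self_mem_nhdsWithin] with ε hε
    exact h ε hε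

/-- Carathéodory. -/
theorem caratheodory (v : ι → E) (a : ι → ℝ) (ha : ∀ i, 0 ≤ a i) :
    ∃ a' : ι → ℝ, (∀ i, 0 ≤ a' i) ∧ (∀ i, a i = 0 → a' i = 0) ∧
      ∑ i, a' i • v i = ∑ i, a i • v i ∧ LinearIndepOn ℝ v {i | 0 < a' i} := by
  classical
  let S : Set (ι → ℝ) := {a' | (∀ i, 0 ≤ a' i) ∧ (∀ i, a i = 0 → a' i = 0) ∧
      ∑ i, a' i • v i = ∑ i, a i • v i}
  obtain ⟨a', ⟨h1, h2, h3⟩, hmin⟩ := (measure (fun a' : ι → ℝ => {i | 0 < a' i}.ncard)).wf.has_min
    S ⟨a, ha, fun _ h => h, rfl⟩
  refine ⟨a', h1, h2, h3, ?_⟩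
  by_contra hcon
  rw [linInd_iff] at hcon
  push Not at hcon
  obtain ⟨g, hg0, hgs, i0, hi0⟩ := hcon
  -- wlog some g i is positive
  obtain ⟨g, hg0, hgs, i0, hi0⟩ : ∃ g : ι → ℝ, (∀ i, i ∉ {i | 0 < a' i} → g i = 0) ∧
      ∑ i, g i • v i = 0 ∧ ∃ i, 0 < g i := by
    rcases lt_or_gt_of_ne hi0 with h | h
    · exact ⟨-g, fun i hi => by simp [hg0 i hi], by simp [hgs], i0, by simpa using h⟩
    · exact ⟨g, hg0, hgs, i0, h⟩
  obtain ⟨j, hj, hjmin⟩ := Finset.exists_min_image (Finset.univ.filter (fun i => 0 < g i))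
    (fun i => a' i / g i) ⟨i0, by simp [hi0]⟩
  have hjg : 0 < g j := (Finset.mem_filter.1 hj).2
  have hja : 0 < a' j := by
    by_contra hcon
    exact hjg.ne' (hg0 j hcon)
  set t := a' j / g j with ht
  have ht0 : 0 < t := div_pos hja hjg
  have hnn : ∀ i, 0 ≤ a' i - t * g i := by
    intro i
    by_cases hgi : 0 < g i
    · have := hjmin i (by simp [hgi])
      rw [le_div_iff₀ hgi] at this
      linarith
    · push Not at hgi
      have := h1 i
      nlinarith
  refine hmin (fun i => a' i - t * g i) ⟨hnn, ?_, ?_⟩ ?_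
  · intro i hi
    have : a' i = 0 := h2 i hi
    have hgi := hg0 i (by simp [this])
    simp [this, hgi]
  · rw [← h3]
    simp only [sub_smul, Finset.sum_sub_distrib, mul_smul, ← Finset.smul_sum, hgs]
    simp
  · refine Set.ncard_lt_ncard ?_ (Set.toFinite _)
    refine ⟨?_, ?_⟩
    · intro i hi
      by_contra hcon
      have hgi := hg0 i hcon
      simp only [Set.mem_ofPred_eq, hgi, mul_zero, sub_zero] at hi hcon
      exact hcon hi
    · intro hsub
      have : j ∈ {i | 0 < a' i - t * g i} := hsub hja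
      simp only [Set.mem_ofPred_eq, ht] at this
      rw [div_mul_cancel₀ _ hjg.ne'] at this
      linarith

variable [FiniteDimensional ℝ E]

theorem finrank_sp_le : finrank ℝ (sp v X) ≤ X.ncard := by
  classical
  have := finrank_span_le_card (R := ℝ) (v '' X)
  refine this.trans ?_
  rw [← Set.ncard_eq_toFinset_card']
  exact Set.ncard_image_le (Set.toFinite _)

theorem finrank_sp_eq (h : LinearIndepOn ℝ v X) : finrank ℝ (sp v X) = X.ncard := by
  classical
  have h1 := finrank_span_eq_card (R := ℝ) (b := fun i : X => v i) h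
  have h2 : Set.range (fun i : X => v i) = v '' X := by rw [Set.image_eq_range]
  rw [h2] at h1
  unfold sp
  rw [h1, ← Nat.card_eq_fintype_card]
  rfl

theorem finrank_sup_singleton {F : Submodule ℝ E} {x : E} (hx : x ∉ F) :
    finrank ℝ ↥(span ℝ {x} ⊔ F) = finrank ℝ F + 1 := by
  have h3 := Submodule.finrank_sup_add_finrank_inf_eq (span ℝ {x}) F
  have h4 : span ℝ {x} ⊓ F = ⊥ := by
    rw [eq_bot_iff]
    rintro y ⟨hyx, hyG⟩
    obtain ⟨r, rfl⟩ := Submodule.mem_span_singleton.1 hyx
    by_cases hr : r = 0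
    · simp [hr]
    · exact absurd ((F.smul_mem_iff hr).1 hyG) hx
  have h5 : finrank ℝ (span ℝ ({x} : Set E)) = 1 := by
    refine finrank_span_singleton ?_
    rintro rfl
    exact hx (zero_mem _)
  rw [h4, finrank_bot, h5] at h3
  omega

theorem finrank_sp_insert {j : ι} (hj : v j ∉ sp v X) :
    finrank ℝ (sp v (insert j X)) = finrank ℝ (sp v X) + 1 := by
  rw [sp_insert, finrank_sup_singleton hj]

theorem finrank_LL : finrank ℝ (sp v (X ∪ Y)) + finrank ℝ (LL v X Y) =
    finrank ℝ (sp v X) + finrank ℝ (sp v Y) := by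
  rw [sp_union]
  exact Submodule.finrank_sup_add_finrank_inf_eq _ _

theorem sp_comp (q : E →ₗ[ℝ] E') : sp (q ∘ v) X = (sp v X).map q := by
  unfold sp
  rw [Submodule.map_span, Set.image_comp]

theorem Cosimple.comp (h : Cosimple v) {q : E →ₗ[ℝ] E'} (hq : Function.Surjective q) :
    Cosimple (q ∘ v) := by
  intro i j
  rw [sp_comp, h i j, Submodule.map_top, LinearMap.range_eq_top.2 hq]

theorem Cosimple.span_compl (h : Cosimple v) (i : ι) : sp v ({i}ᶜ) = ⊤ := by
  have := h i i
  rwa [Set.pair_eq_singleton] at this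

theorem Cosimple.span_univ (h : Cosimple v) (i : ι) : sp v Set.univ = ⊤ :=
  top_le_iff.1 ((h.span_compl i).ge.trans (sp_mono (Set.subset_univ _)))

theorem finrank_add_le_of_quot (q : E →ₗ[ℝ] E') (L L1 : Submodule ℝ E) (L2 : Submodule ℝ E')
    (hL : L ≤ L1) (hk : ∀ x ∈ L, q x = 0) (h2 : L2 ≤ L1.map q) :
    finrank ℝ L + finrank ℝ L2 ≤ finrank ℝ L1 := by
  have h3 := LinearMap.finrank_range_add_finrank_ker (q.domRestrict L1)
  have h4 : LinearMap.range (q.domRestrict L1) = L1.map q := by
    rw [LinearMap.range_domRestrict]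
  rw [h4] at h3
  have h5 : finrank ℝ L2 ≤ finrank ℝ ↥(L1.map q) := Submodule.finrank_mono h2
  have h6 : finrank ℝ L ≤ finrank ℝ (LinearMap.ker (q.domRestrict L1)) := by
    let g : L →ₗ[ℝ] LinearMap.ker (q.domRestrict L1) :=
      LinearMap.codRestrict _ (Submodule.inclusion hL) (fun x => by
        rw [LinearMap.mem_ker]
        exact hk x x.2)
    exact LinearMap.finrank_le_finrank_of_injective (f := g) (by
      intro x y hxy
      have := congrArg (fun z : LinearMap.ker (q.domRestrict L1) => ((z : L1) : E)) hxy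
      exact Subtype.ext this)
  omega

/-! ### maximal signed vectors -/

/-- the zero elements of a maximal signed vector which lie in the span of its support are in
`P ∩ N`. -/
theorem mem_LL_of_max {m : ℕ} (hb : Bdd v m) (h : SVec v X Y)
    (hm : finrank ℝ (LL v X Y) = m) {j : ι} (hX : j ∉ X) (hY : j ∉ Y)
    (hj : v j ∈ sp v (X ∪ Y)) : v j ∈ LL v X Y := by
  have main : ∀ X Y : Set ι, SVec v X Y → finrank ℝ (LL v X Y) = m → j ∉ X → j ∉ Y →
      v j ∈ sp v (X ∪ Y) → v j ∈ sp v X := by
    intro X Y h hm hX hY hj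
    by_contra hcon
    have h1 := hb _ _ (h.add hX hY hj)
    have h2 := finrank_LL (v := v) (X := insert j X) (Y := Y)
    have h3 := finrank_LL (v := v) (X := X) (Y := Y)
    have h4 : sp v (insert j X ∪ Y) = sp v (X ∪ Y) := by
      refine le_antisymm ?_ (sp_mono ?_)
      · rw [Set.insert_union, sp_insert]
        refine sup_le ?_ le_rfl
        rw [span_singleton_le_iff_mem]
        exact hj
      · exact Set.union_subset_union_left _ (Set.subset_insert _ _)
    rw [h4, finrank_sp_insert hcon] at h2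
    omega
  refine ⟨main X Y h hm hX hY hj, main Y X h.symm (by rw [LL_comm]; exact hm) hY hX ?_⟩
  rw [Set.union_comm]
  exact hj

/-- passing to the quotient by the span of the support of a signed vector. -/
theorem Bdd.quot {m : ℕ} (hb : Bdd v m) (h : SVec v X Y)
    (h' : SVec ((sp v (X ∪ Y)).mkQ ∘ v) X' Y') :
    finrank ℝ (LL v X Y) + finrank ℝ (LL ((sp v (X ∪ Y)).mkQ ∘ v) X' Y') ≤ m := by
  obtain ⟨c, hc0, hc1, hc2⟩ := h'
  set F := sp v (X ∪ Y) with hF
  set q := F.mkQ with hq
  have hcF : ∑ i, c i • v i ∈ F := by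
    rw [← Submodule.ker_mkQ F, LinearMap.mem_ker, map_sum, ← hc0]
    refine Finset.sum_congr rfl fun i _ => ?_
    rw [map_smul]; rfl
  have h1 := h.ext c hcF
  refine le_trans (finrank_add_le_of_quot q _ (LL v (X ∪ {i | 0 < c i ∧ i ∉ Y})
    (Y ∪ {i | c i < 0 ∧ i ∉ X})) _ ?_ ?_ ?_) (hb _ _ h1)
  · exact inf_le_inf (sp_mono Set.subset_union_left) (sp_mono Set.subset_union_left)
  · intro x hx
    have : x ∈ F := sp_mono Set.subset_union_left hx.1
    rw [hq, ← LinearMap.mem_ker, Submodule.ker_mkQ]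
    exact this
  · rintro z ⟨hz1, hz2⟩
    have hX' : sp (q ∘ v) X' ≤ (sp v {i | 0 < c i ∧ i ∉ Y}).map q := by
      rw [sp_le]
      intro i hi
      by_cases hiY : i ∈ Y
      · have : q (v i) = 0 := by
          rw [hq, ← LinearMap.mem_ker, Submodule.ker_mkQ]
          exact mem_sp (Or.inr hiY)
        change q (v i) ∈ _
        rw [this]
        exact zero_mem _
      · exact Submodule.mem_map_of_mem (mem_sp ⟨(hc1 i).2 hi, hiY⟩)
    have hY' : sp (q ∘ v) Y' ≤ (sp v {i | c i < 0 ∧ i ∉ X}).map q := by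
      rw [sp_le]
      intro i hi
      by_cases hiX : i ∈ X
      · have : q (v i) = 0 := by
          rw [hq, ← LinearMap.mem_ker, Submodule.ker_mkQ]
          exact mem_sp (Or.inl hiX)
        change q (v i) ∈ _
        rw [this]
        exact zero_mem _
      · exact Submodule.mem_map_of_mem (mem_sp ⟨(hc2 i).2 hi, hiX⟩)
    obtain ⟨x', hx', hqx⟩ := hX' hz1
    obtain ⟨y', hy', hqy⟩ := hY' hz2
    have hxy : x' - y' ∈ F := by
      rw [← Submodule.ker_mkQ F, LinearMap.mem_ker, map_sub, sub_eq_zero]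
      exact hqx.trans hqy.symm
    rw [hF, sp_union] at hxy
    obtain ⟨p, hp, n, hn, hpn⟩ := Submodule.mem_sup.1 hxy
    refine ⟨x' - p, ⟨?_, ?_⟩, ?_⟩
    · exact Submodule.sub_mem _ (sp_mono Set.subset_union_right hx')
        (sp_mono Set.subset_union_left hp)
    · have : x' - p = n + y' := by
        rw [sub_eq_iff_eq_add]
        have := sub_eq_iff_eq_add.1 hpn.symm
        rw [this]; abel
      rw [this]
      exact Submodule.add_mem _ (sp_mono Set.subset_union_left hn)
        (sp_mono Set.subset_union_right hy')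
    · rw [map_sub, hqx]
      have : q p = 0 := by
        rw [hq, ← LinearMap.mem_ker, Submodule.ker_mkQ]
        exact sp_mono Set.subset_union_left hp
      rw [this, sub_zero]

/-- a cosimple family all of whose signed vectors have `P ∩ N = 0` spans the zero space. -/
theorem finrank_eq_zero_of_bdd_zero (hc : Cosimple v) (hb : Bdd v 0) (i0 : ι) :
    finrank ℝ E = 0 := by
  classical
  -- closure under positive parts
  have hpos : ∀ d : ι → ℝ, ∑ i, d i • v i = 0 → ∑ i, (max (d i) 0) • v i = 0 := by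
    intro d hd
    have h1 := hb {i | 0 < d i} {i | d i < 0} ⟨d, hd, fun _ => Iff.rfl, fun _ => Iff.rfl⟩
    have h2 : LL v {i | 0 < d i} {i | d i < 0} = ⊥ := by
      rw [← Submodule.finrank_eq_zero (R := ℝ)]
      omega
    rw [← Submodule.mem_bot ℝ, ← h2]
    refine ⟨mem_sp_iff.2 ⟨fun i => max (d i) 0, ?_, rfl⟩,
      mem_sp_iff.2 ⟨fun i => max (-d i) 0, ?_, ?_⟩⟩
    · intro i hi
      simp only [Set.mem_ofPred_eq, not_lt] at hi
      exact max_eq_right hi
    · intro i hi
      simp only [Set.mem_ofPred_eq, not_lt] at hi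
      exact max_eq_right (by linarith)
    · rw [eq_comm, ← sub_eq_zero, ← Finset.sum_sub_distrib, ← hd]
      refine Finset.sum_congr rfl fun i _ => ?_
      rw [← sub_smul]
      congr 1
      change max (d i) 0 - max (-d i) 0 = d i
      rcases le_total 0 (d i) with h | h
      · rw [max_eq_left h, max_eq_right (by linarith)]; ring
      · rw [max_eq_right h, max_eq_left (by linarith)]; ring
  by_contra hE
  -- relations with prescribed values
  have hrel : ∀ p q : ι, v p ≠ 0 → p ≠ q → ∃ g : ι → ℝ, (∀ i, 0 ≤ g i) ∧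
      (∀ i, v i = 0 → g i = 0) ∧ ∑ i, g i • v i = 0 ∧ g p = 1 ∧ g q = 0 := by
    intro p q hp hpq
    have : v p ∈ sp v ({p, q}ᶜ) := by rw [hc p q]; trivial
    obtain ⟨a, ha, hs⟩ := mem_sp_iff.1 this
    let g : ι → ℝ := fun i => if v i = 0 then 0 else (if i = p then 1 else 0) - a i
    have hg : ∑ i, g i • v i = 0 := by
      have h1 : ∀ i, g i • v i = (if i = p then (1:ℝ) else 0) • v i - a i • v i := by
        intro i
        by_cases hi : v i = 0
        · simp [hi]
        · simp only [g, hi, if_false, sub_smul]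
      simp only [h1, Finset.sum_sub_distrib, hs]
      simp
    refine ⟨fun i => max (g i) 0, fun i => le_max_right _ _, ?_, hpos g hg, ?_, ?_⟩
    · intro i hi; simp [g, hi]
    · have : a p = 0 := ha p (by simp)
      simp [g, hp, this]
    · have : a q = 0 := ha q (by simp)
      simp [g, this, hpq.symm]
  obtain ⟨p0, hp0⟩ : ∃ p, v p ≠ 0 := by
    by_contra hcon
    push Not at hcon
    have h1 := hc.span_univ i0
    have h2 : sp v Set.univ = ⊥ := by
      rw [eq_bot_iff, sp_le]
      intro i _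
      rw [hcon i]; exact zero_mem _
    rw [h2] at h1
    rw [← finrank_top ℝ E, ← h1, finrank_bot] at hE
    exact hE rfl
  let S : Set (ι → ℝ) := {d | (∀ i, 0 ≤ d i) ∧ (∀ i, v i = 0 → d i = 0) ∧
    ∑ i, d i • v i = 0 ∧ ∃ i, 0 < d i}
  have hne : S.Nonempty := by
    by_cases hex : ∃ q, p0 ≠ q
    · obtain ⟨q, hq⟩ := hex
      obtain ⟨g, h1, h2, h3, h4, -⟩ := hrel p0 q hp0 hq
      exact ⟨g, h1, h2, h3, p0, by rw [h4]; norm_num⟩
    · push Not at hex
      exfalso
      have h1 := hc.span_compl p0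
      have h2 : sp v ({p0}ᶜ) = ⊥ := by
        rw [eq_bot_iff, sp_le]
        intro i hi
        exact absurd (hex i).symm hi
      rw [h2] at h1
      rw [← finrank_top ℝ E, ← h1, finrank_bot] at hE
      exact hE rfl
  obtain ⟨d, ⟨h1, h2, h3, p, hp⟩, hmin⟩ :=
    (measure (fun a' : ι → ℝ => {i | 0 < a' i}.ncard)).wf.has_min S hne
  have hvp : v p ≠ 0 := fun h => hp.ne' (h2 p h)
  by_cases hq : ∃ q, q ≠ p ∧ 0 < d q
  · obtain ⟨q, hqp, hq⟩ := hq
    obtain ⟨g, g1, g2, g3, g4, g5⟩ := hrel p q hvp hqp.symm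
    -- min (g, d) = g - (g - d)⁺
    have h4 := hpos (fun i => g i - d i) (by
      simp only [sub_smul, Finset.sum_sub_distrib, g3, h3, sub_self])
    have hmn : ∀ i, g i - max (g i - d i) 0 = min (g i) (d i) := by
      intro i
      rcases le_total (g i) (d i) with h | h
      · rw [max_eq_right (by linarith), min_eq_left h]; ring
      · rw [max_eq_left (by linarith), min_eq_right h]; ring
    refine hmin (fun i => min (g i) (d i)) ⟨fun i => le_min (g1 i) (h1 i), ?_, ?_, p, ?_⟩ ?_
    · intro i hi; simp [g2 i hi, h2 i hi]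
    · simp only [← hmn, sub_smul, Finset.sum_sub_distrib, g3, h4, sub_self]
    · change 0 < min (g p) (d p)
      rw [g4]; exact lt_min one_pos hp
    · refine Set.ncard_lt_ncard ⟨?_, ?_⟩ (Set.toFinite _)
      · intro i hi
        exact lt_of_lt_of_le (show 0 < min (g i) (d i) from hi) (min_le_right _ _)
      · intro hsub
        have : q ∈ {i | 0 < min (g i) (d i)} := hsub hq
        simp only [Set.mem_ofPred_eq, g5] at this
        exact absurd (lt_of_lt_of_le this (min_le_left _ _)) (lt_irrefl _)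
  · push Not at hq
    have h5 : ∑ i, d i • v i = d p • v p := by
      refine Finset.sum_eq_single p (fun i _ hi => ?_) (by simp)
      have : d i = 0 := le_antisymm (hq i hi) (h1 i)
      simp [this]
    rw [h5] at h3
    rcases smul_eq_zero.1 h3 with h | h
    · exact hp.ne' h
    · exact hvp h

/-- a signed vector of maximal rank of a cosimple family has spanning support. -/
theorem sp_eq_top_of_max {m : ℕ} (hc : Cosimple v) (hb : Bdd v m) (h : SVec v X Y)
    (hm : finrank ℝ (LL v X Y) = m) (i0 : ι) : sp v (X ∪ Y) = ⊤ := by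
  have h0 := finrank_eq_zero_of_bdd_zero (v := (sp v (X ∪ Y)).mkQ ∘ v)
    (hc.comp (Submodule.mkQ_surjective _)) (by
      intro X' Y' h'
      have := hb.quot h h'
      omega) i0
  have h1 := Submodule.finrank_quotient_add_finrank (sp v (X ∪ Y))
  refine Submodule.eq_top_of_finrank_eq ?_
  omega

/-- any signed vector contains one with linearly independent sides and the same `P ∩ N`. -/
theorem SVec.frame (h : SVec v X Y) : ∃ A B : Set ι, A ⊆ X ∧ B ⊆ Y ∧ SVec v A B ∧
    LinearIndepOn ℝ v A ∧ LinearIndepOn ℝ v B ∧ LL v A B = LL v X Y := by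
  classical
  obtain ⟨c, hc0, hc1, hc2⟩ := h
  set L := LL v X Y with hL
  -- the base point
  have hx0 : ∑ i, (max (c i) 0) • v i = ∑ i, (max (-c i) 0) • v i := by
    rw [← sub_eq_zero, ← Finset.sum_sub_distrib, ← hc0]
    refine Finset.sum_congr rfl fun i _ => ?_
    rw [← sub_smul]
    congr 1
    rcases le_total 0 (c i) with h | h
    · rw [max_eq_left h, max_eq_right (by linarith)]; ring
    · rw [max_eq_right h, max_eq_left (by linarith)]; ring
  have hx0L : ∑ i, (max (c i) 0) • v i ∈ L := by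
    refine ⟨mem_sp_iff.2 ⟨_, fun i hi => ?_, rfl⟩, mem_sp_iff.2 ⟨_, fun i hi => ?_, hx0.symm⟩⟩
    · rw [← hc1, not_lt] at hi
      exact max_eq_right hi
    · rw [← hc2, not_lt] at hi
      exact max_eq_right (by linarith)
  -- generic direction
  let κ := {J : Set ι // ¬ L ≤ sp v J}
  let p : κ → Submodule ℝ L := fun J => (sp v J.1).comap L.subtype
  have hp : ∀ k, p k ≠ ⊤ := by
    rintro ⟨J, hJ⟩ htop
    apply hJ
    intro x hx
    have : (⟨x, hx⟩ : L) ∈ p ⟨J, hJ⟩ := by rw [htop]; trivial
    exact this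
  obtain ⟨z, hz⟩ := exists_generic p hp
  obtain ⟨a, ha, has⟩ := mem_sp_iff.1 z.2.1
  obtain ⟨b, hb, hbs⟩ := mem_sp_iff.1 z.2.2
  have hgen := eventually_generic p ⟨_, hx0L⟩ z hz
  have hev : ∀ (f g : ι → ℝ) (Z : Set ι), (∀ i ∈ Z, 0 < f i) →
      ∀ᶠ ε in nhdsWithin (0:ℝ) (Set.Ioi 0), ∀ i, i ∈ Z → 0 < f i + ε * g i := by
    intro f g Z hf
    rw [Filter.eventually_all]
    intro i
    by_cases hi : i ∈ Z
    swap
    · exact Filter.Eventually.of_forall fun _ h => absurd h hi
    have hcont : Filter.Tendsto (fun ε : ℝ => f i + ε * g i) (nhdsWithin (0:ℝ) (Set.Ioi 0))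
        (nhds (f i + 0 * g i)) := by
      apply Filter.Tendsto.mono_left _ nhdsWithin_le_nhds
      exact (Continuous.tendsto (by fun_prop) 0)
    have hpos : 0 < f i + 0 * g i := by simpa using hf i hi
    filter_upwards [hcont.eventually (lt_mem_nhds hpos)] with ε hε _ using hε
  have hev1 := hev (fun i => max (c i) 0) a X (fun i hi => lt_max_of_lt_left ((hc1 i).2 hi))
  have hev2 := hev (fun i => max (-c i) 0) b Y (fun i hi => lt_max_of_lt_left (by
    have := (hc2 i).2 hi
    linarith))
  obtain ⟨ε, ⟨h1, h2⟩, h3⟩ := ((hgen.and hev1).and hev2).exists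
  set x : E := ∑ i, (max (c i) 0) • v i + ε • (z : E) with hx
  have hxL : x ∈ L := L.add_mem hx0L (L.smul_mem _ z.2)
  -- any J whose span contains x has a span containing L
  have hbig : ∀ J : Set ι, x ∈ sp v J → L ≤ sp v J := by
    intro J hJ
    by_contra hcon
    exact h1 ⟨J, hcon⟩ hJ
  have hxa : x = ∑ i, (max (c i) 0 + ε * a i) • v i := by
    simp only [add_smul, mul_smul, Finset.sum_add_distrib, ← Finset.smul_sum]
    rw [has]
  have hxb : x = ∑ i, (max (-c i) 0 + ε * b i) • v i := by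
    simp only [add_smul, mul_smul, Finset.sum_add_distrib, ← Finset.smul_sum]
    rw [hbs, ← hx0]
  have hzX : ∀ i, i ∉ X → max (c i) 0 + ε * a i = 0 := by
    intro i hi
    rw [ha i hi]
    rw [← hc1, not_lt] at hi
    rw [max_eq_right hi]; simp
  have hzY : ∀ i, i ∉ Y → max (-c i) 0 + ε * b i = 0 := by
    intro i hi
    rw [hb i hi]
    rw [← hc2, not_lt] at hi
    rw [max_eq_right (by linarith)]; simp
  obtain ⟨a', a1, a2, a3, a4⟩ := caratheodory v (fun i => max (c i) 0 + ε * a i) (fun i => by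
    by_cases hi : i ∈ X
    · exact (h2 i hi).le
    · exact (hzX i hi).ge)
  obtain ⟨b', b1, b2, b3, b4⟩ := caratheodory v (fun i => max (-c i) 0 + ε * b i) (fun i => by
    by_cases hi : i ∈ Y
    · exact (h3 i hi).le
    · exact (hzY i hi).ge)
  have hA : {i | 0 < a' i} ⊆ X := by
    intro i hi
    by_contra hiX
    have := a2 i (hzX i hiX)
    simp only [Set.mem_ofPred_eq, this, lt_irrefl] at hi
  have hB : {i | 0 < b' i} ⊆ Y := by
    intro i hi
    by_contra hiY
    have := b2 i (hzY i hiY)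
    simp only [Set.mem_ofPred_eq, this, lt_irrefl] at hi
  have hdisj : ∀ i, i ∈ X → i ∈ Y → False := by
    intro i hi hi'
    have := (hc1 i).2 hi
    have := (hc2 i).2 hi'
    linarith
  have ha0 : ∀ i, ¬ 0 < a' i → a' i = 0 := fun i hi => le_antisymm (not_lt.1 hi) (a1 i)
  have hb0 : ∀ i, ¬ 0 < b' i → b' i = 0 := fun i hi => le_antisymm (not_lt.1 hi) (b1 i)
  refine ⟨{i | 0 < a' i}, {i | 0 < b' i}, hA, hB, ⟨fun i => a' i - b' i, ?_, ?_, ?_⟩, a4, b4, ?_⟩
  · simp only [sub_smul, Finset.sum_sub_distrib]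
    rw [a3, b3, ← hxa, ← hxb, sub_self]
  · intro i
    simp only [Set.mem_ofPred_eq]
    constructor
    · intro h
      have := b1 i
      linarith
    · intro h
      have : b' i = 0 := hb0 i (fun h' => hdisj i (hA h) (hB h'))
      linarith
  · intro i
    simp only [Set.mem_ofPred_eq]
    constructor
    · intro h
      have := a1 i
      linarith
    · intro h
      have : a' i = 0 := ha0 i (fun h' => hdisj i (hA h') (hB h))
      linarith
  · apply le_antisymm
    · exact inf_le_inf (sp_mono hA) (sp_mono hB)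
    · refine le_inf (hbig _ ?_) (hbig _ ?_)
      · exact mem_sp_iff.2 ⟨a', fun i hi => ha0 i hi, by rw [a3, ← hxa]⟩
      · exact mem_sp_iff.2 ⟨b', fun i hi => hb0 i hi, by rw [b3, ← hxb]⟩

end H15
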