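import Pool.Agent.H15.Split

/-!
Signed vectors (sign classes of linear dependencies) of a finite family of vectors.
-/

set_option linter.unusedSectionVars false

open Module Submodule

namespace H15

variable {ι : Type*} [Fintype ι] {E : Type*} [AddCommGroup E] [Module ℝ E]

/-- the span of the vectors with index in `X`. -/
def sp (v : ι → E) (X : Set ι) : Submodule ℝ E := span ℝ (v '' X)

/-- `(X, Y)` are the sign classes of a linear dependency of the family `v`. -/
def SVec (v : ι → E) (X Y : Set ι) : Prop :=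
  ∃ c : ι → ℝ, ∑ i, c i • v i = 0 ∧ (∀ i, 0 < c i ↔ i ∈ X) ∧ (∀ i, c i < 0 ↔ i ∈ Y)

/-- the space `P ∩ N`. -/
def LL (v : ι → E) (X Y : Set ι) : Submodule ℝ E := sp v X ⊓ sp v Y

/-- all dependencies have `dim (P ∩ N) ≤ m`. -/
def Bdd (v : ι → E) (m : ℕ) : Prop :=
  ∀ X Y, SVec v X Y → finrank ℝ (LL v X Y) ≤ m

/-- any two indices may be left out without destroying the spanning property. -/
def Cosimple (v : ι → E) : Prop := ∀ i j, sp v ({i, j}ᶜ) = ⊤

variable {v : ι → E} {X Y X' Y' : Set ι}

theorem sp_mono (h : X ⊆ Y) : sp v X ≤ sp v Y := span_mono (Set.image_mono h)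

theorem mem_sp {i : ι} (h : i ∈ X) : v i ∈ sp v X := subset_span ⟨i, h, rfl⟩

theorem sp_union : sp v (X ∪ Y) = sp v X ⊔ sp v Y := by
  unfold sp; rw [Set.image_union, span_union]

theorem sp_insert {i : ι} : sp v (insert i X) = span ℝ {v i} ⊔ sp v X := by
  unfold sp; rw [Set.image_insert_eq, span_insert]

theorem sp_le {F : Submodule ℝ E} : sp v X ≤ F ↔ ∀ i ∈ X, v i ∈ F := by
  unfold sp
  rw [span_le]
  constructor
  · intro h i hi; exact h ⟨i, hi, rfl⟩
  · rintro h _ ⟨i, hi, rfl⟩; exact h i hi

theorem mem_sp_iff {x : E} : x ∈ sp v X ↔ ∃ a : ι → ℝ, (∀ i, i ∉ X → a i = 0) ∧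
    ∑ i, a i • v i = x := by
  classical
  constructor
  · intro h
    unfold sp at h
    induction h using Submodule.span_induction with
    | mem x hx =>
      obtain ⟨i, hi, rfl⟩ := hx
      refine ⟨Pi.single i 1, ?_, ?_⟩
      · intro j hj
        rw [Pi.single_apply, if_neg]
        rintro rfl
        exact hj hi
      · simp [Pi.single_apply, ite_smul]
    | zero => exact ⟨0, by simp, by simp⟩
    | add x y _ _ hx hy =>
      obtain ⟨a, ha, rfl⟩ := hx
      obtain ⟨b, hb, rfl⟩ := hy
      refine ⟨a + b, fun i hi => by simp [ha i hi, hb i hi], ?_⟩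
      simp [add_smul, Finset.sum_add_distrib]
    | smul r x _ hx =>
      obtain ⟨a, ha, rfl⟩ := hx
      refine ⟨r • a, fun i hi => by simp [ha i hi], ?_⟩
      simp [Finset.smul_sum, mul_smul]
  · rintro ⟨a, ha, rfl⟩
    refine Submodule.sum_mem _ fun i _ => ?_
    by_cases hi : i ∈ X
    · exact Submodule.smul_mem _ _ (mem_sp hi)
    · simp [ha i hi]

theorem SVec.disjoint (h : SVec v X Y) : Disjoint X Y := by
  obtain ⟨c, -, h1, h2⟩ := h
  rw [Set.disjoint_left]
  intro i hX hY
  have := (h1 i).2 hX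
  have := (h2 i).2 hY
  linarith

theorem SVec.symm (h : SVec v X Y) : SVec v Y X := by
  obtain ⟨c, h0, h1, h2⟩ := h
  refine ⟨-c, by simp [h0], fun i => ?_, fun i => ?_⟩
  · rw [← h2]; simp
  · rw [← h1]; simp

theorem svec_empty : SVec v ∅ ∅ := ⟨0, by simp, by simp, by simp⟩

/-- lexicographic composition. -/
theorem SVec.comp (h : SVec v X Y) (h' : SVec v X' Y') :
    SVec v (X ∪ (X' \ Y)) (Y ∪ (Y' \ X)) := by
  obtain ⟨c, h0, h1, h2⟩ := h
  obtain ⟨d, g0, g1, g2⟩ := h'
  have hev : ∀ i, ∀ᶠ ε in nhdsWithin (0:ℝ) (Set.Ioi 0), c i ≠ 0 → 0 < (c i + ε * d i) * c i := by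
    intro i
    by_cases hi : c i = 0
    · exact Filter.Eventually.of_forall fun _ h => absurd hi h
    have hcont : Filter.Tendsto (fun ε : ℝ => (c i + ε * d i) * c i) (nhdsWithin (0:ℝ) (Set.Ioi 0))
        (nhds ((c i + 0 * d i) * c i)) := by
      apply Filter.Tendsto.mono_left _ nhdsWithin_le_nhds
      exact (Continuous.tendsto (by fun_prop) 0)
    have hpos : 0 < (c i + 0 * d i) * c i := by
      simp only [zero_mul, add_zero]
      exact mul_self_pos.2 hi
    filter_upwards [hcont.eventually (lt_mem_nhds hpos)] with ε hε _ using hε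
  have h3 : ∀ᶠ ε in nhdsWithin (0:ℝ) (Set.Ioi 0), (0:ℝ) < ε := self_mem_nhdsWithin
  obtain ⟨ε, hε, hε'⟩ := (h3.and (Filter.eventually_all.2 hev)).exists
  have key : ∀ i, (0 < c i → 0 < c i + ε * d i) ∧ (c i < 0 → c i + ε * d i < 0) := by
    intro i
    constructor
    · intro hi
      have := hε' i hi.ne'
      exact (mul_pos_iff_of_pos_right hi).1 this
    · intro hi
      have := hε' i hi.ne
      by_contra hcon
      push Not at hcon
      nlinarith
  refine ⟨fun i => c i + ε * d i, ?_, ?_, ?_⟩
  · simp only [add_smul, Finset.sum_add_distrib, h0, mul_smul, ← Finset.smul_sum, g0]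
    simp
  · intro i
    rw [Set.mem_union, Set.mem_sdiff, ← h1, ← h2, ← g1]
    rcases lt_trichotomy (c i) 0 with hi | hi | hi
    · have := (key i).2 hi
      constructor
      · intro h; linarith
      · rintro (h | h)
        · linarith
        · exact absurd hi h.2
    · simp only [hi, zero_add, lt_irrefl, not_false_eq_true, and_true, false_or]
      exact mul_pos_iff_of_pos_left hε
    · have := (key i).1 hi
      exact ⟨fun _ => Or.inl hi, fun _ => this⟩
  · intro i
    rw [Set.mem_union, Set.mem_sdiff, ← h1, ← h2, ← g2]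
    rcases lt_trichotomy (c i) 0 with hi | hi | hi
    · have := (key i).2 hi
      exact ⟨fun _ => Or.inl hi, fun _ => this⟩
    · simp only [hi, zero_add, lt_irrefl, not_false_eq_true, and_true, false_or]
      constructor
      · intro h; by_contra hcon; push Not at hcon; have := mul_nonneg hε.le hcon; linarith
      · intro h; exact mul_neg_of_pos_of_neg hε h
    · have := (key i).1 hi
      constructor
      · intro h; linarith
      · rintro (h | h)
        · linarith
        · exact absurd hi h.2

/-- the sign classes of a relation modulo the span of the support may be added. -/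
theorem SVec.ext (h : SVec v X Y) (d : ι → ℝ) (hd : ∑ i, d i • v i ∈ sp v (X ∪ Y)) :
    SVec v (X ∪ {i | 0 < d i ∧ i ∉ Y}) (Y ∪ {i | d i < 0 ∧ i ∉ X}) := by
  obtain ⟨a, ha, hs⟩ := mem_sp_iff.1 hd
  have h' : SVec v {i | 0 < d i - a i} {i | d i - a i < 0} := by
    refine ⟨fun i => d i - a i, ?_, fun i => Iff.rfl, fun i => Iff.rfl⟩
    simp only [sub_smul, Finset.sum_sub_distrib, hs, sub_self]
  have := h.comp h'
  convert this using 1
  · ext i
    simp only [Set.mem_union, Set.mem_sdiff, Set.mem_ofPred_eq]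
    by_cases hX : i ∈ X
    · simp [hX]
    by_cases hY : i ∈ Y
    · simp [hX, hY]
    have : a i = 0 := ha i (by simp [hX, hY])
    simp [this]
  · ext i
    simp only [Set.mem_union, Set.mem_sdiff, Set.mem_ofPred_eq]
    by_cases hX : i ∈ X
    · simp [hX]
    by_cases hY : i ∈ Y
    · simp [hX, hY]
    have : a i = 0 := ha i (by simp [hX, hY])
    simp [this]

theorem SVec.add (h : SVec v X Y) {j : ι} (hX : j ∉ X) (hY : j ∉ Y) (hj : v j ∈ sp v (X ∪ Y)) :
    SVec v (insert j X) Y := by
  classical
  have := h.ext (Pi.single j 1) (by simpa [Pi.single_apply, ite_smul] using hj)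
  convert this using 1
  · ext i
    simp only [Set.mem_union, Set.mem_insert_iff, Set.mem_ofPred_eq, Pi.single_apply]
    by_cases hij : i = j
    · subst hij; simp [hY]
    · simp [hij]
  · ext i
    simp only [Set.mem_union, Set.mem_ofPred_eq, Pi.single_apply]
    by_cases hij : i = j
    · subst hij; simp
    · simp [hij]

theorem LL_comm : LL v X Y = LL v Y X := inf_comm _ _

end H15
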