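import Pool.Agent.H15.FamFrame

/-!
Exits from the cone of a maximal frame.
-/

set_option linter.unusedSectionVars false

open Module Submodule

namespace H15

variable {ι : Type*} [Fintype ι] {E : Type*} [AddCommGroup E] [Module ℝ E]
  [FiniteDimensional ℝ E] [Nonempty ι]
variable {v : ι → E} {X Y X' Y' A B : Set ι} {m : ℕ}

/-- the exit lemma. -/
theorem exists_exit {V κ : Type*} [AddCommGroup V] [Module ℝ V] [Fintype κ]
    (s : κ → (V →ₗ[ℝ] ℝ)) (x0 u : V) (hx0 : ∀ i, 0 < s i x0) (hu : ∃ i, s i u < 0) :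
    ∃ y : V, (∀ i, 0 ≤ s i y) ∧ (∃ i, s i y = 0) ∧ (∀ i, s i y = 0 → s i u < 0) ∧
      (∀ i j, s i y = 0 → s j y = 0 → ∀ x, s i x * s j u = s j x * s i u) := by
  classical
  let φ : κ × κ → (V →ₗ[ℝ] ℝ) := fun k => (s k.2 u) • s k.1 - (s k.1 u) • s k.2
  let K := {k : κ × κ // φ k ≠ 0}
  let p : K → Submodule ℝ V := fun k => LinearMap.ker (φ k.1)
  have hp : ∀ k, p k ≠ ⊤ := by
    rintro ⟨k, hk⟩ htop
    exact hk (LinearMap.ker_eq_top.1 htop)
  obtain ⟨z, hz⟩ := exists_generic p hp
  have hgen := eventually_generic p x0 z hz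
  have hev : ∀ᶠ ε in nhdsWithin (0:ℝ) (Set.Ioi 0), ∀ i, 0 < s i (x0 + ε • z) := by
    rw [Filter.eventually_all]
    intro i
    have hcont : Filter.Tendsto (fun ε : ℝ => s i x0 + ε * s i z) (nhdsWithin (0:ℝ) (Set.Ioi 0))
        (nhds (s i x0 + 0 * s i z)) := by
      apply Filter.Tendsto.mono_left _ nhdsWithin_le_nhds
      exact (Continuous.tendsto (by fun_prop) 0)
    have hpos : 0 < s i x0 + 0 * s i z := by simpa using hx0 i
    filter_upwards [hcont.eventually (lt_mem_nhds hpos)] with ε hε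
    simpa using hε
  obtain ⟨ε, h1, h2⟩ := (hgen.and hev).exists
  set x1 := x0 + ε • z with hx1
  obtain ⟨i0, hi0⟩ := hu
  obtain ⟨j, hj, hjmin⟩ := Finset.exists_min_image (Finset.univ.filter (fun i => s i u < 0))
    (fun i => s i x1 / (- s i u)) ⟨i0, by simp [hi0]⟩
  have hju : s j u < 0 := (Finset.mem_filter.1 hj).2
  set t := s j x1 / (- s j u) with ht
  have ht0 : 0 < t := div_pos (h2 j) (by linarith)
  have hval : ∀ i, s i (x1 + t • u) = s i x1 + t * s i u := by
    intro i; simp
  have hnn : ∀ i, 0 ≤ s i (x1 + t • u) := by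
    intro i
    rw [hval]
    by_cases hi : s i u < 0
    · have := hjmin i (by simp [hi])
      rw [le_div_iff₀ (by linarith)] at this
      linarith
    · push Not at hi
      have := h2 i
      have := mul_nonneg ht0.le hi
      linarith
  have hneg : ∀ i, s i (x1 + t • u) = 0 → s i u < 0 := by
    intro i hi
    by_contra hcon
    push Not at hcon
    rw [hval] at hi
    have := h2 i
    have := mul_nonneg ht0.le hcon
    linarith
  refine ⟨x1 + t • u, hnn, ⟨j, ?_⟩, hneg, ?_⟩
  · rw [hval, ht, div_neg, neg_mul, div_mul_cancel₀ _ hju.ne]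
    ring
  · intro i k hi hk x
    have hi' := hi
    have hk' := hk
    rw [hval] at hi' hk'
    have h3 : φ (i, k) x1 = 0 := by
      simp only [φ, LinearMap.sub_apply, LinearMap.smul_apply, smul_eq_mul]
      have e1 : s i x1 = - (t * s i u) := by linarith
      have e2 : s k x1 = - (t * s k u) := by linarith
      rw [e1, e2]; ring
    by_cases h4 : φ (i, k) = 0
    · have := LinearMap.congr_fun h4 x
      simp only [φ, LinearMap.sub_apply, LinearMap.smul_apply, smul_eq_mul,
        LinearMap.zero_apply] at this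
      linarith
    · exact absurd h3 (h1 ⟨(i, k), h4⟩)

/-- signed coordinates. -/
structure IsCoord (v : ι → E) (A B : Set ι) (s : ι → (E →ₗ[ℝ] ℝ)) : Prop where
  left : ∀ a : ι → ℝ, (∀ i, i ∉ A → a i = 0) → ∀ i ∈ A, s i (∑ j, a j • v j) = a i
  right : ∀ b : ι → ℝ, (∀ i, i ∉ B → b i = 0) → ∀ i ∈ B, s i (∑ j, b j • v j) = b i

theorem exists_isCoord (hA : LinearIndepOn ℝ v A) (hB : LinearIndepOn ℝ v B)
    (hd : Disjoint A B) : ∃ s, IsCoord v A B s := by
  classical
  obtain ⟨f, hf⟩ := exists_coord hA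
  obtain ⟨g, hg⟩ := exists_coord hB
  refine ⟨fun i => if i ∈ A then f i else g i, ?_, ?_⟩
  · intro a ha i hi
    simp only [hi, if_true]
    exact hf a ha i
  · intro b hb i hi
    have : i ∉ A := fun h => Set.disjoint_left.1 hd h hi
    simp only [this, if_false]
    exact hg b hb i

variable {s : ι → (E →ₗ[ℝ] ℝ)}

theorem IsCoord.symm (h : IsCoord v A B s) : IsCoord v B A s := ⟨h.right, h.left⟩

theorem IsCoord.repr (h : IsCoord v A B s) {x : E} (hx : x ∈ sp v A) :
    ∃ a : ι → ℝ, (∀ i, i ∉ A → a i = 0) ∧ ∑ i, a i • v i = x ∧ ∀ i ∈ A, a i = s i x := by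
  obtain ⟨a, ha, hs⟩ := mem_sp_iff.1 hx
  refine ⟨a, ha, hs, fun i hi => ?_⟩
  rw [← hs]
  exact (h.left a ha i hi).symm

theorem IsCoord.mem_diff_iff (h : IsCoord v A B s) {x : E} (hx : x ∈ sp v A) {t : ι}
    (ht : t ∈ A) : x ∈ sp v (A \ {t}) ↔ s t x = 0 := by
  constructor
  · intro hx'
    obtain ⟨a, ha, hs⟩ := mem_sp_iff.1 hx'
    rw [← hs, h.left a (fun i hi => ha i (fun h' => hi h'.1)) t ht]
    exact ha t (by simp)
  · intro h0
    obtain ⟨a, ha, hs, hsx⟩ := h.repr hx
    refine mem_sp_iff.2 ⟨a, fun i hi => ?_, hs⟩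
    by_cases hiA : i ∈ A
    · have : i = t := by
        by_contra hne
        exact hi ⟨hiA, hne⟩
      rw [this, hsx t ht, h0]
    · exact ha i hiA

theorem IsCoord.apply_self (h : IsCoord v A B s) {t : ι} (ht : t ∈ A) : s t (v t) = 1 := by
  classical
  have := h.left (Pi.single t 1) (fun i hi => by
    rw [Pi.single_apply, if_neg]
    rintro rfl
    exact hi ht) t ht
  simpa [Pi.single_apply, ite_smul] using this

theorem IsCoord.apply_ne (h : IsCoord v A B s) {t i : ι} (ht : t ∈ A) (hi : i ∈ A)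
    (hne : i ≠ t) : s t (v i) = 0 := by
  rw [← h.mem_diff_iff (mem_sp hi) ht]
  exact mem_sp ⟨hi, hne⟩

/-- an interior point. -/
theorem IsCoord.exists_interior (h : IsCoord v A B s) (hs : SVec v A B) :
    ∃ x ∈ LL v A B, (∀ i ∈ A, 0 < s i x) ∧ (∀ i ∈ B, 0 < s i x) := by
  obtain ⟨c, hc0, hc1, hc2⟩ := hs
  refine ⟨_, pos_mem_LL hc0 hc1 hc2, ?_, ?_⟩
  · intro i hi
    rw [h.left _ (fun j hj => by
      rw [← hc1, not_lt] at hj
      exact max_eq_right hj) i hi]
    exact lt_max_of_lt_left ((hc1 i).2 hi)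
  · intro i hi
    rw [pos_eq_neg hc0, h.right _ (fun j hj => by
      rw [← hc2, not_lt] at hj
      exact max_eq_right (by linarith)) i hi]
    exact lt_max_of_lt_left (by
      have := (hc2 i).2 hi
      linarith)

/-- points of the cone give signed vectors. -/
theorem IsCoord.svec (h : IsCoord v A B s) (hd : Disjoint A B) {y : E} (hy : y ∈ LL v A B)
    (hA : ∀ i ∈ A, 0 ≤ s i y) (hB : ∀ i ∈ B, 0 ≤ s i y) :
    SVec v {i | i ∈ A ∧ 0 < s i y} {i | i ∈ B ∧ 0 < s i y} := by
  obtain ⟨a, ha, hsa, ha'⟩ := h.repr hy.1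
  obtain ⟨b, hb, hsb, hb'⟩ := h.symm.repr hy.2
  refine ⟨fun i => a i - b i, ?_, ?_, ?_⟩
  · simp only [sub_smul, Finset.sum_sub_distrib, hsa, hsb, sub_self]
  · intro i
    by_cases hiA : i ∈ A
    · have hiB : i ∉ B := Set.disjoint_left.1 hd hiA
      simp [hiA, hb i hiB, ha' i hiA]
    · have h1 : ¬ 0 < a i - b i := by
        rw [ha i hiA]
        by_cases hiB : i ∈ B
        · rw [hb' i hiB]
          have := hB i hiB
          linarith
        · rw [hb i hiB]; simp
      simp [hiA, h1]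
  · intro i
    by_cases hiB : i ∈ B
    · have hiA : i ∉ A := fun h => Set.disjoint_left.1 hd h hiB
      simp [hiB, ha i hiA, hb' i hiB]
    · have h1 : ¬ a i - b i < 0 := by
        rw [hb i hiB]
        by_cases hiA : i ∈ A
        · rw [ha' i hiA]
          have := hA i hiA
          linarith
        · rw [ha i hiA]; simp
      simp [hiB, h1]

theorem finrank_inf_ker_ge (L : Submodule ℝ E) (f : E →ₗ[ℝ] ℝ) :
    finrank ℝ L ≤ finrank ℝ ↥(L ⊓ LinearMap.ker f) + 1 := by
  have h1 := LinearMap.finrank_range_add_finrank_ker (f.domRestrict L)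
  have h2 : finrank ℝ (LinearMap.range (f.domRestrict L)) ≤ 1 := by
    have := Submodule.finrank_le (LinearMap.range (f.domRestrict L))
    simpa using this
  have h3 : finrank ℝ (LinearMap.ker (f.domRestrict L)) ≤ finrank ℝ ↥(L ⊓ LinearMap.ker f) := by
    let g : LinearMap.ker (f.domRestrict L) →ₗ[ℝ] ↥(L ⊓ LinearMap.ker f) :=
      LinearMap.codRestrict _ (L.subtype.comp (LinearMap.ker (f.domRestrict L)).subtype)
        (fun x => ⟨x.1.2, x.2⟩)
    exact LinearMap.finrank_le_finrank_of_injective (f := g) (by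
      intro x y hxy
      have := congrArg (fun z : ↥(L ⊓ LinearMap.ker f) => (z : E)) hxy
      exact Subtype.ext (Subtype.ext this))
  omega

theorem finrank_inf_ker_lt (L : Submodule ℝ E) (f : E →ₗ[ℝ] ℝ) {u : E} (hu : u ∈ L)
    (hf : f u ≠ 0) : finrank ℝ ↥(L ⊓ LinearMap.ker f) < finrank ℝ L := by
  refine Submodule.finrank_lt_finrank_of_lt (lt_of_le_of_ne inf_le_left ?_)
  intro heq
  rw [← heq] at hu
  exact hf hu.2

/-- class rule (a): two elements of the same side do not have proportional coordinates. -/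
theorem MaxFrame.not_same_side (h : MaxFrame v m A B) (hs : IsCoord v A B s) {p q : ι}
    (hp : p ∈ A) (hq : q ∈ A) (hpq : p ≠ q) {u : E}
    (hqu : s q u ≠ 0)
    (hprop : ∀ x ∈ LL v A B, s p x * s q u = s q x * s p u) : False := by
  have hsp : sp v ({p, q}ᶜ) ≤ sp v B ⊔ sp v (A \ {p, q}) := by
    rw [sp_le]
    intro j hj
    by_cases hjB : j ∈ B
    · exact mem_sup_left (mem_sp hjB)
    by_cases hjA : j ∈ A
    · exact mem_sup_right (mem_sp ⟨hjA, hj⟩)
    · exact mem_sup_left (h.zero hjA hjB).2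
  rw [h.cos p q] at hsp
  have h1 := Submodule.finrank_mono hsp
  rw [finrank_top] at h1
  have h2 := Submodule.finrank_sup_add_finrank_inf_eq (sp v B) (sp v (A \ {p, q}))
  have h3 : LL v A B ⊓ LinearMap.ker (s q) ≤ sp v B ⊓ sp v (A \ {p, q}) := by
    rintro x ⟨hx, hxq⟩
    refine ⟨hx.2, ?_⟩
    have hxq' : s q x = 0 := hxq
    have hxp : s p x = 0 := by
      have := hprop x hx
      rw [hxq', zero_mul] at this
      exact (mul_eq_zero.1 this).resolve_right hqu
    obtain ⟨a, ha, hsa, hax⟩ := hs.repr hx.1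
    refine mem_sp_iff.2 ⟨a, fun i hi => ?_, hsa⟩
    by_cases hiA : i ∈ A
    · have : i = p ∨ i = q := by
        by_contra hne
        exact hi ⟨hiA, hne⟩
      rcases this with rfl | rfl
      · rw [hax _ hiA, hxp]
      · rw [hax _ hiA, hxq']
    · exact ha i hiA
  have h4 := Submodule.finrank_mono h3
  have h5 := finrank_inf_ker_ge (LL v A B) (s q)
  have h6 : (A \ {p, q}).ncard = A.ncard - 2 := by
    rw [Set.ncard_sdiff, Set.ncard_pair hpq]
    rintro x (rfl | rfl)
    · exact hp
    · exact hq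
  have h7 : LinearIndepOn ℝ v (A \ {p, q}) := h.indA.mono Set.sdiff_subset
  have h8 := h.card
  have h9 : 2 ≤ A.ncard := by
    rw [← Set.ncard_pair hpq]
    refine Set.ncard_le_ncard ?_ (Set.toFinite _)
    rintro x (rfl | rfl)
    · exact hp
    · exact hq
  rw [finrank_sp_eq h.indB, finrank_sp_eq h7] at h2
  rw [h.rank] at h5
  omega

/-- class rule (c): if the zero class of `y` is `{a | b}` then `v a` and `v b` are in `L`. -/
theorem MaxFrame.pair_mem (h : MaxFrame v m A B) (hs : IsCoord v A B s) {a b : ι}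
    (ha : a ∈ A) (hb : b ∈ B) {u y : E} (hau : s a u ≠ 0)
    (hprop : ∀ x ∈ LL v A B, s b x * s a u = s a x * s b u)
    (hy : y ∈ LL v A B) (hyA : ∀ i ∈ A, i ≠ a → 0 < s i y) (hya : s a y = 0)
    (hyB : ∀ i ∈ B, i ≠ b → 0 < s i y) (hyb : s b y = 0) :
    v a ∈ LL v A B ∧ v b ∈ LL v A B := by
  have hdisj := h.svec.disjoint
  have hab : a ≠ b := by
    rintro rfl
    exact Set.disjoint_left.1 hdisj ha hb
  have haB : a ∉ B := Set.disjoint_left.1 hdisj ha
  have hbA : b ∉ A := fun h => Set.disjoint_left.1 hdisj h hb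
  have hU : (A ∪ B) \ {a, b} = (A \ {a}) ∪ (B \ {b}) := by
    ext i
    simp only [Set.mem_sdiff, Set.mem_union, Set.mem_insert_iff, Set.mem_singleton_iff]
    constructor
    · rintro ⟨h1 | h1, h2⟩
      · exact Or.inl ⟨h1, fun h3 => h2 (Or.inl h3)⟩
      · exact Or.inr ⟨h1, fun h3 => h2 (Or.inr h3)⟩
    · rintro (⟨h1, h2⟩ | ⟨h1, h2⟩)
      · refine ⟨Or.inl h1, ?_⟩
        rintro (rfl | rfl)
        · exact h2 rfl
        · exact hbA h1
      · refine ⟨Or.inr h1, ?_⟩
        rintro (rfl | rfl)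
        · exact haB h1
        · exact h2 rfl
  set M := sp v ((A ∪ B) \ {a, b}) with hM
  -- L ⊓ ker s_a
  have hL0 : LL v A B ⊓ LinearMap.ker (s a) ≤ sp v (A \ {a}) ⊓ sp v (B \ {b}) := by
    rintro x ⟨hx, hxa⟩
    have hxa' : s a x = 0 := hxa
    have hxb : s b x = 0 := by
      have := hprop x hx
      rw [hxa', zero_mul] at this
      exact (mul_eq_zero.1 this).resolve_right hau
    exact ⟨(hs.mem_diff_iff hx.1 ha).2 hxa', (hs.symm.mem_diff_iff hx.2 hb).2 hxb⟩
  have hMlt : finrank ℝ M < finrank ℝ E := by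
    have h2 := Submodule.finrank_sup_add_finrank_inf_eq (sp v (A \ {a})) (sp v (B \ {b}))
    rw [← sp_union, ← hU, ← hM] at h2
    have h4 := Submodule.finrank_mono hL0
    have h5 := finrank_inf_ker_ge (LL v A B) (s a)
    have h6 : (A \ {a}).ncard = A.ncard - 1 := Set.ncard_sdiff_singleton_of_mem ha
    have h7 : (B \ {b}).ncard = B.ncard - 1 := Set.ncard_sdiff_singleton_of_mem hb
    have h8 := h.card
    rw [finrank_sp_eq (h.indA.mono Set.sdiff_subset), finrank_sp_eq (h.indB.mono Set.sdiff_subset)]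
      at h2
    have h9 : 0 < A.ncard := (Set.ncard_pos (Set.toFinite _)).2 ⟨a, ha⟩
    have h10 : 0 < B.ncard := (Set.ncard_pos (Set.toFinite _)).2 ⟨b, hb⟩
    rw [h.rank] at h5
    omega
  -- relation between a and b
  obtain ⟨c, hc0, hc1, hc2⟩ := h.svec
  have hca : 0 < c a := (hc1 a).2 ha
  have hcb : c b < 0 := (hc2 b).2 hb
  have hrel : c a • v a + c b • v b ∈ M := by
    classical
    have h1 : ∑ i, c i • v i = c a • v a + c b • v b +
        ∑ i, (if i = a ∨ i = b then 0 else c i) • v i := by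
      have h2 : ∀ i, c i • v i = ((if i = a then c a • v a else 0) +
          (if i = b then c b • v b else 0)) + (if i = a ∨ i = b then 0 else c i) • v i := by
        intro i
        by_cases h3 : i = a
        · subst h3; simp [hab]
        · by_cases h4 : i = b
          · subst h4; simp [h3]
          · simp [h3, h4]
      rw [Finset.sum_congr rfl fun i _ => h2 i, Finset.sum_add_distrib, Finset.sum_add_distrib]
      simp
    rw [hc0] at h1
    have h3 : c a • v a + c b • v b = - ∑ i, (if i = a ∨ i = b then 0 else c i) • v i :=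
      eq_neg_of_add_eq_zero_left h1.symm
    rw [h3]
    refine Submodule.neg_mem _ (mem_sp_iff.2 ⟨_, fun i hi => ?_, rfl⟩)
    by_cases h4 : i = a ∨ i = b
    · simp [h4]
    · simp only [h4, if_false]
      have h5 : i ∉ A ∪ B := fun h5 => hi ⟨h5, h4⟩
      have h6 : ¬ 0 < c i := fun h6 => h5 (Or.inl ((hc1 i).1 h6))
      have h7 : ¬ c i < 0 := fun h7 => h5 (Or.inr ((hc2 i).1 h7))
      push Not at h6 h7
      exact le_antisymm h6 h7
  have haM_iff : v a ∈ M ↔ v b ∈ M := by
    constructor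
    · intro h1
      have h2 := M.sub_mem hrel (M.smul_mem (c a) h1)
      rw [add_sub_cancel_left] at h2
      exact (M.smul_mem_iff hcb.ne).1 h2
    · intro h1
      have h2 := M.sub_mem hrel (M.smul_mem (c b) h1)
      rw [add_sub_cancel_right] at h2
      exact (M.smul_mem_iff hca.ne').1 h2
  have hbM : v b ∉ M := by
    intro hb'
    have : (⊤ : Submodule ℝ E) ≤ M := by
      rw [← h.top, sp_le]
      intro i hi
      by_cases h1 : i = a
      · rw [h1]; exact haM_iff.2 hb'
      by_cases h2 : i = b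
      · rw [h2]; exact hb'
      · exact mem_sp ⟨hi, by simp [h1, h2]⟩
    have := Submodule.finrank_mono this
    rw [finrank_top] at this
    omega
  have haM : v a ∉ M := fun h1 => hbM (haM_iff.1 h1)
  -- a zero element outside M
  obtain ⟨w, hwab, hwM⟩ : ∃ w, w ∈ ({a, b}ᶜ : Set ι) ∧ v w ∉ M := by
    by_contra hcon
    push Not at hcon
    have : (⊤ : Submodule ℝ E) ≤ M := by
      rw [← h.cos a b, sp_le]
      exact hcon
    have := Submodule.finrank_mono this
    rw [finrank_top] at this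
    omega
  have hwA : w ∉ A := fun h1 => hwM (mem_sp ⟨Or.inl h1, hwab⟩)
  have hwB : w ∉ B := fun h1 => hwM (mem_sp ⟨Or.inr h1, hwab⟩)
  have hwL := h.zero hwA hwB
  -- the crossed signed vector
  have hyS := hs.svec hdisj hy (fun i hi => by
      by_cases h1 : i = a
      · rw [h1, hya]
      · exact (hyA i hi h1).le) (fun i hi => by
      by_cases h1 : i = b
      · rw [h1, hyb]
      · exact (hyB i hi h1).le)
  have e1 : {i | i ∈ A ∧ 0 < s i y} = A \ {a} := by
    ext i
    simp only [Set.mem_ofPred_eq, Set.mem_sdiff, Set.mem_singleton_iff]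
    constructor
    · rintro ⟨h1, h2⟩
      refine ⟨h1, ?_⟩
      rintro rfl
      rw [hya] at h2
      exact lt_irrefl _ h2
    · rintro ⟨h1, h2⟩
      exact ⟨h1, hyA i h1 h2⟩
  have e2 : {i | i ∈ B ∧ 0 < s i y} = B \ {b} := by
    ext i
    simp only [Set.mem_ofPred_eq, Set.mem_sdiff, Set.mem_singleton_iff]
    constructor
    · rintro ⟨h1, h2⟩
      refine ⟨h1, ?_⟩
      rintro rfl
      rw [hyb] at h2
      exact lt_irrefl _ h2
    · rintro ⟨h1, h2⟩
      exact ⟨h1, hyB i h1 h2⟩
  rw [e1, e2] at hyS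
  have hstar := hyS.comp h.svec.symm
  have e3 : (A \ {a}) ∪ (B \ (B \ {b})) = insert b (A \ {a}) := by
    ext i
    simp only [Set.mem_union, Set.mem_sdiff, Set.mem_singleton_iff, Set.mem_insert_iff]
    constructor
    · rintro (h1 | ⟨h1, h2⟩)
      · exact Or.inr h1
      · exact Or.inl (by_contra fun h3 => h2 ⟨h1, h3⟩)
    · rintro (rfl | h1)
      · exact Or.inr ⟨hb, fun h2 => h2.2 rfl⟩
      · exact Or.inl h1
  have e4 : (B \ {b}) ∪ (A \ (A \ {a})) = insert a (B \ {b}) := by
    ext i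
    simp only [Set.mem_union, Set.mem_sdiff, Set.mem_singleton_iff, Set.mem_insert_iff]
    constructor
    · rintro (h1 | ⟨h1, h2⟩)
      · exact Or.inr h1
      · exact Or.inl (by_contra fun h3 => h2 ⟨h1, h3⟩)
    · rintro (rfl | h1)
      · exact Or.inr ⟨ha, fun h2 => h2.2 rfl⟩
      · exact Or.inl h1
  rw [e3, e4] at hstar
  -- its space LL has dimension at least m
  have hLs : m ≤ finrank ℝ (LL v (insert b (A \ {a})) (insert a (B \ {b}))) := by
    obtain ⟨c', hc0', hc1', hc2'⟩ := hstar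
    have hxs := pos_mem_LL hc0' hc1' hc2'
    have hlt : LL v A B ⊓ LinearMap.ker (s a) < LL v (insert b (A \ {a})) (insert a (B \ {b})) := by
      refine lt_of_le_of_ne ?_ ?_
      · refine hL0.trans (inf_le_inf (sp_mono (Set.subset_insert _ _))
          (sp_mono (Set.subset_insert _ _)))
      · intro heq
        rw [← heq] at hxs
        have h1 := (hL0 hxs).1
        have h2 : ∑ i, (max (c' i) 0) • v i ∈ M := by
          rw [hM, hU]
          exact sp_mono Set.subset_union_left h1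
        classical
        have h3 : ∑ i, (max (c' i) 0) • v i = c' b • v b +
            ∑ i, (if i = b then 0 else max (c' i) 0) • v i := by
          have h4 : ∀ i, (max (c' i) 0) • v i = (if i = b then c' b • v b else 0) +
              (if i = b then 0 else max (c' i) 0) • v i := by
            intro i
            by_cases h5 : i = b
            · subst h5
              have : 0 < c' i := (hc1' i).2 (Set.mem_insert _ _)
              simp [max_eq_left this.le]
            · simp [h5]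
          rw [Finset.sum_congr rfl fun i _ => h4 i, Finset.sum_add_distrib]
          simp
        have h4 : ∑ i, (if i = b then 0 else max (c' i) 0) • v i ∈ M := by
          refine mem_sp_iff.2 ⟨_, fun i hi => ?_, rfl⟩
          by_cases h5 : i = b
          · simp [h5]
          · simp only [h5, if_false]
            refine max_eq_right (not_lt.1 fun h6 => hi ?_)
            rcases (hc1' i).1 h6 with h7 | h7
            · exact absurd h7 h5
            · rw [hU]
              exact Or.inl h7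
        rw [h3] at h2
        have h5 := M.sub_mem h2 h4
        rw [add_sub_cancel_right] at h5
        have h6 : 0 < c' b := (hc1' b).2 (Set.mem_insert _ _)
        exact hbM ((M.smul_mem_iff h6.ne').1 h5)
    have h1 := Submodule.finrank_lt_finrank_of_lt hlt
    have h2 := finrank_inf_ker_ge (LL v A B) (s a)
    rw [h.rank] at h2
    omega
  have hLs' := le_antisymm (h.bdd _ _ hstar) hLs
  have hwa : w ≠ a := fun h1 => hwab (by simp [h1])
  have hwb : w ≠ b := fun h1 => hwab (by simp [h1])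
  have hwLs := mem_LL_of_max h.bdd hstar hLs' (j := w) (by simp [hwb, hwA]) (by simp [hwa, hwB]) (by
    have : sp v (insert b (A \ {a}) ∪ insert a (B \ {b})) = ⊤ := by
      rw [← h.top]
      congr 1
      ext i
      simp only [Set.mem_union, Set.mem_sdiff, Set.mem_singleton_iff, Set.mem_insert_iff]
      constructor
      · rintro ((rfl | h1) | (rfl | h1))
        · exact Or.inr hb
        · exact Or.inl h1.1
        · exact Or.inl ha
        · exact Or.inr h1.1
      · rintro (h1 | h1)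
        · by_cases h2 : i = a
          · exact Or.inr (Or.inl h2)
          · exact Or.inl (Or.inr ⟨h1, h2⟩)
        · by_cases h2 : i = b
          · exact Or.inl (Or.inl h2)
          · exact Or.inr (Or.inr ⟨h1, h2⟩)
    rw [this]; trivial)
  have key : ∀ (C : Set ι) (t : ι) (G : Submodule ℝ E), C ⊆ (A ∪ B) \ {a, b} → sp v C ≤ G →
      v w ∈ G → v w ∈ sp v (insert t C) → v t ∈ G := by
    intro C t G hC hCG hwG hw
    rw [sp_insert] at hw
    obtain ⟨y1, hy1, y2, hy2, hyw⟩ := Submodule.mem_sup.1 hw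
    obtain ⟨β, rfl⟩ := Submodule.mem_span_singleton.1 hy1
    have hβ : β ≠ 0 := by
      rintro rfl
      apply hwM
      rw [← hyw, zero_smul, zero_add]
      exact sp_mono hC hy2
    have h1 := G.sub_mem hwG (hCG hy2)
    rw [← hyw, add_sub_cancel_right] at h1
    exact (G.smul_mem_iff hβ).1 h1
  have hbP : v b ∈ sp v A := key (A \ {a}) b (sp v A) (by rw [hU]; exact Set.subset_union_left)
    (sp_mono Set.sdiff_subset) hwL.1 hwLs.1
  have haN : v a ∈ sp v B := key (B \ {b}) a (sp v B) (by rw [hU]; exact Set.subset_union_right)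
    (sp_mono Set.sdiff_subset) hwL.2 hwLs.2
  exact ⟨⟨mem_sp ha, haN⟩, ⟨hbP, mem_sp hb⟩⟩

/-- class rules (d) and (e). -/
theorem MaxFrame.single (h : MaxFrame v m A B) (hs : IsCoord v A B s) {t : ι}
    (ht : t ∈ A) (htL : v t ∉ LL v A B) {u y : E} (hu : u ∈ LL v A B) (htu : s t u ≠ 0)
    (hy : y ∈ LL v A B) (hyA : ∀ i ∈ A, i ≠ t → 0 < s i y) (hyt : s t y = 0)
    (hyB : ∀ i ∈ B, 0 < s i y) :
    (∀ w, w ∉ A → w ∉ B → s t (v w) = 0) ∧ MaxFrame v m (A \ {t}) (insert t B) := by
  have hdisj := h.svec.disjoint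
  have htB : t ∉ B := Set.disjoint_left.1 hdisj ht
  have hyS := hs.svec hdisj hy (fun i hi => by
      by_cases h1 : i = t
      · rw [h1, hyt]
      · exact (hyA i hi h1).le) (fun i hi => (hyB i hi).le)
  have e1 : {i | i ∈ A ∧ 0 < s i y} = A \ {t} := by
    ext i
    simp only [Set.mem_ofPred_eq, Set.mem_sdiff, Set.mem_singleton_iff]
    constructor
    · rintro ⟨h1, h2⟩
      refine ⟨h1, ?_⟩
      rintro rfl
      rw [hyt] at h2
      exact lt_irrefl _ h2
    · rintro ⟨h1, h2⟩
      exact ⟨h1, hyA i h1 h2⟩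
  have e2 : {i | i ∈ B ∧ 0 < s i y} = B := by
    ext i
    simp only [Set.mem_ofPred_eq]
    exact ⟨fun h1 => h1.1, fun h1 => ⟨h1, hyB i h1⟩⟩
  rw [e1, e2] at hyS
  -- the span of the support is everything
  have htop : sp v ((A \ {t}) ∪ B) = ⊤ := by
    have htm : v t ∈ sp v ((A \ {t}) ∪ B) := by
      obtain ⟨a, ha, hsa, hax⟩ := hs.repr hu.1
      classical
      have h3 : ∑ i, a i • v i = a t • v t + ∑ i, (if i = t then 0 else a i) • v i := by
        have h4 : ∀ i, a i • v i = (if i = t then a t • v t else 0) +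
            (if i = t then 0 else a i) • v i := by
          intro i
          by_cases h5 : i = t
          · subst h5; simp
          · simp [h5]
        rw [Finset.sum_congr rfl fun i _ => h4 i, Finset.sum_add_distrib]
        simp
      have h4 : ∑ i, (if i = t then 0 else a i) • v i ∈ sp v ((A \ {t}) ∪ B) := by
        refine mem_sp_iff.2 ⟨_, fun i hi => ?_, rfl⟩
        by_cases h5 : i = t
        · simp [h5]
        · simp only [h5, if_false]
          refine ha i fun h6 => hi (Or.inl ⟨h6, h5⟩)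
      have h5 : u ∈ sp v ((A \ {t}) ∪ B) := sp_mono Set.subset_union_right hu.2
      rw [← hsa, h3] at h5
      have h6 := Submodule.sub_mem _ h5 h4
      rw [add_sub_cancel_right] at h6
      exact (Submodule.smul_mem_iff _ (by rw [hax t ht]; exact htu)).1 h6
    rw [eq_top_iff, ← h.top, sp_le]
    rintro i (hi | hi)
    · by_cases h1 : i = t
      · rw [h1]; exact htm
      · exact mem_sp (Or.inl ⟨hi, h1⟩)
    · exact mem_sp (Or.inr hi)
  constructor
  · intro w hwA hwB
    by_contra hcon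
    have hwL := h.zero hwA hwB
    have hw' : v w ∉ sp v (A \ {t}) := fun h1 => hcon ((hs.mem_diff_iff hwL.1 ht).1 h1)
    have hS := hyS.add (j := w) (fun h1 => hwA h1.1) hwB (by rw [htop]; trivial)
    -- the span of the positive side is unchanged
    have htm : v t ∈ sp v (insert w (A \ {t})) := by
      obtain ⟨a, ha, hsa, hax⟩ := hs.repr hwL.1
      classical
      have h3 : ∑ i, a i • v i = a t • v t + ∑ i, (if i = t then 0 else a i) • v i := by
        have h4 : ∀ i, a i • v i = (if i = t then a t • v t else 0) +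
            (if i = t then 0 else a i) • v i := by
          intro i
          by_cases h5 : i = t
          · subst h5; simp
          · simp [h5]
        rw [Finset.sum_congr rfl fun i _ => h4 i, Finset.sum_add_distrib]
        simp
      have h4 : ∑ i, (if i = t then 0 else a i) • v i ∈ sp v (insert w (A \ {t})) := by
        refine mem_sp_iff.2 ⟨_, fun i hi => ?_, rfl⟩
        by_cases h5 : i = t
        · simp [h5]
        · simp only [h5, if_false]
          refine ha i fun h6 => hi (Or.inr ⟨h6, h5⟩)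
      have h5 : v w ∈ sp v (insert w (A \ {t})) := mem_sp (Set.mem_insert _ _)
      rw [← hsa, h3] at h5
      have h6 := Submodule.sub_mem _ h5 h4
      rw [add_sub_cancel_right] at h6
      exact (Submodule.smul_mem_iff _ (by rw [hax t ht]; exact hcon)).1 h6
    have hPe : sp v (insert w (A \ {t})) = sp v A := by
      apply le_antisymm
      · rw [sp_le]
        rintro i (rfl | hi)
        · exact hwL.1
        · exact mem_sp hi.1
      · rw [sp_le]
        intro i hi
        by_cases h1 : i = t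
        · rw [h1]; exact htm
        · exact mem_sp (Or.inr ⟨hi, h1⟩)
    have hLe : LL v (insert w (A \ {t})) B = LL v A B := by
      unfold LL; rw [hPe]
    have htw : t ≠ w := by
      rintro rfl
      exact hwA ht
    have h1 := mem_LL_of_max h.bdd hS (by rw [hLe, h.rank]) (j := t) (by simp [htw]) htB (by
      have : sp v (insert w (A \ {t}) ∪ B) = ⊤ := by
        rw [eq_top_iff, ← htop]
        exact sp_mono (Set.union_subset_union_left _ (Set.subset_insert _ _))
      rw [this]; trivial)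
    rw [hLe] at h1
    exact htL h1
  · have htN : v t ∉ sp v B := fun h1 => htL ⟨mem_sp ht, h1⟩
    have hS := (hyS.symm.add (j := t) htB (by simp) (by
      rw [Set.union_comm, htop]; trivial)).symm
    have hind : LinearIndepOn ℝ v (insert t B) := h.indB.insert htN
    have hindA : LinearIndepOn ℝ v (A \ {t}) := h.indA.mono Set.sdiff_subset
    refine ⟨h.cos, h.bdd, hS, hindA, hind, ?_⟩
    have h1 := finrank_LL (v := v) (X := A \ {t}) (Y := insert t B)
    have h2 : sp v (A \ {t} ∪ insert t B) = ⊤ := by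
      rw [eq_top_iff, ← htop]
      exact sp_mono (Set.union_subset_union_right _ (Set.subset_insert _ _))
    rw [h2, finrank_top, finrank_sp_eq hindA, finrank_sp_eq hind,
      Set.ncard_sdiff_singleton_of_mem ht, Set.ncard_insert_of_notMem htB] at h1
    have h3 := h.card
    have h9 : 0 < A.ncard := (Set.ncard_pos (Set.toFinite _)).2 ⟨t, ht⟩
    omega

/-- All-big exits. -/
theorem MaxFrame.exit (h : MaxFrame v m A B) (hs : IsCoord v A B s) {u : E}
    (hu : u ∈ LL v A B) (hneg : (∃ i ∈ A, s i u < 0) ∨ (∃ i ∈ B, s i u < 0))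
    (hsA : ∀ i ∈ small v A B, 0 ≤ s i u) (hsB : ∀ i ∈ small v B A, 0 ≤ s i u) :
    ∃ t, s t u < 0 ∧ (∀ w, w ∉ A → w ∉ B → s t (v w) = 0) ∧
      ((t ∈ A ∧ t ∉ small v A B ∧ MaxFrame v m (A \ {t}) (insert t B)) ∨
       (t ∈ B ∧ t ∉ small v B A ∧ MaxFrame v m (insert t A) (B \ {t}))) := by
  classical
  have hdisj := h.svec.disjoint
  obtain ⟨x0, hx0, hx0A, hx0B⟩ := hs.exists_interior h.svec
  let κ := {i : ι // i ∈ A ∪ B}
  let s' : κ → (LL v A B →ₗ[ℝ] ℝ) := fun i => (s i.1).comp (LL v A B).subtype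
  obtain ⟨y, h1, ⟨⟨i0, hi0⟩, h2⟩, h3, h4⟩ := exists_exit s' ⟨x0, hx0⟩ ⟨u, hu⟩
    (by
      rintro ⟨i, hi | hi⟩
      · exact hx0A i hi
      · exact hx0B i hi)
    (by
      rcases hneg with ⟨i, hi, hi'⟩ | ⟨i, hi, hi'⟩
      · exact ⟨⟨i, Or.inl hi⟩, hi'⟩
      · exact ⟨⟨i, Or.inr hi⟩, hi'⟩)
  -- reformulate
  have g1 : ∀ i ∈ A ∪ B, 0 ≤ s i (y : E) := fun i hi => h1 ⟨i, hi⟩
  have g3 : ∀ i ∈ A ∪ B, s i (y : E) = 0 → s i u < 0 := fun i hi => h3 ⟨i, hi⟩
  have g4 : ∀ i ∈ A ∪ B, ∀ j ∈ A ∪ B, s i (y : E) = 0 → s j (y : E) = 0 →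
      ∀ x ∈ LL v A B, s i x * s j u = s j x * s i u := fun i hi j hj hi0 hj0 x hx =>
    h4 ⟨i, hi⟩ ⟨j, hj⟩ hi0 hj0 ⟨x, hx⟩
  have g2 : s i0 (y : E) = 0 := h2
  have key : ∀ (A B : Set ι) (h : MaxFrame v m A B) (hs : IsCoord v A B s) (hu : u ∈ LL v A B)
      (y : E) (hy : y ∈ LL v A B)
      (hsA : ∀ i ∈ small v A B, 0 ≤ s i u) 
      (g1 : ∀ i ∈ A ∪ B, 0 ≤ s i y) (g3 : ∀ i ∈ A ∪ B, s i y = 0 → s i u < 0)
      (g4 : ∀ i ∈ A ∪ B, ∀ j ∈ A ∪ B, s i y = 0 → s j y = 0 →
      ∀ x ∈ LL v A B, s i x * s j u = s j x * s i u) (i0 : ι) (hi0 : i0 ∈ A) (g2 : s i0 y = 0),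
      i0 ∉ small v A B ∧ (∀ w, w ∉ A → w ∉ B → s i0 (v w) = 0) ∧
        MaxFrame v m (A \ {i0}) (insert i0 B) := by
    intro A B h hs hu y hy hsA g1 g3 g4 i0 hi0 g2
    have hi0u := g3 i0 (Or.inl hi0) g2
    have hsm : i0 ∉ small v A B := fun h5 => absurd (hsA i0 h5) (not_le.2 hi0u)
    have hL : v i0 ∉ LL v A B := fun h5 => hsm ⟨hi0, h5⟩
    -- other elements of A are positive
    have hA' : ∀ i ∈ A, i ≠ i0 → 0 < s i y := by
      intro i hi hne
      refine lt_of_le_of_ne (g1 i (Or.inl hi)) fun heq => ?_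
      exact h.not_same_side hs hi hi0 hne hi0u.ne (g4 i (Or.inl hi) i0 (Or.inl hi0) heq.symm g2)
    have hB' : ∀ i ∈ B, 0 < s i y := by
      intro b hb
      refine lt_of_le_of_ne (g1 b (Or.inr hb)) fun heq => ?_
      have hbu := g3 b (Or.inr hb) heq.symm
      refine hL (h.pair_mem hs hi0 hb hi0u.ne
        (g4 b (Or.inr hb) i0 (Or.inl hi0) heq.symm g2) hy hA' g2 ?_ heq.symm).1
      intro i hi hne
      refine lt_of_le_of_ne (g1 i (Or.inr hi)) fun heq' => ?_
      refine h.symm.not_same_side hs.symm hi hb hne hbu.ne ?_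
      intro x hx
      rw [LL_comm] at hx
      exact g4 i (Or.inr hi) b (Or.inr hb) heq'.symm heq.symm x hx
    obtain ⟨k1, k2⟩ := h.single hs hi0 hL hu hi0u.ne hy hA' g2 hB'
    exact ⟨hsm, k1, k2⟩
  rcases hi0 with hi0 | hi0
  · obtain ⟨k1, k2, k3⟩ := key A B h hs hu y y.2 hsA g1 g3 g4 i0 hi0 g2
    exact ⟨i0, g3 i0 (Or.inl hi0) g2, k2, Or.inl ⟨hi0, k1, k3⟩⟩
  · obtain ⟨k1, k2, k3⟩ := key B A h.symm hs.symm (by rw [LL_comm]; exact hu) y
      (by rw [LL_comm]; exact y.2) hsB
      (fun i hi => g1 i hi.symm) (fun i hi => g3 i hi.symm)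
      (fun i hi j hj hi0 hj0 x hx => g4 i hi.symm j hj.symm hi0 hj0 x (by
        rw [LL_comm]; exact hx)) i0 hi0 g2
    exact ⟨i0, g3 i0 (Or.inr hi0) g2, fun w hw hw' => k2 w hw' hw, Or.inr ⟨hi0, k1, k3.symm⟩⟩

end H15
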