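import Pool.Agent.H15.FamBasic

/-!
Maximal frames.
-/

set_option linter.unusedSectionVars false

open Module Submodule

namespace H15

variable {ι : Type*} [Fintype ι] {E : Type*} [AddCommGroup E] [Module ℝ E]
  [FiniteDimensional ℝ E]
variable {v : ι → E} {X Y X' Y' A B : Set ι} {m : ℕ}

/-- A signed vector of maximal rank, both of whose sides are linearly independent. -/
structure MaxFrame (v : ι → E) (m : ℕ) (A B : Set ι) : Prop where
  cos : Cosimple v
  bdd : Bdd v m
  svec : SVec v A B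
  indA : LinearIndepOn ℝ v A
  indB : LinearIndepOn ℝ v B
  rank : finrank ℝ (LL v A B) = m

theorem MaxFrame.symm (h : MaxFrame v m A B) : MaxFrame v m B A where
  cos := h.cos
  bdd := h.bdd
  svec := h.svec.symm
  indA := h.indB
  indB := h.indA
  rank := by rw [LL_comm]; exact h.rank

theorem exists_maxFrame (hc : Cosimple v) : ∃ m A B, MaxFrame v m A B := by
  classical
  let P : ℕ → Prop := fun m => ∃ X Y, SVec v X Y ∧ finrank ℝ (LL v X Y) = m
  have h0 : ∃ m, P m := ⟨_, ∅, ∅, svec_empty, rfl⟩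
  have hbd : ∀ m, P m → m ≤ finrank ℝ E := by
    rintro m ⟨X, Y, -, rfl⟩
    exact Submodule.finrank_le _
  obtain ⟨m0, hm0⟩ := h0
  have h1 := Nat.findGreatest_spec (P := P) (hbd m0 hm0) hm0
  obtain ⟨X, Y, hXY, hr⟩ := h1
  obtain ⟨A, B, hA, hB, hAB, hiA, hiB, hL⟩ := hXY.frame
  refine ⟨Nat.findGreatest P (finrank ℝ E), A, B, ⟨hc, ?_, hAB, hiA, hiB, by rw [hL]; exact hr⟩⟩
  intro X' Y' h'
  exact Nat.le_findGreatest (hbd _ ⟨X', Y', h', rfl⟩) ⟨X', Y', h', rfl⟩

section

variable [Nonempty ι]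

theorem MaxFrame.top (h : MaxFrame v m A B) : sp v (A ∪ B) = ⊤ :=
  sp_eq_top_of_max h.cos h.bdd h.svec h.rank (Classical.arbitrary ι)

theorem MaxFrame.card (h : MaxFrame v m A B) : A.ncard + B.ncard = finrank ℝ E + m := by
  have h1 := finrank_LL (v := v) (X := A) (Y := B)
  rw [h.top, finrank_top, h.rank, finrank_sp_eq h.indA, finrank_sp_eq h.indB] at h1
  exact h1.symm

theorem MaxFrame.zero (h : MaxFrame v m A B) {j : ι} (hA : j ∉ A) (hB : j ∉ B) :
    v j ∈ LL v A B :=
  mem_LL_of_max h.bdd h.svec h.rank hA hB (by rw [h.top]; trivial)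

theorem MaxFrame.union (h : MaxFrame v m A B) : (A ∪ B).ncard = finrank ℝ E + m := by
  rw [Set.ncard_union_eq h.svec.disjoint, h.card]

theorem MaxFrame.compl (h : MaxFrame v m A B) :
    (A ∪ B)ᶜ.ncard + (finrank ℝ E + m) = Fintype.card ι := by
  rw [← h.union, ← Nat.card_eq_fintype_card, add_comm]
  exact Set.ncard_add_ncard_compl _

/-- the elements of `A` in `L`. -/
def small (v : ι → E) (A B : Set ι) : Set ι := {i | i ∈ A ∧ v i ∈ LL v A B}

theorem MaxFrame.le_card (h : MaxFrame v m A B) : m ≤ A.ncard := by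
  rw [← h.rank, ← finrank_sp_eq h.indA]
  exact Submodule.finrank_mono inf_le_left

theorem MaxFrame.small_ne (h : MaxFrame v m A B) : (small v A B).ncard + 1 ≠ m := by
  classical
  intro hcon
  have hle : m ≤ A.ncard := h.le_card
  have hAs : small v A B ⊆ A := fun i hi => hi.1
  have hne : m ≠ A.ncard := by
    intro heq
    have h1 : LL v A B = sp v A := by
      refine Submodule.eq_of_le_of_finrank_eq inf_le_left ?_
      rw [h.rank, finrank_sp_eq h.indA, heq]
    have h2 : A ⊆ small v A B := fun i hi => ⟨hi, by rw [h1]; exact mem_sp hi⟩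
    have h3 := Set.ncard_le_ncard h2 (Set.toFinite _)
    omega
  have hbig : (A \ small v A B).ncard = A.ncard - (small v A B).ncard :=
    Set.ncard_sdiff hAs
  obtain ⟨p, q, hp, hq, hpq⟩ := (Set.one_lt_ncard_iff (s := A \ small v A B)
    (Set.toFinite _)).1 (by omega)
  have hsp : sp v ({p, q}ᶜ) ≤ sp v B ⊔ sp v ((A \ small v A B) \ {p, q}) := by
    rw [sp_le]
    intro j hj
    have hLB : ∀ x ∈ LL v A B, x ∈ sp v B ⊔ sp v ((A \ small v A B) \ {p, q}) :=
      fun x hx => mem_sup_left hx.2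
    by_cases hjB : j ∈ B
    · exact mem_sup_left (mem_sp hjB)
    by_cases hjA : j ∈ A
    · by_cases hjs : j ∈ small v A B
      · exact hLB _ hjs.2
      · exact mem_sup_right (mem_sp ⟨⟨hjA, hjs⟩, hj⟩)
    · exact hLB _ (h.zero hjA hjB)
  rw [h.cos p q] at hsp
  have h1 := Submodule.finrank_mono hsp
  rw [finrank_top] at h1
  have h2 := Submodule.finrank_add_le_finrank_add_finrank (sp v B)
    (sp v ((A \ small v A B) \ {p, q}))
  have h3 := finrank_sp_le (v := v) (X := (A \ small v A B) \ {p, q})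
  have h4 : ((A \ small v A B) \ {p, q}).ncard = (A \ small v A B).ncard - 2 := by
    rw [Set.ncard_sdiff, Set.ncard_pair hpq]
    rintro x (rfl | rfl)
    · exact hp
    · exact hq
  have h5 := h.card
  rw [finrank_sp_eq h.indB] at h2
  omega

theorem small_card_le (h : MaxFrame v m A B) : (small v A B).ncard ≤ m := by
  have h1 : LinearIndepOn ℝ v (small v A B) := h.indA.mono fun i hi => hi.1
  rw [← finrank_sp_eq h1, ← h.rank]
  exact Submodule.finrank_mono (sp_le.2 fun i hi => hi.2)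

theorem subset_of_sum_mem {c : ι → ℝ} {J : Set ι} (hi : LinearIndepOn ℝ v A)
    (hc : ∀ i, 0 < c i ↔ i ∈ A) (hJ : J ⊆ A) (h : ∑ i, (max (c i) 0) • v i ∈ sp v J) : A ⊆ J := by
  obtain ⟨a, ha, hs⟩ := mem_sp_iff.1 h
  intro i hiA
  by_contra hiJ
  have h1 := linInd_iff.1 hi (fun i => max (c i) 0 - a i) (by
    intro j hj
    have h2 : ¬ 0 < c j := fun h => hj ((hc j).1 h)
    rw [max_eq_right (not_lt.1 h2), ha j (fun h => hj (hJ h)), sub_zero]) (by
    simp only [sub_smul, Finset.sum_sub_distrib, hs, sub_self]) i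
  simp only [ha i hiJ, sub_zero] at h1
  have := (hc i).2 hiA
  rw [max_eq_left this.le] at h1
  linarith

theorem pos_eq_neg {c : ι → ℝ} (hc : ∑ i, c i • v i = 0) :
    ∑ i, (max (c i) 0) • v i = ∑ i, (max (-c i) 0) • v i := by
  rw [← sub_eq_zero, ← Finset.sum_sub_distrib, ← hc]
  refine Finset.sum_congr rfl fun i _ => ?_
  rw [← sub_smul]
  congr 1
  rcases le_total 0 (c i) with h | h
  · rw [max_eq_left h, max_eq_right (by linarith)]; ring
  · rw [max_eq_right h, max_eq_left (by linarith)]; ring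

theorem pos_mem_LL {c : ι → ℝ} (hc0 : ∑ i, c i • v i = 0) (hc1 : ∀ i, 0 < c i ↔ i ∈ A)
    (hc2 : ∀ i, c i < 0 ↔ i ∈ B) : ∑ i, (max (c i) 0) • v i ∈ LL v A B := by
  refine ⟨mem_sp_iff.2 ⟨_, fun i hi => ?_, rfl⟩,
    mem_sp_iff.2 ⟨_, fun i hi => ?_, (pos_eq_neg hc0).symm⟩⟩
  · rw [← hc1, not_lt] at hi
    exact max_eq_right hi
  · rw [← hc2, not_lt] at hi
    exact max_eq_right (by linarith)

/-- if `L` contains `m` elements of `A` then `A` has `m` elements and spans `L`. -/
theorem MaxFrame.full (h : MaxFrame v m A B) (hf : (small v A B).ncard = m) :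
    A.ncard = m ∧ sp v A = LL v A B := by
  have hAs : small v A B ⊆ A := fun i hi => hi.1
  have h1 : LinearIndepOn ℝ v (small v A B) := h.indA.mono hAs
  have h2 : sp v (small v A B) = LL v A B := by
    refine Submodule.eq_of_le_of_finrank_eq (sp_le.2 fun i hi => hi.2) ?_
    rw [finrank_sp_eq h1, hf, h.rank]
  obtain ⟨c, hc0, hc1, hc2⟩ := h.svec
  have h3 : A ⊆ small v A B := by
    refine subset_of_sum_mem h.indA hc1 hAs ?_
    rw [h2]
    exact pos_mem_LL hc0 hc1 hc2
  have h4 : A = small v A B := Set.Subset.antisymm h3 hAs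
  constructor
  · rw [h4]; exact hf
  · rw [← h2, ← h4]

theorem MaxFrame.small_of_card (h : MaxFrame v m A B) (hf : A.ncard = m) :
    (small v A B).ncard = m := by
  have h1 : LL v A B = sp v A := by
    refine Submodule.eq_of_le_of_finrank_eq inf_le_left ?_
    rw [h.rank, finrank_sp_eq h.indA, hf]
  have h2 : A ⊆ small v A B := fun i hi => ⟨hi, by rw [h1]; exact mem_sp hi⟩
  have h3 := Set.ncard_le_ncard h2 (Set.toFinite _)
  have := small_card_le h
  omega

/-- Q1. -/
theorem finrank_le_one (hc : Cosimple v) (hb : Bdd v 1) : finrank ℝ E ≤ 1 := by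
  obtain ⟨m, A, B, h⟩ := exists_maxFrame hc
  have hm : m ≤ 1 := by rw [← h.rank]; exact hb _ _ h.svec
  rcases Nat.le_one_iff_eq_zero_or_eq_one.1 hm with rfl | rfl
  · rw [finrank_eq_zero_of_bdd_zero hc h.bdd (Classical.arbitrary ι)]
    omega
  · have h1 := h.small_ne
    have h2 := small_card_le h
    have h3 := (h.full (by omega)).1
    have h4 := h.symm.small_ne
    have h5 := small_card_le h.symm
    have h6 := (h.symm.full (by omega)).1
    have h7 := h.card
    omega

end

end H15
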