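import Pool.Agent.H15.FamSmall

/-!
The cases `k = 3` and `k = 4`.
-/

set_option linter.unusedSectionVars false

open Module Submodule

namespace H15

variable {ι : Type*} [Fintype ι] {E : Type*} [AddCommGroup E] [Module ℝ E]
  [FiniteDimensional ℝ E]
variable {v : ι → E} {X Y X' Y' A B : Set ι} {m : ℕ} {s : ι → (E →ₗ[ℝ] ℝ)}

/-- nonzero vector on which given functionals vanish. -/
theorem exists_zero_vec {V κ : Type*} [AddCommGroup V] [Module ℝ V] [FiniteDimensional ℝ V]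
    [Fintype κ] (f : κ → (V →ₗ[ℝ] ℝ)) (hκ : Fintype.card κ < finrank ℝ V) :
    ∃ u : V, u ≠ 0 ∧ ∀ j, f j u = 0 := by
  let Φ : V →ₗ[ℝ] (κ → ℝ) := LinearMap.pi f
  have h1 : LinearMap.ker Φ ≠ ⊥ := by
    intro h
    have := LinearMap.finrank_le_finrank_of_injective (LinearMap.ker_eq_bot.1 h)
    rw [Module.finrank_fintype_fun_eq_card] at this
    omega
  obtain ⟨u, hu, hu0⟩ := Submodule.exists_mem_ne_zero_of_ne_bot h1
  exact ⟨u, hu0, fun j => congrFun hu j⟩

/-- nonzero vector on which given functionals are nonnegative. -/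
theorem exists_nonneg_vec {V κ : Type*} [AddCommGroup V] [Module ℝ V] [FiniteDimensional ℝ V]
    [Fintype κ] (f : κ → (V →ₗ[ℝ] ℝ)) (hκ : Fintype.card κ ≤ finrank ℝ V)
    (hV : 0 < finrank ℝ V) : ∃ u : V, u ≠ 0 ∧ ∀ j, 0 ≤ f j u := by
  let Φ : V →ₗ[ℝ] (κ → ℝ) := LinearMap.pi f
  by_cases h1 : LinearMap.ker Φ = ⊥
  · have hinj := LinearMap.ker_eq_bot.1 h1
    have h2 := LinearMap.finrank_le_finrank_of_injective hinj
    rw [Module.finrank_fintype_fun_eq_card] at h2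
    have h3 : finrank ℝ V = finrank ℝ (κ → ℝ) := by
      rw [Module.finrank_fintype_fun_eq_card]; omega
    have hsurj := (LinearMap.injective_iff_surjective_of_finrank_eq_finrank h3).1 hinj
    obtain ⟨u, hu⟩ := hsurj (fun _ => 1)
    refine ⟨u, ?_, fun j => ?_⟩
    · rintro rfl
      obtain ⟨j⟩ : Nonempty κ := by
        rw [← Fintype.card_pos_iff]; omega
      have := congrFun hu j
      rw [map_zero] at this
      simp at this
    · have : f j u = 1 := congrFun hu j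
      rw [this]; norm_num
  · obtain ⟨u, hu, hu0⟩ := Submodule.exists_mem_ne_zero_of_ne_bot h1
    exact ⟨u, hu0, fun j => (congrFun hu j).ge⟩

/-- a nonzero element of `L` of height zero has a negative coordinate. -/
theorem IsCoord.exists_neg [Nonempty ι] (hs : IsCoord v A B s) (h : E →ₗ[ℝ] ℝ)
    (hpos : ∀ i, 0 < h (v i)) {u : E} (hu : u ∈ sp v A) (hu0 : u ≠ 0) (hh : h u = 0) :
    ∃ i ∈ A, s i u < 0 := by
  by_contra hcon
  push Not at hcon
  obtain ⟨a, ha, hsa, hax⟩ := hs.repr hu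
  have hnn : ∀ i, 0 ≤ a i := by
    intro i
    by_cases hi : i ∈ A
    · rw [hax i hi]; exact hcon i hi
    · rw [ha i hi]
  rw [← hsa, map_sum] at hh
  simp only [map_smul, smul_eq_mul] at hh
  have h1 := (Finset.sum_eq_zero_iff_of_nonneg fun i _ => mul_nonneg (hnn i) (hpos i).le).1 hh
  apply hu0
  rw [← hsa]
  refine Finset.sum_eq_zero fun i hi => ?_
  have := (mul_eq_zero.1 (h1 i hi)).resolve_right (hpos i).ne'
  rw [this, zero_smul]

variable [Nonempty ι]

theorem neg_of_mem_LL (hs : IsCoord v A B s) (h : E →ₗ[ℝ] ℝ)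
    (hpos : ∀ i, 0 < h (v i)) {u : E} (hu : u ∈ LL v A B) (hu0 : u ≠ 0) (hh : h u = 0) :
    (∃ i ∈ A, s i u < 0) ∨ (∃ i ∈ B, s i u < 0) :=
  Or.inl (hs.exists_neg h hpos hu.1 hu0 hh)

/-- two opposite all-big exits. -/
theorem MaxFrame.two_exits (hF : MaxFrame v m A B) (h : E →ₗ[ℝ] ℝ) (hpos : ∀ i, 0 < h (v i))
    (hsm : (small v A B).ncard + (small v B A).ncard + 2 ≤ m) :
    ∃ K : Submodule ℝ E, finrank ℝ K + 2 ≤ m ∧ ∀ w, w ∉ A → w ∉ B → v w ∈ K := by
  classical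
  obtain ⟨s, hs⟩ := exists_isCoord hF.indA hF.indB hF.svec.disjoint
  set U : Submodule ℝ E := LL v A B ⊓ LinearMap.ker h with hU
  have hUr : m ≤ finrank ℝ U + 1 := by
    have := finrank_inf_ker_ge (LL v A B) h
    rw [hF.rank] at this
    exact this
  let J : Set ι := small v A B ∪ small v B A
  have hJ : J.ncard ≤ (small v A B).ncard + (small v B A).ncard := Set.ncard_union_le _ _
  obtain ⟨u, hu0, hu⟩ := exists_zero_vec (κ := J) (fun j => (s j).comp U.subtype) (by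
    have : Fintype.card J = J.ncard := by
      rw [← Nat.card_eq_fintype_card]; rfl
    omega)
  have huL : (u : E) ∈ LL v A B := u.2.1
  have huh : h (u : E) = 0 := u.2.2
  have hu0' : (u : E) ≠ 0 := fun h0 => hu0 (Subtype.ext h0)
  obtain ⟨t, ht, htW, ht'⟩ := hF.exit hs huL (neg_of_mem_LL hs h hpos huL hu0' huh)
    (fun i hi => (hu ⟨i, Or.inl hi⟩).ge) (fun i hi => (hu ⟨i, Or.inr hi⟩).ge)
  obtain ⟨t', ht2, htW2, ht2'⟩ := hF.exit hs (u := -(u : E)) (Submodule.neg_mem _ huL)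
    (neg_of_mem_LL hs h hpos (Submodule.neg_mem _ huL) (neg_ne_zero.2 hu0')
      (by rw [map_neg, huh, neg_zero]))
    (fun i hi => by rw [map_neg]; have := hu ⟨i, Or.inl hi⟩; exact (neg_eq_zero.2 this).ge)
    (fun i hi => by rw [map_neg]; have := hu ⟨i, Or.inr hi⟩; exact (neg_eq_zero.2 this).ge)
  rw [map_neg, neg_lt_zero] at ht2
  obtain ⟨x0, hx0, hx0A, hx0B⟩ := hs.exists_interior hF.svec
  have hx0t : 0 < s t x0 := by
    rcases ht' with h1 | h1
    · exact hx0A t h1.1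
    · exact hx0B t h1.1
  have hx0t' : 0 < s t' x0 := by
    rcases ht2' with h1 | h1
    · exact hx0A t' h1.1
    · exact hx0B t' h1.1
  refine ⟨LL v A B ⊓ LinearMap.ker (s t) ⊓ LinearMap.ker (s t'), ?_, ?_⟩
  · have h1 := finrank_inf_ker_lt (LL v A B) (s t) huL ht.ne
    have h2 := finrank_inf_ker_lt (LL v A B ⊓ LinearMap.ker (s t)) (s t')
      (u := x0 - (s t x0 / s t u) • (u : E)) ⟨Submodule.sub_mem _ hx0
        (Submodule.smul_mem _ _ huL), by
        rw [SetLike.mem_coe, LinearMap.mem_ker, map_sub, map_smul, smul_eq_mul,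
          div_mul_cancel₀ _ ht.ne, sub_self]⟩ (by
        rw [map_sub, map_smul, smul_eq_mul]
        have h3 : s t x0 / s t u < 0 := div_neg_of_pos_of_neg hx0t ht
        have h4 := mul_neg_of_neg_of_pos h3 ht2
        have : 0 < s t' x0 - s t x0 / s t u * s t' u := by linarith
        exact this.ne')
    rw [hF.rank] at h1
    omega
  · intro w hwA hwB
    exact ⟨⟨hF.zero hwA hwB, htW w hwA hwB⟩, htW2 w hwA hwB⟩

/-- one all-big exit. -/
theorem MaxFrame.one_exit (hF : MaxFrame v m A B) (h : E →ₗ[ℝ] ℝ) (hpos : ∀ i, 0 < h (v i))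
    (hsm : (small v A B).ncard + (small v B A).ncard + 1 ≤ m) (hm : 2 ≤ m) :
    ∃ K : Submodule ℝ E, finrank ℝ K + 1 ≤ m ∧ (∀ w, w ∉ A → w ∉ B → v w ∈ K) ∧
      ((∀ a ∈ small v A B, v a ∈ K) ∧ (∃ t ∈ A, MaxFrame v m (A \ {t}) (insert t B)) ∨
       (∀ b ∈ small v B A, v b ∈ K) ∧ (∃ t ∈ B, MaxFrame v m (insert t A) (B \ {t}))) := by
  classical
  obtain ⟨s, hs⟩ := exists_isCoord hF.indA hF.indB hF.svec.disjoint
  set U : Submodule ℝ E := LL v A B ⊓ LinearMap.ker h with hU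
  have hUr : m ≤ finrank ℝ U + 1 := by
    have := finrank_inf_ker_ge (LL v A B) h
    rw [hF.rank] at this
    exact this
  let J : Set ι := small v A B ∪ small v B A
  have hJ : J.ncard ≤ (small v A B).ncard + (small v B A).ncard := Set.ncard_union_le _ _
  obtain ⟨u, hu0, hu⟩ := exists_nonneg_vec (κ := J) (fun j => (s j).comp U.subtype) (by
    have : Fintype.card J = J.ncard := by
      rw [← Nat.card_eq_fintype_card]; rfl
    omega) (by omega)
  have huL : (u : E) ∈ LL v A B := u.2.1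
  have huh : h (u : E) = 0 := u.2.2
  have hu0' : (u : E) ≠ 0 := fun h0 => hu0 (Subtype.ext h0)
  obtain ⟨t, ht, htW, ht'⟩ := hF.exit hs huL (neg_of_mem_LL hs h hpos huL hu0' huh)
    (fun i hi => hu ⟨i, Or.inl hi⟩) (fun i hi => hu ⟨i, Or.inr hi⟩)
  refine ⟨LL v A B ⊓ LinearMap.ker (s t), ?_, ?_, ?_⟩
  · have h1 := finrank_inf_ker_lt (LL v A B) (s t) huL ht.ne
    rw [hF.rank] at h1
    omega
  · intro w hwA hwB
    exact ⟨hF.zero hwA hwB, htW w hwA hwB⟩
  · rcases ht' with ⟨h1, h2, h3⟩ | ⟨h1, h2, h3⟩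
    · refine Or.inl ⟨fun a ha => ⟨ha.2, ?_⟩, t, h1, h3⟩
      have hat : a ≠ t := by rintro rfl; exact h2 ha
      exact hs.apply_ne h1 ha.1 hat
    · refine Or.inr ⟨fun b hb => ⟨by rw [LL_comm]; exact hb.2, ?_⟩, t, h1, h3⟩
      have hat : b ≠ t := by rintro rfl; exact h2 hb
      exact hs.symm.apply_ne h1 hb.1 hat

/-- the extension by two zero elements if `A` spans `L`. -/
theorem MaxFrame.no_full (hF : MaxFrame v m A B) (hfull : sp v A = LL v A B)
    (hE : finrank ℝ E = m + 2) (hm : m ≤ 3) {w w' : ι} (hwA : w ∉ A) (hwB : w ∉ B)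
    (hwA' : w' ∉ A) (hwB' : w' ∉ B) (hind : LinearIndependent ℝ ![v w, v w']) : False := by
  classical
  set L := LL v A B with hL
  have hww' : w ≠ w' := by
    rintro rfl
    have := hind.injective (a₁ := 0) (a₂ := 1) (by simp)
    simp at this
  have hq : finrank ℝ (E ⧸ L) = 2 := by
    have := Submodule.finrank_quotient_add_finrank L
    have h2 : finrank ℝ L = m := hF.rank
    omega
  -- both sides span the quotient
  have hdiv : FullyDiv (L.mkQ ∘ v) ⊤ := by
    refine fullyDiv_of_not_bdd (n := 1) hq fun hb => ?_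
    have := finrank_le_one (hF.cos.comp (Submodule.mkQ_surjective L)) hb
    omega
  obtain ⟨X', Y', ⟨c, hc0, hc1, hc2⟩, hX', hY'⟩ := hdiv
  have hmk : ∀ x, L.mkQ x = 0 ↔ x ∈ L := by
    intro x
    rw [← LinearMap.mem_ker, Submodule.ker_mkQ]
  let c' : ι → ℝ := fun i => if v i ∈ L then 0 else c i
  have hc'L : ∑ i, c' i • v i ∈ L := by
    rw [← hmk, map_sum, ← hc0]
    refine Finset.sum_congr rfl fun i _ => ?_
    rw [map_smul]
    change c' i • L.mkQ (v i) = c i • L.mkQ (v i)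
    by_cases hi : v i ∈ L
    · rw [(hmk _).2 hi, smul_zero, smul_zero]
    · simp only [c', hi, if_false]
  have hAL : ∀ a ∈ A, v a ∈ L := fun a ha => by rw [← hfull]; exact mem_sp ha
  obtain ⟨g, hg, hgs⟩ := mem_sp_iff.1 (hfull ▸ hc'L : ∑ i, c' i • v i ∈ sp v A)
  let d : ι → ℝ := fun i => c' i - g i
  have hd : ∑ i, d i • v i = 0 := by
    simp only [d, sub_smul, Finset.sum_sub_distrib, hgs, sub_self]
  have hS1 : SVec v {i | 0 < d i} {i | d i < 0} := ⟨d, hd, fun _ => Iff.rfl, fun _ => Iff.rfl⟩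
  have hS2 := hS1.comp hF.svec
  set X2 := {i | 0 < d i} ∪ (A \ {i | d i < 0}) with hX2
  set Y2 := {i | d i < 0} ∪ (B \ {i | 0 < d i}) with hY2
  have hdisj := hF.svec.disjoint
  -- A is covered
  have hAcov : ∀ a ∈ A, a ∈ X2 ∨ a ∈ Y2 := by
    intro a ha
    by_cases h1 : d a < 0
    · exact Or.inr (Or.inl h1)
    · exact Or.inl (Or.inr ⟨ha, h1⟩)
  have hdw : ∀ w, w ∉ A → w ∉ B → w ∉ X2 ∧ w ∉ Y2 := by
    intro w hwA hwB
    have h1 : d w = 0 := by
      have : v w ∈ L := hF.zero hwA hwB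
      simp [d, c', this, hg w hwA]
    constructor
    · rintro (h2 | h2)
      · simp [h1] at h2
      · exact hwA h2.1
    · rintro (h2 | h2)
      · simp [h1] at h2
      · exact hwB h2.1
  have hX'2 : ∀ i ∈ X', v i ∉ L → i ∈ X2 := by
    intro i hi hiL
    have hiA : i ∉ A := fun h => hiL (hAL i h)
    have : d i = c i := by simp [d, c', hiL, hg i hiA]
    refine Or.inl ?_
    rw [Set.mem_ofPred_eq, this]
    exact (hc1 i).2 hi
  have hY'2 : ∀ i ∈ Y', v i ∉ L → i ∈ Y2 := by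
    intro i hi hiL
    have hiA : i ∉ A := fun h => hiL (hAL i h)
    have : d i = c i := by simp [d, c', hiL, hg i hiA]
    refine Or.inl ?_
    rw [Set.mem_ofPred_eq, this]
    exact (hc2 i).2 hi
  -- split
  have hsupA : sp v (X2 ∩ A) ⊔ sp v (Y2 ∩ A) = L := by
    rw [← sp_union, ← hfull]
    congr 1
    ext i
    constructor
    · rintro (h1 | h1) <;> exact h1.2
    · intro hi
      rcases hAcov i hi with h1 | h1
      · exact Or.inl ⟨h1, hi⟩
      · exact Or.inr ⟨h1, hi⟩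
  obtain ⟨σ, hσ⟩ := exists_split (sp v (X2 ∩ A)) (sp v (Y2 ∩ A)) ![v w, v w'] hind (by
    rw [hsupA]
    intro i
    fin_cases i
    · exact hF.zero hwA hwB
    · exact hF.zero hwA' hwB')
  rw [hsupA] at hσ
  let ω : Fin 2 → ι := ![w, w']
  have hω : ∀ i, v (ω i) = ![v w, v w'] i := by
    intro i; fin_cases i <;> rfl
  have hωinj : Function.Injective ω := by
    intro i j hij
    fin_cases i <;> fin_cases j
    · rfl
    · exact absurd hij hww'
    · exact absurd hij.symm hww'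
    · rfl
  have hωn : ∀ i, ω i ∉ X2 ∧ ω i ∉ Y2 := by
    intro i
    fin_cases i
    · exact hdw w hwA hwB
    · exact hdw w' hwA' hwB'
  have hωL : ∀ i, v (ω i) ∈ L := by
    intro i
    fin_cases i
    · exact hF.zero hwA hwB
    · exact hF.zero hwA' hwB'
  let e : ι → ℝ := fun i => if i ∈ ω '' (σ : Set (Fin 2)) then 1 else
    if i ∈ ω '' ((σ : Set (Fin 2))ᶜ) then -1 else 0
  have hLF : L ≤ sp v (X2 ∪ Y2) := by
    rw [← hsupA]
    refine sup_le (sp_mono ?_) (sp_mono ?_)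
    · exact fun i hi => Or.inl hi.1
    · exact fun i hi => Or.inr hi.1
  have hS3 := hS2.ext e (by
    refine Submodule.sum_mem _ fun i _ => ?_
    by_cases h1 : i ∈ Set.range ω
    · obtain ⟨j, rfl⟩ := h1
      exact Submodule.smul_mem _ _ (hLF (hωL j))
    · have : e i = 0 := by
        have h2 : i ∉ ω '' (σ : Set (Fin 2)) := fun ⟨j, _, hj⟩ => h1 ⟨j, hj⟩
        have h3 : i ∉ ω '' ((σ : Set (Fin 2))ᶜ) := fun ⟨j, _, hj⟩ => h1 ⟨j, hj⟩
        simp only [e, h2, h3, if_false]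
      rw [this, zero_smul]
      exact zero_mem _)
  set X3 := X2 ∪ {i | 0 < e i ∧ i ∉ Y2} with hX3
  set Y3 := Y2 ∪ {i | e i < 0 ∧ i ∉ X2} with hY3
  have himg : ∀ τ : Set (Fin 2), (![v w, v w'] '' τ) = v '' (ω '' τ) := by
    intro τ
    rw [Set.image_image]
    exact Set.image_congr fun i _ => (hω i).symm
  have hP : sp v (X2 ∩ A) ⊔ span ℝ (![v w, v w'] '' (σ : Set (Fin 2))) ≤ sp v X3 := by
    rw [himg]
    refine sup_le (sp_mono fun i hi => Or.inl hi.1) ?_
    refine span_mono (Set.image_mono ?_)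
    rintro _ ⟨j, hj, rfl⟩
    refine Or.inr ⟨?_, (hωn j).2⟩
    have : ω j ∈ ω '' (σ : Set (Fin 2)) := ⟨j, hj, rfl⟩
    simp only [e, this, if_true]
    norm_num
  have hN : sp v (Y2 ∩ A) ⊔ span ℝ (![v w, v w'] '' ((σ : Set (Fin 2))ᶜ)) ≤ sp v Y3 := by
    rw [himg]
    refine sup_le (sp_mono fun i hi => Or.inl hi.1) ?_
    refine span_mono (Set.image_mono ?_)
    rintro _ ⟨j, hj, rfl⟩
    refine Or.inr ⟨?_, (hωn j).1⟩
    have h1 : ω j ∉ ω '' (σ : Set (Fin 2)) := by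
      rintro ⟨k, hk, hkj⟩
      rw [hωinj hkj] at hk
      exact hj hk
    have h2 : ω j ∈ ω '' ((σ : Set (Fin 2))ᶜ) := ⟨j, hj, rfl⟩
    simp only [e, h1, h2, if_true, if_false]
    norm_num
  have hsubL : ∀ τ : Set (Fin 2), span ℝ (![v w, v w'] '' τ) ≤ L := by
    intro τ
    rw [span_le]
    rintro _ ⟨j, _, rfl⟩
    rw [← hω]
    exact hωL j
  have hPL : sp v (X2 ∩ A) ⊔ span ℝ (![v w, v w'] '' (σ : Set (Fin 2))) ≤ L :=
    sup_le (by rw [← hsupA]; exact le_sup_left) (hsubL _)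
  have hNL : sp v (Y2 ∩ A) ⊔ span ℝ (![v w, v w'] '' ((σ : Set (Fin 2))ᶜ)) ≤ L :=
    sup_le (by rw [← hsupA]; exact le_sup_right) (hsubL _)
  have hd1 := finrank_add_le_of_quot L.mkQ _ (sp v X3) ⊤ hP
    (fun x hx => (hmk x).2 (hPL hx)) (by
      rw [← hX', sp_le]
      intro i hi
      by_cases hiL : v i ∈ L
      · change L.mkQ (v i) ∈ _
        rw [(hmk _).2 hiL]; exact zero_mem _
      · exact Submodule.mem_map_of_mem (mem_sp (Or.inl (hX'2 i hi hiL))))
  have hd2 := finrank_add_le_of_quot L.mkQ _ (sp v Y3) ⊤ hN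
    (fun x hx => (hmk x).2 (hNL hx)) (by
      rw [← hY', sp_le]
      intro i hi
      by_cases hiL : v i ∈ L
      · change L.mkQ (v i) ∈ _
        rw [(hmk _).2 hiL]; exact zero_mem _
      · exact Submodule.mem_map_of_mem (mem_sp (Or.inl (hY'2 i hi hiL))))
  rw [finrank_top, hq] at hd1 hd2
  have h1 := hF.bdd _ _ hS3
  have h2 := finrank_LL (v := v) (X := X3) (Y := Y3)
  have h3 := Submodule.finrank_le (sp v (X3 ∪ Y3))
  have h4 : finrank ℝ L = m := hF.rank
  rw [h4, Fintype.card_fin] at hσ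
  omega

end H15
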