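import Pool.Agent.H15.Dep

/-!
From full-support dependencies of homogenized points to intersections of convex hulls.
-/

open Module Submodule

namespace H15

variable {V : Type*} [AddCommGroup V] [Module ℝ V]

/-- homogenization `v ↦ (v, 1)` as an embedding. -/
def hom (V : Type*) : V ↪ V × ℝ := ⟨fun v => (v, 1), fun _ _ h => (Prod.mk.inj h).1⟩

@[simp] theorem hom_apply (v : V) : hom V v = (v, 1) := rfl

theorem mem_span_hom_iff [DecidableEq V] (A : Finset V) (v : V) :
    ((v, 0) : V × ℝ) ∈ span ℝ ((A.map (hom V) : Finset (V × ℝ)) : Set (V × ℝ)) →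
      ∃ f : V → ℝ, ∑ x ∈ A, f x • x = v ∧ ∑ x ∈ A, f x = 0 := by
  classical
  intro h
  obtain ⟨f, -, hf⟩ := Submodule.mem_span_finset.1 h
  refine ⟨fun x => f (x, 1), ?_, ?_⟩
  · have := congrArg Prod.fst hf
    simpa [Finset.sum_map, Prod.fst_sum] using this
  · have := congrArg Prod.snd hf
    simpa [Finset.sum_map, Prod.snd_sum] using this

/-- one-sided perturbation: small perturbations of a positive combination stay in the hull. -/
theorem perturb_mem_convexHull (A : Finset V) (a α : V → ℝ)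
    (T : ℝ) (ha : ∀ x ∈ A, 0 < a x) (hT : ∑ x ∈ A, a x = T) (hT0 : 0 < T)
    (hα : ∑ x ∈ A, α x = 0) :
    ∀ᶠ ε in nhdsWithin (0:ℝ) (Set.Ioi 0),
      T⁻¹ • (∑ x ∈ A, a x • x + ε • ∑ x ∈ A, α x • x) ∈ convexHull ℝ (A : Set V) := by
  have : ∀ x ∈ A, ∀ᶠ ε in nhdsWithin (0:ℝ) (Set.Ioi 0), 0 < a x + ε * α x := by
    intro x hx
    have hcont : Filter.Tendsto (fun ε : ℝ => a x + ε * α x) (nhdsWithin (0:ℝ) (Set.Ioi 0))
        (nhds (a x + 0 * α x)) := by
      apply Filter.Tendsto.mono_left _ nhdsWithin_le_nhds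
      exact (Continuous.tendsto (by fun_prop) 0)
    have hpos : 0 < a x + 0 * α x := by simpa using ha x hx
    exact hcont.eventually (lt_mem_nhds hpos)
  filter_upwards [(Filter.eventually_all_finset A).2 this] with ε hε
  have h1 : T⁻¹ • (∑ x ∈ A, a x • x + ε • ∑ x ∈ A, α x • x)
      = ∑ x ∈ A, (T⁻¹ * (a x + ε * α x)) • x := by
    rw [Finset.smul_sum, ← Finset.sum_add_distrib, Finset.smul_sum]
    refine Finset.sum_congr rfl fun x _ => ?_
    rw [smul_smul, ← add_smul, smul_smul]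
  rw [h1]
  refine (convex_convexHull ℝ (A : Set V)).sum_mem ?_ ?_ ?_
  · intro x hx
    exact (mul_pos (inv_pos.2 hT0) (hε x hx)).le
  · rw [← Finset.mul_sum, Finset.sum_add_distrib, ← Finset.mul_sum, hα, hT]
    field_simp
    simp
  · intro x hx
    exact subset_convexHull ℝ _ hx

/-- Lemma 1. -/
theorem convexHull_inter_of_fullDep [FiniteDimensional ℝ V] [DecidableEq V] (S : Finset V)
    (hS : S.Nonempty) (c : V × ℝ → ℝ) (hc : FullDep (S.map (hom V)) c) :
    (convexHull ℝ (S.filter (fun x => 0 < c (x, 1)) : Set V) ∩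
      convexHull ℝ (S.filter (fun x => ¬ 0 < c (x, 1)) : Set V)).Nonempty ∧
    finrank ℝ ↥(posSpan (S.map (hom V)) c ⊓ negSpan (S.map (hom V)) c) ≤
      finrank ℝ (vectorSpan ℝ (convexHull ℝ (S.filter (fun x => 0 < c (x, 1)) : Set V) ∩
      convexHull ℝ (S.filter (fun x => ¬ 0 < c (x, 1)) : Set V))) + 1 := by
  classical
  set A := S.filter (fun x => 0 < c (x, 1)) with hA
  set B := S.filter (fun x => ¬ 0 < c (x, 1)) with hB
  have hne : ∀ x ∈ S, c (x, 1) ≠ 0 := fun x hx => hc.1 _ (Finset.mem_map_of_mem (hom V) hx)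
  have hposA : ∀ x ∈ A, 0 < c (x, 1) := fun x hx => (Finset.mem_filter.1 hx).2
  have hnegB : ∀ x ∈ B, 0 < - c (x, 1) := by
    intro x hx
    have h1 := (Finset.mem_filter.1 hx).2
    have h2 := hne x (Finset.mem_filter.1 hx).1
    push Not at h1
    have := lt_of_le_of_ne h1 h2
    linarith
  have hsum : ∑ x ∈ S, c (x, 1) • x = 0 ∧ ∑ x ∈ S, c (x, 1) = 0 := by
    have := hc.2
    rw [Finset.sum_map] at this
    constructor
    · have h := congrArg Prod.fst this
      simpa [Prod.fst_sum] using h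
    · have h := congrArg Prod.snd this
      simpa [Prod.snd_sum] using h
  have hsplit1 : ∑ x ∈ A, c (x, 1) • x = ∑ x ∈ B, (- c (x, 1)) • x := by
    have := Finset.sum_filter_add_sum_filter_not S (fun x => 0 < c (x, 1)) (fun x => c (x, 1) • x)
    rw [hsum.1] at this
    simp only [neg_smul, Finset.sum_neg_distrib]
    exact eq_neg_of_add_eq_zero_left this
  have hsplit2 : ∑ x ∈ A, c (x, 1) = ∑ x ∈ B, (- c (x, 1)) := by
    have := Finset.sum_filter_add_sum_filter_not S (fun x => 0 < c (x, 1)) (fun x => c (x, 1))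
    rw [hsum.2] at this
    simp only [Finset.sum_neg_distrib]
    exact eq_neg_of_add_eq_zero_left this
  set T := ∑ x ∈ A, c (x, 1) with hT
  have hT0 : 0 < T := by
    by_cases hAe : A.Nonempty
    · exact Finset.sum_pos hposA hAe
    · have hBe : B.Nonempty := by
        obtain ⟨x, hx⟩ := hS
        refine ⟨x, Finset.mem_filter.2 ⟨hx, fun h => hAe ⟨x, Finset.mem_filter.2 ⟨hx, h⟩⟩⟩⟩
      rw [hsplit2]
      exact Finset.sum_pos hnegB hBe
  set C : Set V := convexHull ℝ (A : Set V) ∩ convexHull ℝ (B : Set V) with hC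
  -- the base point
  have key : ∀ v : V, ((v, 0) : V × ℝ) ∈ posSpan (S.map (hom V)) c ⊓ negSpan (S.map (hom V)) c →
      ∀ᶠ ε in nhdsWithin (0:ℝ) (Set.Ioi 0),
        T⁻¹ • (∑ x ∈ A, c (x, 1) • x + ε • v) ∈ C := by
    intro v hv
    have hvA : ((v, 0) : V × ℝ) ∈ span ℝ ((A.map (hom V) : Finset (V × ℝ)) : Set (V × ℝ)) := by
      refine span_mono ?_ hv.1
      rintro y ⟨hy, hy0⟩
      obtain ⟨x, hx, rfl⟩ := Finset.mem_map.1 hy
      exact Finset.mem_map_of_mem (hom V) (Finset.mem_filter.2 ⟨hx, hy0⟩)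
    have hvB : ((v, 0) : V × ℝ) ∈ span ℝ ((B.map (hom V) : Finset (V × ℝ)) : Set (V × ℝ)) := by
      refine span_mono ?_ hv.2
      rintro y ⟨hy, hy0⟩
      obtain ⟨x, hx, rfl⟩ := Finset.mem_map.1 hy
      exact Finset.mem_map_of_mem (hom V) (Finset.mem_filter.2 ⟨hx, not_lt.2 hy0.le⟩)
    obtain ⟨α, hα1, hα2⟩ := mem_span_hom_iff A v hvA
    obtain ⟨β, hβ1, hβ2⟩ := mem_span_hom_iff B v hvB
    have h1 := perturb_mem_convexHull A (fun x => c (x, 1)) α T hposA hT.symm hT0 hα2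
    have h2 := perturb_mem_convexHull B (fun x => - c (x, 1)) β T hnegB hsplit2.symm hT0 hβ2
    filter_upwards [h1, h2] with ε h1 h2
    refine ⟨?_, ?_⟩
    · rw [hα1] at h1
      exact h1
    · rw [hβ1, ← hsplit1] at h2
      exact h2
  have h0mem : T⁻¹ • (∑ x ∈ A, c (x, 1) • x) ∈ C := by
    have := key 0 (Submodule.zero_mem _)
    simp only [smul_zero, add_zero] at this
    exact this.exists.choose_spec
  refine ⟨⟨_, h0mem⟩, ?_⟩
  have key2 : ∀ v : V, ((v, 0) : V × ℝ) ∈ posSpan (S.map (hom V)) c ⊓ negSpan (S.map (hom V)) c →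
      v ∈ vectorSpan ℝ C := by
    intro v hv
    obtain ⟨ε, hε, hε0⟩ := ((key v hv).and self_mem_nhdsWithin).exists
    have hε0' : (0:ℝ) < ε := hε0
    have h1 := vsub_mem_vectorSpan ℝ hε h0mem
    have h2 : T⁻¹ • (∑ x ∈ A, c (x, 1) • x + ε • v) -ᵥ T⁻¹ • (∑ x ∈ A, c (x, 1) • x)
        = (T⁻¹ * ε) • v := by
      rw [vsub_eq_sub, smul_add, add_sub_cancel_left, smul_smul]
    rw [h2] at h1
    have h3 := (vectorSpan ℝ C).smul_mem (T⁻¹ * ε)⁻¹ h1
    rwa [smul_smul, inv_mul_cancel₀ (by positivity), one_smul] at h3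
  set L := posSpan (S.map (hom V)) c ⊓ negSpan (S.map (hom V)) c with hL
  let g : L →ₗ[ℝ] ℝ := (LinearMap.snd ℝ V ℝ).comp L.subtype
  have hr := g.finrank_range_add_finrank_ker
  have hr1 : finrank ℝ (LinearMap.range g) ≤ 1 := by
    have := Submodule.finrank_le (LinearMap.range g)
    simpa using this
  let h : LinearMap.ker g →ₗ[ℝ] vectorSpan ℝ C :=
    LinearMap.codRestrict (vectorSpan ℝ C)
      (((LinearMap.fst ℝ V ℝ).comp L.subtype).comp (LinearMap.ker g).subtype) (by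
        rintro ⟨⟨⟨v, t⟩, hv⟩, hx⟩
        have ht : t = 0 := hx
        subst ht
        exact key2 v hv)
  have hinj : Function.Injective h := by
    rintro ⟨⟨⟨v, t⟩, hv⟩, hx⟩ ⟨⟨⟨v', t'⟩, hv'⟩, hx'⟩ heq
    have ht : t = 0 := hx
    have ht' : t' = 0 := hx'
    subst ht ht'
    have : v = v' := congrArg (fun z : vectorSpan ℝ C => (z : V)) heq
    subst this
    rfl
  have := LinearMap.finrank_le_finrank_of_injective hinj
  omega

end H15
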