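import Pool.Agent.H15.RadonDefs
import Pool.Agent.H15.Perturb
import Pool.Agent.H15.Chain

open Module

namespace H15

theorem convDim_mono {d : ℕ} {C D : Set (EuclideanSpace ℝ (Fin d))} (h : C ⊆ D) :
    convDim C ≤ convDim D := by
  unfold convDim
  by_cases hC : C.Nonempty
  · have hD : D.Nonempty := hC.mono h
    simp only [hC, hD, if_true]
    exact_mod_cast Submodule.finrank_mono (vectorSpan_mono ℝ h)
  · by_cases hD : D.Nonempty
    · simp only [hC, hD, if_true, if_false]
      omega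
    · simp [hC, hD]

theorem Divisible.mono {d k : ℕ} {S T : Finset (EuclideanSpace ℝ (Fin d))} (h : S ⊆ T)
    (hS : Divisible k S) : Divisible k T := by
  classical
  obtain ⟨A, B, hAB, hU, hk⟩ := hS
  have hU' : A ∪ B = S := by
    apply Finset.coe_injective
    rw [Finset.coe_union]
    exact hU
  refine ⟨A ∪ (T \ S), B, ?_, ?_, hk.trans (convDim_mono ?_)⟩
  · rw [Finset.disjoint_union_left]
    refine ⟨hAB, ?_⟩
    rw [Finset.disjoint_left]
    intro x hx hxB
    exact (Finset.mem_sdiff.1 hx).2 (hU' ▸ Finset.mem_union_right _ hxB)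
  · norm_cast
    ext x
    have h1 : x ∈ S ↔ x ∈ A ∨ x ∈ B := by rw [← hU', Finset.mem_union]
    simp only [Finset.mem_union, Finset.mem_sdiff]
    constructor
    · rintro ((h2 | h2) | h2)
      · exact h (h1.2 (Or.inl h2))
      · exact h2.1
      · exact h (h1.2 (Or.inr h2))
    · intro hx
      by_cases hxS : x ∈ S
      · rcases h1.1 hxS with h2 | h2
        · exact Or.inl (Or.inl h2)
        · exact Or.inr h2
      · exact Or.inl (Or.inr ⟨hx, hxS⟩)
  · refine Set.inter_subset_inter (convexHull_mono ?_) subset_rfl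
    push_cast
    exact Set.subset_union_left

/-- A dependency with large `L` gives divisibility. -/
theorem divisible_of_fullDep {d k : ℕ} (S : Finset (EuclideanSpace ℝ (Fin d)))
    (T : Finset (EuclideanSpace ℝ (Fin d) × ℝ)) (hT : T ⊆ S.map (hom _))
    (c : EuclideanSpace ℝ (Fin d) × ℝ → ℝ) (hc : FullDep T c)
    (hk : k + 1 ≤ finrank ℝ ↥(posSpan T c ⊓ negSpan T c)) : Divisible k S := by
  classical
  obtain ⟨S', hS', rfl⟩ := Finset.subset_map_iff.1 hT
  have hne : S'.Nonempty := by
    by_contra hcon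
    rw [Finset.not_nonempty_iff_eq_empty] at hcon
    subst hcon
    have h0 : posSpan (Finset.map (hom (EuclideanSpace ℝ (Fin d))) ∅) c = ⊥ := by
      simp [posSpan]
    rw [h0, bot_inf_eq, finrank_bot] at hk
    omega
  obtain ⟨h1, h2⟩ := convexHull_inter_of_fullDep S' hne c hc
  refine Divisible.mono hS' ⟨S'.filter (fun x => 0 < c (x, 1)), S'.filter (fun x => ¬ 0 < c (x, 1)),
    ?_, ?_, ?_⟩
  · exact Finset.disjoint_filter_filter_not _ _ _
  · norm_cast
    exact Finset.filter_union_filter_not_eq _ _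
  · unfold convDim
    rw [if_pos h1]
    have h3 := Nat.le_of_succ_le_succ (hk.trans h2)
    exact_mod_cast h3

/-- translation of the flat condition. -/
theorem flat_linear {d k : ℕ} (S : Finset (EuclideanSpace ℝ (Fin d))) (hS : FlatCondition k S)
    (F : Submodule ℝ (EuclideanSpace ℝ (Fin d) × ℝ)) (hF : finrank ℝ F = k + 1)
    (T : Finset (EuclideanSpace ℝ (Fin d) × ℝ)) (hT : T ⊆ S.map (hom _)) (hTF : ∀ x ∈ T, x ∈ F) :
    T.card ≤ 2 * k + 1 := by
  classical
  by_contra hcon
  push Not at hcon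
  obtain ⟨S', hS', rfl⟩ := Finset.subset_map_iff.1 hT
  rw [Finset.card_map] at hcon
  obtain ⟨S'', hS'', hcard⟩ := Finset.exists_subset_card_eq (s := S') (n := 2 * k + 2) (by omega)
  have hmem : ∀ x ∈ S', ((x, 1) : EuclideanSpace ℝ (Fin d) × ℝ) ∈ F := fun x hx =>
    hTF _ (Finset.mem_map_of_mem (hom _) hx)
  obtain ⟨p, hp⟩ : S''.Nonempty := by
    rw [← Finset.card_pos]; omega
  have hpF := hmem p (hS'' hp)
  let D : Submodule ℝ (EuclideanSpace ℝ (Fin d)) := F.comap (LinearMap.inl ℝ _ ℝ)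
  let F' : AffineSubspace ℝ (EuclideanSpace ℝ (Fin d)) := AffineSubspace.mk' p D
  refine hS ⟨F', S'', ⟨p, AffineSubspace.self_mem_mk' p D⟩, ?_, hS''.trans hS', hcard, ?_⟩
  · rw [AffineSubspace.direction_mk']
    -- finrank D = k
    have hsup : D.map (LinearMap.inl ℝ (EuclideanSpace ℝ (Fin d)) ℝ) ⊔ Submodule.span ℝ {(p, 1)} = F := by
      apply le_antisymm
      · refine sup_le ?_ (by simpa using hpF)
        rintro _ ⟨x, hx, rfl⟩
        exact hx
      · rintro ⟨v, t⟩ hvt
        have h1 : ((v, t) : EuclideanSpace ℝ (Fin d) × ℝ) = (v - t • p, 0) + t • (p, 1) := by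
          ext <;> simp
        rw [h1]
        refine Submodule.add_mem_sup ?_ (Submodule.smul_mem _ _ (Submodule.mem_span_singleton_self _))
        refine ⟨v - t • p, ?_, rfl⟩
        change ((v - t • p, 0) : EuclideanSpace ℝ (Fin d) × ℝ) ∈ F
        have h2 : ((v - t • p, 0) : EuclideanSpace ℝ (Fin d) × ℝ) = (v, t) - t • (p, 1) := by
          ext <;> simp
        rw [h2]
        exact F.sub_mem hvt (F.smul_mem _ hpF)
    have hinf : D.map (LinearMap.inl ℝ (EuclideanSpace ℝ (Fin d)) ℝ) ⊓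
        Submodule.span ℝ {(p, 1)} = ⊥ := by
      rw [eq_bot_iff]
      rintro x ⟨⟨y, _, hy⟩, hx⟩
      obtain ⟨r, rfl⟩ := Submodule.mem_span_singleton.1 hx
      have : (0:ℝ) = r := by
        have := congrArg Prod.snd hy
        simpa using this
      simp [← this]
    have h3 := Submodule.finrank_sup_add_finrank_inf_eq
      (D.map (LinearMap.inl ℝ (EuclideanSpace ℝ (Fin d)) ℝ)) (Submodule.span ℝ {(p, 1)})
    rw [hsup, hinf, finrank_bot, hF, finrank_span_singleton (by simp)] at h3
    have h4 := (Submodule.equivMapOfInjective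
      (LinearMap.inl ℝ (EuclideanSpace ℝ (Fin d)) ℝ) LinearMap.inl_injective D).finrank_eq
    omega
  · intro x hx
    rw [AffineSubspace.mem_mk']
    change ((x - p, 0) : EuclideanSpace ℝ (Fin d) × ℝ) ∈ F
    have h2 : ((x - p, 0) : EuclideanSpace ℝ (Fin d) × ℝ) = (x, 1) - (p, 1) := by
      ext <;> simp
    rw [h2]
    exact F.sub_mem (hmem x (hS'' hx)) hpF

theorem divisible_of_card {d k : ℕ} (hk : k ≤ d) (S : Finset (EuclideanSpace ℝ (Fin d)))
    (hS : FlatCondition k S) (hcard : 2 * d + k + 2 ≤ S.card) : Divisible k S := by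
  classical
  have hd : finrank ℝ (EuclideanSpace ℝ (Fin d) × ℝ) = d + 1 := by simp
  obtain ⟨T, hT, c, hc, hcT⟩ := main_linear k (S.map (hom _)) (fun F hF T hT hTF =>
    flat_linear S hS F hF T hT hTF) (by omega) (by rw [hd, Finset.card_map]; omega)
  exact divisible_of_fullDep S T hT c hc hcT

theorem nDiv_le {d k : ℕ} (hk : k ≤ d) : nDiv k d ≤ 2 * d + k + 2 :=
  Nat.sInf_le fun S hcard hS => divisible_of_card hk S hS hcard

end H15
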