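import Pool.Agent.H15.FamMain
import Pool.Agent.H15.Upper

/-!
From finite sets of points to cosimple families.
-/

set_option linter.unusedSectionVars false

open Module Submodule

namespace H15

section fc

variable {ι : Type*} [Fintype ι] {E : Type*} [AddCommGroup E] [Module ℝ E]
  [FiniteDimensional ℝ E] {v : ι → E}

theorem fc_of_flat {k : ℕ} (hspan : sp v Set.univ = ⊤) (hk : k + 1 ≤ finrank ℝ E)
    (hflat : ∀ G : Submodule ℝ E, finrank ℝ G = k + 1 → {i | v i ∈ G}.ncard ≤ 2 * k + 1) :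
    ∀ G : Submodule ℝ E, finrank ℝ G ≤ k + 1 → {i | v i ∈ G}.ncard ≤ k + finrank ℝ G := by
  have main : ∀ j : ℕ, ∀ G : Submodule ℝ E, finrank ℝ G + j = k + 1 →
      {i | v i ∈ G}.ncard ≤ k + finrank ℝ G := by
    intro j
    induction j with
    | zero =>
      intro G hG
      have := hflat G (by omega)
      omega
    | succ j ih =>
      intro G hG
      have hne : G ≠ ⊤ := by
        rintro rfl
        rw [finrank_top] at hG
        omega
      obtain ⟨i, hi⟩ : ∃ i, v i ∉ G := by
        by_contra hcon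
        push Not at hcon
        apply hne
        rw [eq_top_iff, ← hspan, sp_le]
        exact fun i _ => hcon i
      have h1 := finrank_sup_singleton hi
      have h2 := ih _ (by rw [h1]; omega)
      have h3 : insert i {i | v i ∈ G} ⊆ {j | v j ∈ span ℝ {v i} ⊔ G} := by
        rintro j (rfl | hj)
        · exact mem_sup_left (mem_span_singleton_self _)
        · exact mem_sup_right hj
      have h4 := Set.ncard_le_ncard h3 (Set.toFinite _)
      rw [Set.ncard_insert_of_notMem (a := i) (s := {i | v i ∈ G}) hi] at h4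
      omega
  intro G hG
  exact main (k + 1 - finrank ℝ G) G (by omega)

end fc

variable {E : Type*} [AddCommGroup E] [Module ℝ E]

/-- a finite subset of a subspace as a family. -/
def fam (S : Finset E) (E' : Submodule ℝ E) (hS : ∀ x ∈ S, x ∈ E') : S → E' :=
  fun x => ⟨x, hS x x.2⟩

theorem fullDep_of_not_bdd [FiniteDimensional ℝ E] [DecidableEq E] {S : Finset E}
    {E' : Submodule ℝ E} {hS : ∀ x ∈ S, x ∈ E'} {k : ℕ} (h : ¬ Bdd (fam S E' hS) k) :
    ∃ T : Finset E, T ⊆ S ∧ ∃ c, FullDep T c ∧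
      k + 1 ≤ finrank ℝ ↥(posSpan T c ⊓ negSpan T c) := by
  classical
  unfold Bdd at h
  push Not at h
  obtain ⟨X, Y, ⟨c0, h0, h1, h2⟩, hlt⟩ := h
  let c : E → ℝ := fun x => if hx : x ∈ S then c0 ⟨x, hx⟩ else 0
  have hcv : ∀ x : S, c x = c0 x := by
    intro x
    simp [c, x.2]
  refine ⟨S.filter (fun x => c x ≠ 0), Finset.filter_subset _ _, c, ⟨?_, ?_⟩, ?_⟩
  · intro x hx
    exact (Finset.mem_filter.1 hx).2
  · rw [Finset.sum_filter_of_ne]
    · rw [← Finset.sum_coe_sort]
      have h3 := congrArg Subtype.val h0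
      rw [AddSubmonoidClass.coe_finsetSum, ZeroMemClass.coe_zero] at h3
      rw [← h3]
      refine Finset.sum_congr rfl fun x _ => ?_
      rw [hcv]
      rfl
    · intro x _ hx hx0
      exact hx (by rw [hx0, zero_smul])
  · refine (Nat.succ_le_of_lt hlt).trans ?_
    have hX : (sp (fam S E' hS) X).map E'.subtype ≤
        posSpan (S.filter (fun x => c x ≠ 0)) c := by
      rw [Submodule.map_le_iff_le_comap, sp_le]
      intro i hi
      have h3 : 0 < c i := by rw [hcv]; exact (h1 i).2 hi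
      exact subset_span ⟨Finset.mem_filter.2 ⟨i.2, h3.ne'⟩, h3⟩
    have hY : (sp (fam S E' hS) Y).map E'.subtype ≤
        negSpan (S.filter (fun x => c x ≠ 0)) c := by
      rw [Submodule.map_le_iff_le_comap, sp_le]
      intro i hi
      have h3 : c i < 0 := by rw [hcv]; exact (h2 i).2 hi
      exact subset_span ⟨Finset.mem_filter.2 ⟨i.2, h3.ne⟩, h3⟩
    have h4 : (LL (fam S E' hS) X Y).map E'.subtype ≤
        posSpan (S.filter (fun x => c x ≠ 0)) c ⊓ negSpan (S.filter (fun x => c x ≠ 0)) c := by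
      refine le_inf ?_ ?_
      · exact (Submodule.map_mono inf_le_left).trans hX
      · exact (Submodule.map_mono inf_le_right).trans hY
    rw [(Submodule.equivMapOfInjective E'.subtype Subtype.val_injective
      (LL (fam S E' hS) X Y)).finrank_eq]
    exact Submodule.finrank_mono h4

theorem exists_pts [FiniteDimensional ℝ E] [DecidableEq E] (k e : ℕ) (S : Finset E)
    (h : E →ₗ[ℝ] ℝ) (hS : ∀ x ∈ S, h x = 1)
    (hflat : ∀ F : Submodule ℝ E, finrank ℝ F = k + 1 →
      ∀ T : Finset E, T ⊆ S → (∀ x ∈ T, x ∈ F) → T.card ≤ 2 * k + 1)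
    (hk : k + 1 ≤ finrank ℝ E) (hcard : 2 * finrank ℝ E + e ≤ S.card) :
    ∃ (E' : Submodule ℝ E) (S0 : Finset E) (hS0 : ∀ x ∈ S0, x ∈ E'), S0 ⊆ S ∧
      k + 2 ≤ finrank ℝ E' ∧ S0.card = 2 * finrank ℝ E' + e ∧ Pts (fam S0 E' hS0) ∧
      ∀ G : Submodule ℝ E', finrank ℝ G ≤ k + 1 →
        {i | fam S0 E' hS0 i ∈ G}.ncard ≤ k + finrank ℝ G := by
  classical
  -- choose E' minimal
  let P : ℕ → Prop := fun n => ∃ F : Submodule ℝ E, finrank ℝ F = n ∧ k + 1 ≤ n ∧
    2 * n + e ≤ (S.filter (· ∈ F)).card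
  have hP : ∃ n, P n := ⟨finrank ℝ E, ⊤, by simp, hk, by simpa using hcard⟩
  obtain ⟨E', hE'n, hkn, hE'c⟩ := Nat.find_spec hP
  have hmin : ∀ F : Submodule ℝ E, k + 1 ≤ finrank ℝ F → finrank ℝ F < finrank ℝ E' →
      (S.filter (· ∈ F)).card < 2 * finrank ℝ F + e := by
    intro F hF1 hF2
    by_contra hcon
    push Not at hcon
    exact Nat.find_min hP (m := finrank ℝ F) (by omega) ⟨F, rfl, hF1, hcon⟩
  rw [← hE'n] at hkn hE'c
  have hkn2 : k + 2 ≤ finrank ℝ E' := by
    by_contra hcon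
    have := hflat E' (by omega) (S.filter (· ∈ E')) (Finset.filter_subset _ _)
      (fun x hx => (Finset.mem_filter.1 hx).2)
    omega
  obtain ⟨S0, hS0sub, hS0card⟩ := Finset.exists_subset_card_eq hE'c
  have hS0E : ∀ x ∈ S0, x ∈ E' := fun x hx => (Finset.mem_filter.1 (hS0sub hx)).2
  have hS0S : S0 ⊆ S := hS0sub.trans (Finset.filter_subset _ _)
  -- a proper subspace misses at least three elements
  have hmiss : ∀ F : Submodule ℝ E, F < E' → (S0.filter (· ∈ F)).card + 3 ≤ S0.card := by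
    intro F hF
    have hlt := Submodule.finrank_lt_finrank_of_lt hF
    obtain ⟨G, hFG, hGE, hG⟩ := exists_le_finrank_eq F E' hF.le (finrank ℝ E' - 1)
      (by omega) (by omega)
    have h1 := hmin G (by omega) (by omega)
    have h2 : (S0.filter (· ∈ F)).card ≤ (S.filter (· ∈ G)).card := by
      refine Finset.card_le_card ?_
      intro x hx
      rw [Finset.mem_filter] at hx ⊢
      exact ⟨hS0S hx.1, hFG hx.2⟩
    omega
  have hcos : Cosimple (fam S0 E' hS0E) := by
    intro i j
    by_contra hcon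
    have hlt : (sp (fam S0 E' hS0E) ({i, j}ᶜ)).map E'.subtype < E' := by
      refine lt_of_le_of_ne (Submodule.map_subtype_le E' _) fun heq => hcon ?_
      rw [eq_top_iff]
      intro x _
      have hx : (x : E) ∈ (sp (fam S0 E' hS0E) ({i, j}ᶜ)).map E'.subtype := by
        rw [heq]; exact x.2
      obtain ⟨y, hy, hyx⟩ := hx
      have : y = x := Subtype.ext hyx
      rw [← this]; exact hy
    have h1 := hmiss _ hlt
    have h2 : (S0.erase i.1).erase j.1 ⊆
        S0.filter (· ∈ (sp (fam S0 E' hS0E) ({i, j}ᶜ)).map E'.subtype) := by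
      intro x hx
      have hxj := Finset.ne_of_mem_erase hx
      have hx' := Finset.mem_of_mem_erase hx
      have hxi := Finset.ne_of_mem_erase hx'
      have hxS := Finset.mem_of_mem_erase hx'
      refine Finset.mem_filter.2 ⟨hxS, ⟨fam S0 E' hS0E ⟨x, hxS⟩, mem_sp ?_, rfl⟩⟩
      rintro (h3 | h3)
      · exact hxi (congrArg Subtype.val h3)
      · exact hxj (congrArg Subtype.val h3)
    have h3 := Finset.card_le_card h2
    have h4 := Finset.pred_card_le_card_erase (s := S0) (a := i.1)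
    have h5 := Finset.pred_card_le_card_erase (s := S0.erase i.1) (a := j.1)
    omega
  have hnp : ∀ G : Submodule ℝ E', finrank ℝ G ≤ 1 →
      {i | fam S0 E' hS0E i ∈ G}.ncard ≤ 1 := by
    intro G hG
    rw [Set.ncard_le_one (Set.toFinite _)]
    intro i hi j hj
    obtain ⟨w, hw⟩ := finrank_le_one_iff.1 hG
    obtain ⟨a, ha⟩ := hw ⟨_, hi⟩
    obtain ⟨b, hb⟩ := hw ⟨_, hj⟩
    have ha' : a • ((w : E') : E) = i.1 := congrArg (fun z : G => ((z : E') : E)) ha
    have hb' : b • ((w : E') : E) = j.1 := congrArg (fun z : G => ((z : E') : E)) hb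
    have h1 := hS i.1 (hS0S i.2)
    have h2 := hS j.1 (hS0S j.2)
    rw [← ha', map_smul, smul_eq_mul] at h1
    rw [← hb', map_smul, smul_eq_mul] at h2
    have hab : a = b := by
      have hw0 : h ((w : E') : E) ≠ 0 := by
        intro h0
        rw [h0, mul_zero] at h1
        exact zero_ne_one h1
      exact mul_right_cancel₀ hw0 (h1.trans h2.symm)
    apply Subtype.ext
    rw [← ha', ← hb', hab]
  refine ⟨E', S0, hS0E, hS0S, hkn2, hS0card, ⟨hcos, ⟨h.comp E'.subtype, ?_⟩, hnp⟩, ?_⟩
  · intro i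
    have : h (i : E) = 1 := hS i.1 (hS0S i.2)
    change 0 < h (i : E)
    rw [this]; norm_num
  · have hne : S0.Nonempty := by
      rw [← Finset.card_pos]; omega
    obtain ⟨x0, hx0⟩ := hne
    refine fc_of_flat (hcos.span_univ ⟨x0, hx0⟩) (by omega) ?_
    intro G hG
    have h1 := hflat (G.map E'.subtype) (by
      rw [← (Submodule.equivMapOfInjective E'.subtype Subtype.val_injective G).finrank_eq, hG])
      (S0.filter (· ∈ G.map E'.subtype)) ((Finset.filter_subset _ _).trans hS0S)
      (fun x hx => (Finset.mem_filter.1 hx).2)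
    refine le_trans ?_ h1
    rw [← Set.ncard_coe_finset, ← Set.ncard_image_of_injective _
      (Subtype.val_injective (p := (· ∈ S0)))]
    refine Set.ncard_le_ncard ?_ (Set.toFinite _)
    rintro _ ⟨i, hi, rfl⟩
    exact Finset.mem_coe.2 (Finset.mem_filter.2 ⟨i.2, ⟨_, hi, rfl⟩⟩)

theorem divisible_three {d : ℕ} (hd : 4 ≤ d) (S : Finset (EuclideanSpace ℝ (Fin d)))
    (hS : FlatCondition 3 S) (hcard : 2 * d + 2 ≤ S.card) : Divisible 3 S := by
  classical
  have hd' : finrank ℝ (EuclideanSpace ℝ (Fin d) × ℝ) = d + 1 := by simp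
  obtain ⟨E', S0, hS0, hsub, hk2, hc, hpts, -⟩ := exists_pts 3 0 (S.map (hom _))
    (LinearMap.snd ℝ _ ℝ) (by
      intro x hx
      obtain ⟨y, -, rfl⟩ := Finset.mem_map.1 hx
      rfl) (fun F hF T hT hTF => flat_linear S hS F hF T hT hTF) (by omega)
      (by rw [hd', Finset.card_map]; omega)
  have hne : Nonempty S0 := by
    rw [← Fintype.card_pos_iff, Fintype.card_coe]; omega
  obtain ⟨T, hT, c, hc, hcT⟩ := fullDep_of_not_bdd (three hpts hk2 (by
    rw [Fintype.card_coe]; omega))
  exact divisible_of_fullDep S T (hT.trans hsub) c hc hcT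

theorem divisible_four {d : ℕ} (hd : 5 ≤ d) (S : Finset (EuclideanSpace ℝ (Fin d)))
    (hS : FlatCondition 4 S) (hcard : 2 * d + 5 ≤ S.card) : Divisible 4 S := by
  classical
  have hd' : finrank ℝ (EuclideanSpace ℝ (Fin d) × ℝ) = d + 1 := by simp
  obtain ⟨E', S0, hS0, hsub, hk2, hc, hpts, hfc⟩ := exists_pts 4 3 (S.map (hom _))
    (LinearMap.snd ℝ _ ℝ) (by
      intro x hx
      obtain ⟨y, -, rfl⟩ := Finset.mem_map.1 hx
      rfl) (fun F hF T hT hTF => flat_linear S hS F hF T hT hTF) (by omega)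
      (by rw [hd', Finset.card_map]; omega)
  have hne : Nonempty S0 := by
    rw [← Fintype.card_pos_iff, Fintype.card_coe]; omega
  obtain ⟨T, hT, c, hc, hcT⟩ := fullDep_of_not_bdd (four hpts hfc hk2 (by
    rw [Fintype.card_coe]; omega))
  exact divisible_of_fullDep S T (hT.trans hsub) c hc hcT

end H15
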