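import Pool.Agent.H15.FamK

/-!
The cases `k = 3` and `k = 4`: no cosimple configuration with all ranks at most `k`.
-/

set_option linter.unusedSectionVars false

open Module Submodule

namespace H15

variable {ι : Type*} [Fintype ι] {E : Type*} [AddCommGroup E] [Module ℝ E]
  [FiniteDimensional ℝ E]
variable {v : ι → E} {X Y X' Y' A B : Set ι} {m : ℕ} {s : ι → (E →ₗ[ℝ] ℝ)}

theorem sub_ncard_le {G : Submodule ℝ E} {J : Set ι} {hJ : ∀ i ∈ J, v i ∈ G}
    (G' : Submodule ℝ G) :
    {i | sub v G J hJ i ∈ G'}.ncard ≤ {i | v i ∈ G'.map G.subtype}.ncard := by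
  rw [← Set.ncard_image_of_injective _ (Subtype.val_injective (p := (· ∈ J)))]
  refine Set.ncard_le_ncard ?_ (Set.toFinite _)
  rintro _ ⟨i, hi, rfl⟩
  exact ⟨_, hi, rfl⟩

theorem sub_bound {G : Submodule ℝ E} {J : Set ι} {hJ : ∀ i ∈ J, v i ∈ G} {n b : ℕ}
    (h : ∀ G : Submodule ℝ E, finrank ℝ G ≤ n → {i | v i ∈ G}.ncard ≤ b)
    (G' : Submodule ℝ G) (hG' : finrank ℝ G' ≤ n) : {i | sub v G J hJ i ∈ G'}.ncard ≤ b := by
  refine (sub_ncard_le G').trans (h _ ?_)
  rw [← (Submodule.equivMapOfInjective G.subtype Subtype.val_injective G').finrank_eq]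
  exact hG'

/-- four vectors in a plane. -/
theorem fullyDiv_of_four {G : Submodule ℝ E} (hG : finrank ℝ G = 2)
    (hnp : ∀ G : Submodule ℝ E, finrank ℝ G ≤ 1 → {i | v i ∈ G}.ncard ≤ 1)
    (h4 : 4 ≤ {i | v i ∈ G}.ncard) : FullyDiv v G := by
  classical
  let J : Set ι := {i | v i ∈ G}
  have hJ : ∀ i ∈ J, v i ∈ G := fun i hi => hi
  have hcard : Fintype.card J = J.ncard := by
    rw [← Nat.card_eq_fintype_card]; rfl
  have hne : Nonempty J := by
    rw [← Fintype.card_pos_iff, hcard]
    exact lt_of_lt_of_le (by norm_num) h4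
  exact sub_fullyDiv (hJ := hJ) (plane_four (v := sub v G J hJ) hG
    (fun G' hG' => sub_bound hnp G' hG') (by rw [hcard]; exact h4))

/-- six vectors in a space. -/
theorem fullyDiv_of_six {G : Submodule ℝ E} (hG : finrank ℝ G = 3) (h : E →ₗ[ℝ] ℝ)
    (hpos : ∀ i, 0 < h (v i))
    (hnp : ∀ G : Submodule ℝ E, finrank ℝ G ≤ 1 → {i | v i ∈ G}.ncard ≤ 1)
    (hn4 : ∀ G : Submodule ℝ E, finrank ℝ G ≤ 2 → {i | v i ∈ G}.ncard ≤ 3)
    (h6 : 6 ≤ {i | v i ∈ G}.ncard) : FullyDiv v G := by
  classical
  obtain ⟨J, hJG, hJ6⟩ := Set.exists_subset_card_eq h6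
  have hJ : ∀ i ∈ J, v i ∈ G := fun i hi => hJG hi
  have hcard : Fintype.card J = J.ncard := by
    rw [← Nat.card_eq_fintype_card]; rfl
  have hne : Nonempty J := by
    rw [← Fintype.card_pos_iff, hcard]
    omega
  exact sub_fullyDiv (hJ := hJ) (space_six (v := sub v G J hJ) hG (h.comp G.subtype)
    (fun i => hpos i) (fun G' hG' => sub_bound hnp G' hG')
    (fun G' hG' => sub_bound hn4 G' hG') (by rw [hcard]; exact hJ6))

variable [Nonempty ι]

theorem ncard_L (hF : MaxFrame v m A B) :
    (A ∪ B)ᶜ.ncard + (small v A B).ncard + (small v B A).ncard ≤ {i | v i ∈ LL v A B}.ncard := by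
  have hd : Disjoint (small v A B) (small v B A) := by
    refine Set.disjoint_left.2 fun i hi hi' => ?_
    exact Set.disjoint_left.1 hF.svec.disjoint hi.1 hi'.1
  have hd2 : Disjoint (A ∪ B)ᶜ (small v A B ∪ small v B A) := by
    refine Set.disjoint_left.2 fun i hi hi' => hi ?_
    rcases hi' with h | h
    · exact Or.inl h.1
    · exact Or.inr h.1
  rw [add_assoc, ← Set.ncard_union_eq hd, ← Set.ncard_union_eq hd2]
  refine Set.ncard_le_ncard ?_ (Set.toFinite _)
  rintro i (hi | hi | hi)
  · exact hF.zero (fun h => hi (Or.inl h)) (fun h => hi (Or.inr h))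
  · exact hi.2
  · have := hi.2
    rwa [LL_comm] at this

/-- `L` contains exactly the zero elements and the small ones. -/
theorem compl_subset_le (_hF : MaxFrame v m A B) {K : Submodule ℝ E}
    (hK : ∀ w, w ∉ A → w ∉ B → v w ∈ K) : (A ∪ B)ᶜ.ncard ≤ {i | v i ∈ K}.ncard := by
  refine Set.ncard_le_ncard ?_ (Set.toFinite _)
  intro i hi
  exact hK i (fun h => hi (Or.inl h)) (fun h => hi (Or.inr h))

theorem compl_small_le (_hF : MaxFrame v m A B) {K : Submodule ℝ E}
    (hK : ∀ w, w ∉ A → w ∉ B → v w ∈ K) (hK' : ∀ a ∈ small v A B, v a ∈ K) :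
    (A ∪ B)ᶜ.ncard + (small v A B).ncard ≤ {i | v i ∈ K}.ncard := by
  have hd : Disjoint (A ∪ B)ᶜ (small v A B) := by
    refine Set.disjoint_left.2 fun i hi hi' => hi ?_
    exact Or.inl hi'.1
  rw [← Set.ncard_union_eq hd]
  refine Set.ncard_le_ncard ?_ (Set.toFinite _)
  rintro i (hi | hi)
  · exact hK i (fun h => hi (Or.inl h)) (fun h => hi (Or.inr h))
  · exact hK' i hi

/-- Configurations of points, homogenized. -/
structure Pts (v : ι → E) : Prop where
  cos : Cosimple v
  pos : ∃ h : E →ₗ[ℝ] ℝ, ∀ i, 0 < h (v i)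
  np : ∀ G : Submodule ℝ E, finrank ℝ G ≤ 1 → {i | v i ∈ G}.ncard ≤ 1

/-- the case `k = 3`. -/
theorem three (hv : Pts v) (hD : 5 ≤ finrank ℝ E) (hN : Fintype.card ι = 2 * finrank ℝ E) :
    ¬ Bdd v 3 := by
  classical
  intro hb
  obtain ⟨hc, ⟨h, hpos⟩, hnp⟩ := hv
  -- planes contain at most three elements
  have hno4 : ∀ G : Submodule ℝ E, finrank ℝ G ≤ 2 → {i | v i ∈ G}.ncard ≤ 3 := by
    intro G hG
    by_contra hcon
    push Not at hcon
    have hG2 : finrank ℝ G = 2 := by
      by_contra hne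
      have := hnp G (by omega)
      omega
    have hfd := fullyDiv_of_four hG2 hnp hcon
    have h1 : Bdd (G.mkQ ∘ v) 1 := fun X Y hXY => by
      have := hfd.bdd hb hXY
      omega
    have h2 := finrank_le_one (hc.comp (Submodule.mkQ_surjective G)) h1
    have h3 := Submodule.finrank_quotient_add_finrank G
    omega
  have hno6 : ∀ G : Submodule ℝ E, finrank ℝ G ≤ 3 → {i | v i ∈ G}.ncard ≤ 5 := by
    intro G hG
    by_contra hcon
    push Not at hcon
    have hG3 : finrank ℝ G = 3 := by
      by_contra hne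
      have := hno4 G (by omega)
      omega
    have hfd := fullyDiv_of_six hG3 h hpos hnp hno4 hcon
    have h1 : Bdd (G.mkQ ∘ v) 1 := fun X Y hXY => by
      have := hfd.bdd hb hXY
      omega
    have h2 := finrank_le_one (hc.comp (Submodule.mkQ_surjective G)) h1
    have h3 := Submodule.finrank_quotient_add_finrank G
    omega
  -- no frame of rank three with three small elements on one side
  have hfull3 : ∀ A B : Set ι, MaxFrame v 3 A B → (small v A B).ncard ≠ 3 := by
    intro A B hF hα
    obtain ⟨hA3, hAL⟩ := hF.full hα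
    have h1 := ncard_L hF
    have h2 := hno6 _ hF.rank.le
    have h3 := hF.compl
    have h4 := hF.card
    have hD5 : finrank ℝ E = 5 := by omega
    have hW : (A ∪ B)ᶜ.ncard = 2 := by omega
    obtain ⟨w, w', hww', hWe⟩ := Set.ncard_eq_two.1 hW
    have hw : w ∈ (A ∪ B)ᶜ := by rw [hWe]; simp
    have hw' : w' ∈ (A ∪ B)ᶜ := by rw [hWe]; simp
    refine hF.no_full hAL (by omega) le_rfl (w := w) (w' := w')
      (fun h => hw (Or.inl h)) (fun h => hw (Or.inr h)) (fun h => hw' (Or.inl h))
      (fun h => hw' (Or.inr h)) ?_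
    have hw0 : v w ≠ 0 := by
      intro h0
      have := hpos w
      rw [h0, map_zero] at this
      exact lt_irrefl _ this
    rw [LinearIndependent.pair_iff' hw0]
    intro r hr
    have h5 : finrank ℝ (span ℝ {v w}) ≤ 1 := by
      have := finrank_span_le_card (R := ℝ) ({v w} : Set E)
      simpa using this
    have h6 := hnp _ h5
    have h7 : ({w, w'} : Set ι) ⊆ {l | v l ∈ span ℝ {v w}} := by
      intro l hl
      rcases hl with hl | hl
      · rw [hl]; exact mem_span_singleton_self _
      · have hl' : l = w' := hl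
        rw [hl', Set.mem_ofPred_eq, ← hr]
        exact Submodule.smul_mem _ _ (mem_span_singleton_self _)
    have h8 := Set.ncard_le_ncard h7 (Set.toFinite _)
    rw [Set.ncard_pair hww'] at h8
    omega
  obtain ⟨m, A, B, hF⟩ := exists_maxFrame hc
  have hm : m ≤ 3 := by rw [← hF.rank]; exact hb _ _ hF.svec
  have h1 := ncard_L hF
  have h3 := hF.compl
  have h4 := hF.card
  have hα := hF.small_ne
  have hβ := hF.symm.small_ne
  have hα' := small_card_le hF
  have hβ' := small_card_le hF.symm
  have hr := hF.rank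
  rcases Nat.lt_or_ge m 2 with hm2 | hm2
  · have := hnp _ (hr.le.trans (by omega))
    omega
  rcases Nat.lt_or_ge m 3 with hm3 | hm3
  · have hm2' : m = 2 := by omega
    subst hm2'
    have h2 := hno4 _ hr.le
    obtain ⟨K, hK, hKW, -⟩ := hF.one_exit h hpos (by omega) le_rfl
    have h5 := hnp K (by omega)
    have h6 := compl_subset_le hF hKW
    omega
  · have hm3' : m = 3 := by omega
    subst hm3'
    have h2 := hno6 _ hr.le
    have hα3 := hfull3 A B hF
    have hβ3 := hfull3 B A hF.symm
    by_cases hsum : (small v A B).ncard + (small v B A).ncard ≤ 1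
    · obtain ⟨K, hK, hKW⟩ := hF.two_exits h hpos (by omega)
      have h5 := hnp K (by omega)
      have h6 := compl_subset_le hF hKW
      omega
    · have hα1 : (small v A B).ncard = 1 := by omega
      have hβ1 : (small v B A).ncard = 1 := by omega
      obtain ⟨K, hK, hKW, hcase⟩ := hF.one_exit h hpos (by omega) (by norm_num)
      have h5 := hno4 K (by omega)
      -- the sides have more than three elements
      have hA4 : A.ncard ≠ 3 := fun h => by
        have := hF.small_of_card h
        omega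
      have hB4 : B.ncard ≠ 3 := fun h => by
        have := hF.symm.small_of_card h
        omega
      have hA3 := hF.le_card
      have hB3 := hF.symm.le_card
      rcases hcase with ⟨hKA, t, ht, hF'⟩ | ⟨hKB, t, ht, hF'⟩
      · have h6 := compl_small_le hF hKW hKA
        have h7 : (A \ {t}).ncard = 3 := by
          rw [Set.ncard_sdiff_singleton_of_mem ht]; omega
        exact hfull3 _ _ hF' (hF'.small_of_card h7)
      · have h6 := compl_small_le hF.symm (fun w hw hw' => hKW w hw' hw) hKB
        rw [Set.union_comm] at h6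
        have h7 : (B \ {t}).ncard = 3 := by
          rw [Set.ncard_sdiff_singleton_of_mem ht]; omega
        exact hfull3 _ _ hF'.symm (hF'.symm.small_of_card h7)

/-- the case `k = 4`. -/
theorem four (hv : Pts v)
    (hfc : ∀ G : Submodule ℝ E, finrank ℝ G ≤ 5 → {i | v i ∈ G}.ncard ≤ 4 + finrank ℝ G)
    (hD : 6 ≤ finrank ℝ E) (hN : Fintype.card ι = 2 * finrank ℝ E + 3) :
    ¬ Bdd v 4 := by
  classical
  intro hb
  obtain ⟨hc, ⟨h, hpos⟩, hnp⟩ := hv
  have hno4 : ∀ G : Submodule ℝ E, finrank ℝ G ≤ 2 → {i | v i ∈ G}.ncard ≤ 3 := by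
    intro G hG
    by_contra hcon
    push Not at hcon
    have hG2 : finrank ℝ G = 2 := by
      by_contra hne
      have := hnp G (by omega)
      omega
    have hfd := fullyDiv_of_four hG2 hnp hcon
    obtain ⟨L', μ, h1, h2, h3⟩ := hfd.exists_big hc hb
    have h4 := hfc L' (by omega)
    omega
  have hno6 : ∀ G : Submodule ℝ E, finrank ℝ G ≤ 3 → {i | v i ∈ G}.ncard ≤ 5 := by
    intro G hG
    by_contra hcon
    push Not at hcon
    have hG3 : finrank ℝ G = 3 := by
      by_contra hne
      have := hno4 G (by omega)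
      omega
    have hfd := fullyDiv_of_six hG3 h hpos hnp hno4 hcon
    obtain ⟨L', μ, h1, h2, h3⟩ := hfd.exists_big hc hb
    have h4 := hfc L' (by omega)
    omega
  obtain ⟨m, A, B, hF⟩ := exists_maxFrame hc
  have hm : m ≤ 4 := by rw [← hF.rank]; exact hb _ _ hF.svec
  have h1 := ncard_L hF
  have h3 := hF.compl
  have h4 := hF.card
  have hα := hF.small_ne
  have hβ := hF.symm.small_ne
  have hα' := small_card_le hF
  have hβ' := small_card_le hF.symm
  have hr := hF.rank
  rcases Nat.lt_or_ge m 3 with hm3 | hm3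
  · have := hno4 _ (hr.le.trans (by omega))
    omega
  rcases Nat.lt_or_ge m 4 with hm4 | hm4
  · have := hno6 _ (hr.le.trans (by omega))
    omega
  have hm4' : m = 4 := by omega
  subst hm4'
  have h2 := hfc _ (hr.le.trans (by norm_num))
  rw [hr] at h2
  by_cases hsum : (small v A B).ncard + (small v B A).ncard ≤ 2
  · obtain ⟨K, hK, hKW⟩ := hF.two_exits h hpos (by omega)
    have h5 := hno4 K (by omega)
    have h6 := compl_subset_le hF hKW
    omega
  · obtain ⟨K, hK, hKW, hcase⟩ := hF.one_exit h hpos (by omega) (by norm_num)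
    have h5 := hno6 K (by omega)
    rcases hcase with ⟨hKA, t, ht, hF'⟩ | ⟨hKB, t, ht, hF'⟩
    · have h6 := compl_small_le hF hKW hKA
      omega
    · have h6 := compl_small_le hF.symm (fun w hw hw' => hKW w hw' hw) hKB
      rw [Set.union_comm] at h6
      omega

end H15
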