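import Pool.Agent.H15.FamExit

/-!
Fully divisible subspaces: quotients, four vectors in the plane, six vectors in space.
-/

set_option linter.unusedSectionVars false

open Module Submodule

namespace H15

variable {ι : Type*} [Fintype ι] {E : Type*} [AddCommGroup E] [Module ℝ E]
  [FiniteDimensional ℝ E]
variable {v : ι → E} {X Y X' Y' A B : Set ι} {m : ℕ}

/-- `G` is spanned by both sides of a signed vector. -/
def FullyDiv (v : ι → E) (G : Submodule ℝ E) : Prop :=
  ∃ X Y, SVec v X Y ∧ sp v X = G ∧ sp v Y = G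

theorem FullyDiv.bdd {G : Submodule ℝ E} (hG : FullyDiv v G) (hb : Bdd v m)
    (h' : SVec (G.mkQ ∘ v) X' Y') : finrank ℝ G + finrank ℝ (LL (G.mkQ ∘ v) X' Y') ≤ m := by
  obtain ⟨X, Y, hXY, hX, hY⟩ := hG
  have hU : sp v (X ∪ Y) = G := by rw [sp_union, hX, hY, sup_idem]
  have hL : LL v X Y = G := by unfold LL; rw [hX, hY, inf_idem]
  subst hU
  have := hb.quot hXY h'
  rw [hL] at this
  exact this

/-- a subspace of dimension `dim G + μ` with many elements. -/
theorem FullyDiv.exists_big [Nonempty ι] {G : Submodule ℝ E} (hG : FullyDiv v G)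
    (hc : Cosimple v) (hb : Bdd v m) :
    ∃ L' : Submodule ℝ E, ∃ μ, finrank ℝ L' = finrank ℝ G + μ ∧ finrank ℝ G + μ ≤ m ∧
      Fintype.card ι + finrank ℝ G ≤ {i | v i ∈ L'}.ncard + finrank ℝ E + μ := by
  obtain ⟨μ, A, B, h⟩ := exists_maxFrame (hc.comp (Submodule.mkQ_surjective G))
  refine ⟨(LL (G.mkQ ∘ v) A B).comap G.mkQ, μ, ?_, ?_, ?_⟩
  · have h1 := LinearMap.finrank_range_add_finrank_ker
      (G.mkQ.domRestrict ((LL (G.mkQ ∘ v) A B).comap G.mkQ))
    have h2 : LinearMap.range (G.mkQ.domRestrict ((LL (G.mkQ ∘ v) A B).comap G.mkQ)) =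
        LL (G.mkQ ∘ v) A B := by
      rw [LinearMap.range_domRestrict, Submodule.map_comap_eq_of_surjective
        (Submodule.mkQ_surjective G)]
    have hle : G ≤ (LL (G.mkQ ∘ v) A B).comap G.mkQ := by
      intro x hx
      have : G.mkQ x = 0 := by rw [← LinearMap.mem_ker, Submodule.ker_mkQ]; exact hx
      rw [Submodule.mem_comap, this]
      exact zero_mem _
    have h3 : finrank ℝ (LinearMap.ker
        (G.mkQ.domRestrict ((LL (G.mkQ ∘ v) A B).comap G.mkQ))) = finrank ℝ G := by
      have h4 : LinearMap.ker (G.mkQ.domRestrict ((LL (G.mkQ ∘ v) A B).comap G.mkQ)) =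
          G.comap ((LL (G.mkQ ∘ v) A B).comap G.mkQ).subtype := by
        ext x
        rw [LinearMap.mem_ker, Submodule.mem_comap, LinearMap.domRestrict_apply,
          ← LinearMap.mem_ker, Submodule.ker_mkQ]
        rfl
      rw [h4]
      exact (Submodule.comapSubtypeEquivOfLe hle).finrank_eq
    rw [h2, h.rank, h3] at h1
    omega
  · have := hG.bdd hb h.svec
    rw [h.rank] at this
    exact this
  · have h1 := h.compl
    have h2 : (A ∪ B)ᶜ ⊆ {i | v i ∈ (LL (G.mkQ ∘ v) A B).comap G.mkQ} := by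
      intro j hj
      exact h.zero (fun h' => hj (Or.inl h')) (fun h' => hj (Or.inr h'))
    have h3 := Set.ncard_le_ncard h2 (Set.toFinite _)
    have h4 := Submodule.finrank_quotient_add_finrank G
    omega

/-! ### subfamilies -/

/-- the subfamily of `v` indexed by `J`, as a family in `G`. -/
def sub (v : ι → E) (G : Submodule ℝ E) (J : Set ι) (hJ : ∀ i ∈ J, v i ∈ G) : J → G :=
  fun i => ⟨v i, hJ i i.2⟩

theorem sub_svec {G : Submodule ℝ E} {J : Set ι} {hJ : ∀ i ∈ J, v i ∈ G} {X Y : Set J}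
    [Fintype J] (h : SVec (sub v G J hJ) X Y) :
    SVec v (Subtype.val '' X) (Subtype.val '' Y) := by
  classical
  obtain ⟨c, hc0, hc1, hc2⟩ := h
  refine ⟨fun i => if hi : i ∈ J then c ⟨i, hi⟩ else 0, ?_, ?_, ?_⟩
  · have h1 := congrArg (Subtype.val) hc0
    rw [AddSubmonoidClass.coe_finsetSum, ZeroMemClass.coe_zero] at h1
    rw [← h1]
    have h2 := Finset.sum_subtype (F := (inferInstance : Fintype J))
      (Finset.univ.filter (· ∈ J)) (by simp)
      (fun j => (if hi : j ∈ J then c ⟨j, hi⟩ else 0) • v j) (p := (· ∈ J))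
    rw [Finset.sum_filter_of_ne] at h2
    · rw [h2]
      refine Finset.sum_congr ?_ fun i _ => ?_
      · ext i; simp
      · simp [sub]
    · intro x _ hx
      by_contra hxJ
      exact hx (by simp [hxJ])
  · intro i
    by_cases hi : i ∈ J
    · simp only [hi, dif_pos, hc1]
      constructor
      · intro h; exact ⟨_, h, rfl⟩
      · rintro ⟨j, hj, rfl⟩; exact hj
    · simp only [hi, dif_neg, lt_irrefl, false_iff, not_false_eq_true]
      rintro ⟨j, hj, rfl⟩
      exact hi j.2
  · intro i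
    by_cases hi : i ∈ J
    · simp only [hi, dif_pos, hc2]
      constructor
      · intro h; exact ⟨_, h, rfl⟩
      · rintro ⟨j, hj, rfl⟩; exact hj
    · simp only [hi, dif_neg, lt_irrefl, false_iff, not_false_eq_true]
      rintro ⟨j, hj, rfl⟩
      exact hi j.2

theorem sub_sp {G : Submodule ℝ E} {J : Set ι} {hJ : ∀ i ∈ J, v i ∈ G} {X : Set J} :
    sp v (Subtype.val '' X) = (sp (sub v G J hJ) X).map G.subtype := by
  unfold sp
  rw [Submodule.map_span, Set.image_image, Set.image_image]
  rfl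

theorem sub_fullyDiv {G : Submodule ℝ E} {J : Set ι} {hJ : ∀ i ∈ J, v i ∈ G} [Fintype J]
    (h : FullyDiv (sub v G J hJ) ⊤) : FullyDiv v G := by
  obtain ⟨X, Y, hXY, hX, hY⟩ := h
  refine ⟨_, _, sub_svec hXY, ?_, ?_⟩
  · rw [sub_sp (hJ := hJ), hX, Submodule.map_top, Submodule.range_subtype]
  · rw [sub_sp (hJ := hJ), hY, Submodule.map_top, Submodule.range_subtype]

/-- if the maximal rank is full then the space is fully divisible. -/
theorem fullyDiv_of_not_bdd {n : ℕ} (hn : finrank ℝ E = n + 1) (hb : ¬ Bdd v n) :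
    FullyDiv v ⊤ := by
  unfold Bdd at hb
  push Not at hb
  obtain ⟨X, Y, hXY, h⟩ := hb
  have h1 : LL v X Y = ⊤ := Submodule.eq_top_of_finrank_eq (by
    have := Submodule.finrank_le (LL v X Y)
    omega)
  refine ⟨X, Y, hXY, ?_, ?_⟩
  · rw [eq_top_iff, ← h1]; exact inf_le_left
  · rw [eq_top_iff, ← h1]; exact inf_le_right

/-- four pairwise nonparallel vectors in the plane. -/
theorem plane_four (hE : finrank ℝ E = 2) [Nonempty ι]
    (hnp : ∀ G : Submodule ℝ E, finrank ℝ G ≤ 1 → {i | v i ∈ G}.ncard ≤ 1)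
    (hcard : 4 ≤ Fintype.card ι) : FullyDiv v ⊤ := by
  have hc : Cosimple v := by
    intro i j
    by_contra hcon
    have h1 : finrank ℝ (sp v ({i, j}ᶜ)) ≤ 1 := by
      have := Submodule.finrank_lt (lt_top_iff_ne_top.2 hcon).ne
      omega
    have h2 := hnp _ h1
    have h3 : ({i, j}ᶜ : Set ι) ⊆ {l | v l ∈ sp v ({i, j}ᶜ)} := fun l hl => mem_sp hl
    have h4 := Set.ncard_le_ncard h3 (Set.toFinite _)
    have h5 := Set.ncard_add_ncard_compl ({i, j} : Set ι)
    have h6 : ({i, j} : Set ι).ncard ≤ 2 := by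
      have := Set.ncard_insert_le i ({j} : Set ι)
      rwa [Set.ncard_singleton] at this
    rw [Nat.card_eq_fintype_card] at h5
    omega
  refine fullyDiv_of_not_bdd (n := 1) hE fun hb => ?_
  have := finrank_le_one hc hb
  omega

theorem svec_triple {x y z : ι} (hxy : x ≠ y) (hxz : x ≠ z) (hyz : y ≠ z) {α β : ℝ}
    (hα : 0 < α) (hβ : 0 < β) (h : v x = α • v y + β • v z) : SVec v {x} {y, z} := by
  classical
  refine ⟨Pi.single x 1 - Pi.single y α - Pi.single z β, ?_, ?_, ?_⟩
  · simp only [Pi.sub_apply, sub_smul, Finset.sum_sub_distrib, Pi.single_apply, ite_smul,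
      zero_smul, Finset.sum_ite_eq', Finset.mem_univ, if_true, one_smul]
    rw [h]; abel
  · intro i
    simp only [Pi.sub_apply, Pi.single_apply, Set.mem_singleton_iff]
    by_cases h1 : i = x
    · subst h1; simp [hxy, hxz]
    · by_cases h2 : i = y
      · subst h2; simp [h1, hyz]; exact hα.le
      · by_cases h3 : i = z
        · subst h3; simp [h1, h2]; exact hβ.le
        · simp [h1, h2, h3]
  · intro i
    simp only [Pi.sub_apply, Pi.single_apply, Set.mem_insert_iff, Set.mem_singleton_iff]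
    by_cases h1 : i = x
    · subst h1; simp [hxy, hxz]
    · by_cases h2 : i = y
      · subst h2; simp [h1, hyz]; exact hα
      · by_cases h3 : i = z
        · subst h3; simp [h1, h2]; exact hβ
        · simp [h1, h2, h3]

/-- three pairwise nonparallel vectors of a plane. -/
theorem exists_middle {L : Submodule ℝ E} (hL : finrank ℝ L = 2) (h : E →ₗ[ℝ] ℝ)
    (hpos : ∀ i, 0 < h (v i))
    (hnp : ∀ G : Submodule ℝ E, finrank ℝ G ≤ 1 → {i | v i ∈ G}.ncard ≤ 1)
    {p q r : ι} (hpq : p ≠ q) (hpr : p ≠ r) (hqr : q ≠ r) (hp : v p ∈ L) (hq : v q ∈ L)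
    (hr : v r ∈ L) : ∃ x y z : ι, x ≠ y ∧ x ≠ z ∧ y ≠ z ∧ v x ∈ L ∧ v y ∈ L ∧ v z ∈ L ∧
      ({x, y, z} : Set ι) = {p, q, r} ∧ SVec v {x} {y, z} := by
  have hnp2 : ∀ i j : ι, i ≠ j → v j ∉ span ℝ {v i} := by
    intro i j hij hj
    have h1 : finrank ℝ (span ℝ {v i}) ≤ 1 := by
      have := finrank_span_le_card (R := ℝ) ({v i} : Set E)
      simpa using this
    have h2 := hnp _ h1
    have h3 : ({i, j} : Set ι) ⊆ {l | v l ∈ span ℝ {v i}} := by
      rintro l (rfl | rfl)
      · exact mem_span_singleton_self _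
      · exact hj
    have h4 := Set.ncard_le_ncard h3 (Set.toFinite _)
    rw [Set.ncard_pair hij] at h4
    omega
  have hpr2 : finrank ℝ ↥(span ℝ {v p} ⊔ span ℝ {v r}) = 2 := by
    rw [finrank_sup_singleton (hnp2 r p hpr.symm), finrank_span_singleton]
    intro h0
    have := hpos r
    rw [h0, map_zero] at this
    exact lt_irrefl _ this
  have hLe : span ℝ {v p} ⊔ span ℝ {v r} = L := by
    refine Submodule.eq_of_le_of_finrank_eq (sup_le ?_ ?_) (by rw [hpr2, hL])
    · rwa [span_singleton_le_iff_mem]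
    · rwa [span_singleton_le_iff_mem]
  have hq' := hq
  rw [← hLe] at hq'
  obtain ⟨p', hp', r', hr', hqe⟩ := Submodule.mem_sup.1 hq'
  obtain ⟨α, rfl⟩ := Submodule.mem_span_singleton.1 hp'
  obtain ⟨β, rfl⟩ := Submodule.mem_span_singleton.1 hr'
  have hα : α ≠ 0 := by
    rintro rfl
    apply hnp2 r q hqr.symm
    rw [← hqe, zero_smul, zero_add]
    exact Submodule.smul_mem _ _ (mem_span_singleton_self _)
  have hβ : β ≠ 0 := by
    rintro rfl
    apply hnp2 p q hpq
    rw [← hqe, zero_smul, add_zero]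
    exact Submodule.smul_mem _ _ (mem_span_singleton_self _)
  rcases lt_or_gt_of_ne hα with hα | hα
  · rcases lt_or_gt_of_ne hβ with hβ | hβ
    · exfalso
      have h1 := congrArg h hqe
      simp only [map_add, map_smul, smul_eq_mul] at h1
      have := hpos p
      have := hpos q
      have := hpos r
      nlinarith
    · -- r = (1/β) q + (-α/β) p
      refine ⟨r, q, p, hqr.symm, hpr.symm, hpq.symm, hr, hq, hp, ?_, ?_⟩
      · ext i; simp only [Set.mem_insert_iff, Set.mem_singleton_iff]; tauto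
      · refine svec_triple hqr.symm hpr.symm hpq.symm (α := β⁻¹) (β := - (β⁻¹ * α))
          (inv_pos.2 hβ) (by have := mul_neg_of_pos_of_neg (inv_pos.2 hβ) hα; linarith) ?_
        rw [← hqe, smul_add, smul_smul, smul_smul, inv_mul_cancel₀ hβ.ne', one_smul, neg_smul]
        abel
  · rcases lt_or_gt_of_ne hβ with hβ | hβ
    · refine ⟨p, q, r, hpq, hpr, hqr, hp, hq, hr, rfl, ?_⟩
      refine svec_triple hpq hpr hqr (α := α⁻¹) (β := - (α⁻¹ * β))
          (inv_pos.2 hα) (by have := mul_neg_of_pos_of_neg (inv_pos.2 hα) hβ; linarith) ?_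
      rw [← hqe, smul_add, smul_smul, smul_smul, inv_mul_cancel₀ hα.ne', one_smul, neg_smul]
      abel
    · refine ⟨q, p, r, hpq.symm, hqr, hpr, hq, hp, hr, ?_, ?_⟩
      · ext i; simp only [Set.mem_insert_iff, Set.mem_singleton_iff]; tauto
      · exact svec_triple hpq.symm hqr hpr hα hβ hqe.symm

/-- six vectors in space. -/
theorem space_six (hE : finrank ℝ E = 3) [Nonempty ι] (h : E →ₗ[ℝ] ℝ)
    (hpos : ∀ i, 0 < h (v i))
    (hnp : ∀ G : Submodule ℝ E, finrank ℝ G ≤ 1 → {i | v i ∈ G}.ncard ≤ 1)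
    (hn4 : ∀ G : Submodule ℝ E, finrank ℝ G ≤ 2 → {i | v i ∈ G}.ncard ≤ 3)
    (hcard : Fintype.card ι = 6) : FullyDiv v ⊤ := by
  classical
  have hc : Cosimple v := by
    intro i j
    by_contra hcon
    have h1 : finrank ℝ (sp v ({i, j}ᶜ)) ≤ 2 := by
      have := Submodule.finrank_lt (lt_top_iff_ne_top.2 hcon).ne
      omega
    have h2 := hn4 _ h1
    have h3 : ({i, j}ᶜ : Set ι) ⊆ {l | v l ∈ sp v ({i, j}ᶜ)} := fun l hl => mem_sp hl
    have h4 := Set.ncard_le_ncard h3 (Set.toFinite _)
    have h5 := Set.ncard_add_ncard_compl ({i, j} : Set ι)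
    have h6 : ({i, j} : Set ι).ncard ≤ 2 := by
      have := Set.ncard_insert_le i ({j} : Set ι)
      rwa [Set.ncard_singleton] at this
    rw [Nat.card_eq_fintype_card] at h5
    omega
  by_contra hcon
  have hb : Bdd v 2 := by
    by_contra hb
    exact hcon (fullyDiv_of_not_bdd (n := 2) hE hb)
  obtain ⟨m, A, B, hF⟩ := exists_maxFrame hc
  have hm : m ≤ 2 := by rw [← hF.rank]; exact hb _ _ hF.svec
  have hm2 : m = 2 := by
    by_contra hne
    have h1 : Bdd v 1 := fun X Y hXY => (hF.bdd X Y hXY).trans (by omega)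
    have := finrank_le_one hc h1
    omega
  subst hm2
  -- wlog A has three elements and B two
  obtain ⟨A, B, hF, hA3, hB2⟩ : ∃ A B, MaxFrame v 2 A B ∧ A.ncard = 3 ∧ B.ncard = 2 := by
    have h1 := hF.card
    have h2 : A.ncard ≤ 3 := by
      rw [← finrank_sp_eq hF.indA, ← hE]; exact Submodule.finrank_le _
    have h3 : B.ncard ≤ 3 := by
      rw [← finrank_sp_eq hF.indB, ← hE]; exact Submodule.finrank_le _
    by_cases h4 : A.ncard = 3
    · exact ⟨A, B, hF, h4, by omega⟩
    · exact ⟨B, A, hF.symm, by omega, by omega⟩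
  have hW := hF.compl
  have hW1 : (A ∪ B)ᶜ.ncard = 1 := by omega
  obtain ⟨q, hq⟩ := Set.ncard_eq_one.1 hW1
  obtain ⟨p, r, hpr, hB⟩ := Set.ncard_eq_two.1 hB2
  obtain ⟨a1, a2, a3, ha12, ha13, ha23, hA⟩ := Set.ncard_eq_three.1 hA3
  have hqm : q ∈ (A ∪ B)ᶜ := by rw [hq]; rfl
  have hqA : q ∉ A := fun h' => hqm (Or.inl h')
  have hqB : q ∉ B := fun h' => hqm (Or.inr h')
  have hqL := hF.zero hqA hqB
  set L := LL v A B with hL
  have hL2 : finrank ℝ L = 2 := hF.rank
  have hBL : sp v B = L := by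
    refine (Submodule.eq_of_le_of_finrank_eq inf_le_right ?_).symm
    rw [finrank_sp_eq hF.indB, hB2]; exact hL2
  have hpB : p ∈ B := by rw [hB]; simp
  have hrB : r ∈ B := by rw [hB]; simp
  have hpL : v p ∈ L := by rw [← hBL]; exact mem_sp hpB
  have hrL : v r ∈ L := by rw [← hBL]; exact mem_sp hrB
  have hpq : p ≠ q := by rintro rfl; exact hqB hpB
  have hqr : q ≠ r := by rintro rfl; exact hqB hrB
  obtain ⟨x, y, z, hxy, hxz, hyz, hxL, hyL, hzL, hset, hξ⟩ :=
    exists_middle hL2 h hpos hnp hpq hpr hqr hpL hqL hrL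
  have hAset : ∀ a ∈ A, a ∉ ({x, y, z} : Set ι) := by
    intro a ha hmem
    rw [hset] at hmem
    rcases hmem with rfl | rfl | rfl
    · exact Set.disjoint_left.1 hF.svec.disjoint ha hpB
    · exact hqA ha
    · exact Set.disjoint_left.1 hF.svec.disjoint ha hrB
  -- elements of A are not in L
  have hAL : ∀ a ∈ A, v a ∉ L := by
    intro a ha haL
    have h1 := hn4 L hL2.le
    have h2 : (insert a ({x, y, z} : Set ι)) ⊆ {i | v i ∈ L} := by
      rintro i (rfl | rfl | rfl | rfl)
      · exact haL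
      · exact hxL
      · exact hyL
      · exact hzL
    have h3 := Set.ncard_le_ncard h2 (Set.toFinite _)
    have h4 : ({x, y, z} : Set ι).ncard = 3 := Set.ncard_eq_three.2 ⟨x, y, z, hxy, hxz, hyz, rfl⟩
    rw [Set.ncard_insert_of_notMem (hAset a ha), h4] at h3
    omega
  -- nonparallel
  have hnp2 : ∀ i j : ι, i ≠ j → v j ∉ span ℝ {v i} := by
    intro i j hij hj
    have h1 : finrank ℝ (span ℝ {v i}) ≤ 1 := by
      have := finrank_span_le_card (R := ℝ) ({v i} : Set E)
      simpa using this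
    have h2 := hnp _ h1
    have h3 : ({i, j} : Set ι) ⊆ {l | v l ∈ span ℝ {v i}} := by
      rintro l (rfl | rfl)
      · exact mem_span_singleton_self _
      · exact hj
    have h4 := Set.ncard_le_ncard h3 (Set.toFinite _)
    rw [Set.ncard_pair hij] at h4
    omega
  have hyzL : sp v {y, z} = L := by
    have h1 : sp v {y, z} = span ℝ {v y} ⊔ span ℝ {v z} := by
      unfold sp
      rw [Set.image_pair, span_insert]
    refine Submodule.eq_of_le_of_finrank_eq (sp_le.2 ?_) ?_
    · rintro i (rfl | rfl)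
      · exact hyL
      · exact hzL
    · rw [h1, finrank_sup_singleton (hnp2 z y hyz.symm), finrank_span_singleton, hL2]
      intro h0
      have := hpos z
      rw [h0, map_zero] at this
      exact lt_irrefl _ this
  have hxyzL : sp v ({x} ∪ {y, z}) = L := by
    rw [sp_union, hyzL, sup_eq_right, sp_le]
    rintro i rfl
    exact hxL
  -- a functional with kernel L
  have hLtop : ∀ a ∈ A, span ℝ {v a} ⊔ L = ⊤ := by
    intro a ha
    refine Submodule.eq_top_of_finrank_eq ?_
    rw [finrank_sup_singleton (hAL a ha), hL2, hE]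
  obtain ⟨g, hg⟩ : ∃ g : E →ₗ[ℝ] ℝ, LinearMap.ker g = L := by
    have h1 : finrank ℝ (E ⧸ L) = 1 := by
      have := Submodule.finrank_quotient_add_finrank L
      omega
    have e : (E ⧸ L) ≃ₗ[ℝ] ℝ := LinearEquiv.ofFinrankEq _ _ (by rw [h1, finrank_self])
    refine ⟨e.toLinearMap.comp L.mkQ, ?_⟩
    rw [LinearEquiv.ker_comp, Submodule.ker_mkQ]
  have hgA : ∀ a ∈ A, g (v a) ≠ 0 := by
    intro a ha h0
    exact hAL a ha (by rw [← hg]; exact h0)
  -- the construction
  have key : ∀ a b c : ι, a ≠ b → a ≠ c → b ≠ c → A = {a, b, c} → 0 < g (v a) * -(g (v b)) →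
      v x ∈ sp v {a, b} := by
    intro a b c hab hac hbc hAe hopp
    have haA : a ∈ A := by rw [hAe]; simp
    have hbA : b ∈ A := by rw [hAe]; simp
    have hcA : c ∈ A := by rw [hAe]; simp
    by_contra hxab
    apply hcon
    have hax := hAset a haA
    have hbx := hAset b hbA
    have hcx := hAset c hcA
    simp only [Set.mem_insert_iff, Set.mem_singleton_iff, not_or] at hax hbx hcx
    -- ext by |g b| a + |g a| b
    have h1 := hξ.ext (Pi.single a |g (v b)| + Pi.single b |g (v a)|) (by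
      rw [hxyzL, ← hg]
      have h2 : ∑ i, (Pi.single a |g (v b)| + Pi.single b |g (v a)| : ι → ℝ) i • v i =
          |g (v b)| • v a + |g (v a)| • v b := by
        simp only [Pi.add_apply, add_smul, Finset.sum_add_distrib, Pi.single_apply, ite_smul,
          zero_smul, Finset.sum_ite_eq', Finset.mem_univ, if_true]
      rw [h2, LinearMap.mem_ker, map_add, map_smul, map_smul, smul_eq_mul, smul_eq_mul]
      rcases lt_or_gt_of_ne (hgA a haA) with h3 | h3
      · have h4 : 0 < g (v b) := by nlinarith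
        rw [abs_of_neg h3, abs_of_pos h4]; ring
      · have h4 : g (v b) < 0 := by nlinarith
        rw [abs_of_pos h3, abs_of_neg h4]; ring)
    have e1 : ({x} : Set ι) ∪ {i | 0 < (Pi.single a |g (v b)| + Pi.single b |g (v a)| : ι → ℝ) i ∧
        i ∉ ({y, z} : Set ι)} = {x, a, b} := by
      ext i
      simp only [Set.mem_union, Set.mem_singleton_iff, Set.mem_ofPred_eq, Pi.add_apply,
        Pi.single_apply, Set.mem_insert_iff]
      by_cases h2 : i = a
      · subst h2
        have := abs_pos.2 (hgA b hbA)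
        simp [hab, hax, this]
      · by_cases h3 : i = b
        · subst h3
          have := abs_pos.2 (hgA a haA)
          simp [hab.symm, hbx, this]
        · simp [h2, h3]
    have e2 : ({y, z} : Set ι) ∪ {i | (Pi.single a |g (v b)| + Pi.single b |g (v a)| : ι → ℝ) i < 0 ∧
        i ∉ ({x} : Set ι)} = {y, z} := by
      rw [Set.union_eq_left]
      rintro i ⟨h2, -⟩
      exfalso
      simp only [Pi.add_apply, Pi.single_apply] at h2
      have h3 := abs_nonneg (g (v b))
      have h4 := abs_nonneg (g (v a))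
      split_ifs at h2 <;> linarith
    rw [e1, e2] at h1
    have htop : sp v ({x, a, b} ∪ {y, z}) = ⊤ := by
      rw [eq_top_iff, ← hLtop a haA]
      refine sup_le ?_ ?_
      · rw [span_singleton_le_iff_mem]; exact mem_sp (by simp)
      · rw [← hyzL]; exact sp_mono Set.subset_union_right
    have h2 := (h1.symm.add (j := c) (by simp [hcx]) (by simp [hcx, hac.symm, hbc.symm]) (by
      rw [Set.union_comm, htop]; trivial)).symm
    refine ⟨_, _, h2, ?_, ?_⟩
    · refine Submodule.eq_top_of_finrank_eq ?_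
      rw [finrank_sp_insert hxab, hE, finrank_sp_eq (hF.indA.mono (by
        rw [hAe]; intro i; simp only [Set.mem_insert_iff, Set.mem_singleton_iff]; tauto)),
        Set.ncard_pair hab]
    · rw [sp_insert, hyzL]
      exact hLtop c hcA
  -- sign analysis
  have fin : ∀ a b c : ι, a ≠ b → a ≠ c → b ≠ c → A = {a, b, c} → 0 < g (v a) * -(g (v b)) →
      0 < g (v a) * -(g (v c)) → False := by
    intro a b c hab hac hbc hAe h1 h2
    have k1 := key a b c hab hac hbc hAe h1
    have k2 := key a c b hac hab hbc.symm (by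
      rw [hAe]; ext i; simp only [Set.mem_insert_iff, Set.mem_singleton_iff]; tauto) h2
    obtain ⟨a', ha', hs1⟩ := mem_sp_iff.1 k1
    obtain ⟨b', hb', hs2⟩ := mem_sp_iff.1 k2
    have h3 := linInd_iff.1 hF.indA (fun i => a' i - b' i) (by
      intro i hi
      rw [hAe] at hi
      simp only [Set.mem_insert_iff, Set.mem_singleton_iff, not_or] at hi
      rw [ha' i (by simp [hi]), hb' i (by simp [hi]), sub_zero]) (by
      simp only [sub_smul, Finset.sum_sub_distrib, hs1, hs2, sub_self])
    have h4 : a' b = 0 := by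
      have := h3 b
      rw [hb' b (by simp [hab.symm, hbc])] at this
      linarith
    have h5 : v x ∈ sp v {a} := mem_sp_iff.2 ⟨a', fun i hi => by
      by_cases h6 : i = b
      · rw [h6, h4]
      · refine ha' i ?_
        simp only [Set.mem_insert_iff, Set.mem_singleton_iff, not_or]
        exact ⟨hi, h6⟩, hs1⟩
    have hax := hAset a (by rw [hAe]; simp)
    simp only [Set.mem_insert_iff, Set.mem_singleton_iff, not_or] at hax
    apply hnp2 a x hax.1
    unfold sp at h5
    rwa [Set.image_singleton] at h5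
  have ha1 : a1 ∈ A := by rw [hA]; simp
  have ha2 : a2 ∈ A := by rw [hA]; simp
  have ha3 : a3 ∈ A := by rw [hA]; simp
  have g1 := hgA a1 ha1
  have g2 := hgA a2 ha2
  have g3 := hgA a3 ha3
  have hA2 : A = {a2, a1, a3} := by
    rw [hA]; ext i; simp only [Set.mem_insert_iff, Set.mem_singleton_iff]; tauto
  have hA3' : A = {a3, a1, a2} := by
    rw [hA]; ext i; simp only [Set.mem_insert_iff, Set.mem_singleton_iff]; tauto
  -- not all of the same sign
  obtain ⟨c, hc0, hc1, hc2⟩ := hF.svec
  have hsum : ∑ i, (max (c i) 0) • v i ∈ L := pos_mem_LL hc0 hc1 hc2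
  have hgs : c a1 * g (v a1) + c a2 * g (v a2) + c a3 * g (v a3) = 0 := by
    rw [← hg, LinearMap.mem_ker, map_sum] at hsum
    rw [← hsum]
    have h2 : ∀ i, g ((max (c i) 0) • v i) = (if i = a1 then c a1 * g (v a1) else 0) +
        (if i = a2 then c a2 * g (v a2) else 0) + (if i = a3 then c a3 * g (v a3) else 0) := by
      intro i
      rw [map_smul, smul_eq_mul]
      by_cases h3 : i = a1
      · subst h3; simp [ha12, ha13, max_eq_left ((hc1 _).2 ha1).le]
      · by_cases h4 : i = a2
        · subst h4; simp [h3, ha23, max_eq_left ((hc1 _).2 ha2).le]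
        · by_cases h5 : i = a3
          · subst h5; simp [h3, h4, max_eq_left ((hc1 _).2 ha3).le]
          · have : ¬ 0 < c i := by
              rw [hc1, hA]; simp [h3, h4, h5]
            simp [h3, h4, h5, max_eq_right (not_lt.1 this)]
    rw [Finset.sum_congr rfl fun i _ => h2 i]
    simp [Finset.sum_add_distrib]
  have c1 := (hc1 _).2 ha1
  have c2 := (hc1 _).2 ha2
  have c3 := (hc1 _).2 ha3
  rcases lt_or_gt_of_ne g1 with g1 | g1 <;> rcases lt_or_gt_of_ne g2 with g2 | g2 <;>
    rcases lt_or_gt_of_ne g3 with g3 | g3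
  · have := mul_neg_of_pos_of_neg c1 g1
    have := mul_neg_of_pos_of_neg c2 g2
    have := mul_neg_of_pos_of_neg c3 g3
    linarith
  · exact fin a3 a1 a2 ha13.symm ha23.symm ha12 hA3' (by nlinarith) (by nlinarith)
  · exact fin a2 a1 a3 ha12.symm ha23 ha13 hA2 (by nlinarith) (by nlinarith)
  · exact fin a1 a2 a3 ha12 ha13 ha23 hA (by nlinarith) (by nlinarith)
  · exact fin a1 a2 a3 ha12 ha13 ha23 hA (by nlinarith) (by nlinarith)
  · exact fin a2 a1 a3 ha12.symm ha23 ha13 hA2 (by nlinarith) (by nlinarith)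
  · exact fin a3 a1 a2 ha13.symm ha23.symm ha12 hA3' (by nlinarith) (by nlinarith)
  · have := mul_pos c1 g1
    have := mul_pos c2 g2
    have := mul_pos c3 g3
    linarith

end H15
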