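import Pool.Agent.H15.Upper

/-!
The cross-polytope together with its centre is not divisible.
-/

open Module Submodule

namespace H15

variable {d : ℕ}

/-- unit vectors. -/
noncomputable def ev (i : Fin d) : EuclideanSpace ℝ (Fin d) := EuclideanSpace.single i 1

theorem ev_apply (i j : Fin d) : ev i j = if j = i then 1 else 0 := by
  simp [ev]

theorem ev_injective : Function.Injective (ev (d := d)) := by
  intro i j h
  have h1 := congrFun (congrArg (fun x : EuclideanSpace ℝ (Fin d) => (x : Fin d → ℝ)) h) i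
  simp only [ev_apply, if_true] at h1
  by_contra hne
  rw [if_neg hne] at h1
  exact one_ne_zero h1

theorem neg_ev_injective : Function.Injective (fun i : Fin d => - ev i) :=
  fun _ _ h => ev_injective (neg_injective h)

theorem ev_ne_zero (i : Fin d) : ev i ≠ 0 := by
  intro h
  have h1 := congrFun (congrArg (fun x : EuclideanSpace ℝ (Fin d) => (x : Fin d → ℝ)) h) i
  simp [ev_apply] at h1

theorem ev_ne_neg (i j : Fin d) : ev i ≠ - ev j := by
  intro h
  have h1 := congrFun (congrArg (fun x : EuclideanSpace ℝ (Fin d) => (x : Fin d → ℝ)) h) i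
  simp only [ev_apply, if_true, PiLp.neg_apply] at h1
  split_ifs at h1 <;> linarith

/-- the vertices of the cross-polytope and its centre. -/
noncomputable def cross (d : ℕ) : Finset (EuclideanSpace ℝ (Fin d)) :=
  open Classical in
  insert 0 ((Finset.univ.image ev) ∪ (Finset.univ.image fun i => - ev i))

theorem mem_cross {x : EuclideanSpace ℝ (Fin d)} :
    x ∈ cross d ↔ x = 0 ∨ (∃ i, x = ev i) ∨ (∃ i, x = - ev i) := by
  classical
  simp [cross, eq_comm]

theorem cross_card : (cross d).card = 2 * d + 1 := by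
  classical
  unfold cross
  rw [Finset.card_insert_of_notMem, Finset.card_union_of_disjoint,
    Finset.card_image_of_injective _ ev_injective,
    Finset.card_image_of_injective _ neg_ev_injective]
  · simp; ring
  · rw [Finset.disjoint_left]
    intro x hx hx'
    obtain ⟨i, -, rfl⟩ := Finset.mem_image.1 hx
    obtain ⟨j, -, hj⟩ := Finset.mem_image.1 hx'
    exact ev_ne_neg i j hj.symm
  · intro h
    rcases Finset.mem_union.1 h with h | h
    · obtain ⟨i, -, hi⟩ := Finset.mem_image.1 h
      exact ev_ne_zero i hi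
    · obtain ⟨i, -, hi⟩ := Finset.mem_image.1 h
      exact ev_ne_zero i (neg_eq_zero.1 hi)

theorem card_le_finrank (W : Submodule ℝ (EuclideanSpace ℝ (Fin d))) (I : Finset (Fin d))
    (h : ∀ i ∈ I, ev i ∈ W) : I.card ≤ finrank ℝ W := by
  classical
  have hli : LinearIndependent ℝ (fun i : I => (⟨ev i.1, h i.1 i.2⟩ : W)) := by
    have h1 : LinearIndependent ℝ (fun i : Fin d => ev i) := by
      have h0 := (EuclideanSpace.basisFun (Fin d) ℝ).toBasis.linearIndependent
      have he : ⇑(EuclideanSpace.basisFun (Fin d) ℝ).toBasis = fun i => ev i := by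
        ext i j
        simp [ev]
      rw [he] at h0
      exact h0
    have h2 : LinearIndependent ℝ (fun i : I => ev i.1) := h1.comp _ Subtype.val_injective
    exact LinearIndependent.of_comp W.subtype h2
  have := hli.fintype_card_le_finrank
  simpa using this

theorem cross_flat (k : ℕ) : FlatCondition k (cross d) := by
  classical
  rintro ⟨F, T, -, hF, hTS, hcard, hTF⟩
  obtain ⟨t0, ht0⟩ : T.Nonempty := by
    rw [← Finset.card_pos]; omega
  -- indices
  let I1 : Finset (Fin d) := Finset.univ.filter (fun i => ev i ∈ T)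
  let I2 : Finset (Fin d) := Finset.univ.filter (fun i => - ev i ∈ T)
  set W : Submodule ℝ (EuclideanSpace ℝ (Fin d)) := F.direction ⊔ span ℝ {t0} with hW
  have hdiff : ∀ x ∈ F, ∀ y ∈ F, x - y ∈ F.direction := fun x hx y hy =>
    AffineSubspace.vsub_mem_direction hx hy
  have hTW : ∀ t ∈ T, t ∈ W := by
    intro t ht
    have h1 : t = (t - t0) + t0 := by abel
    rw [h1]
    exact Submodule.add_mem_sup (hdiff _ (hTF t ht) _ (hTF t0 ht0)) (mem_span_singleton_self _)
  have hI1 : ∀ i ∈ I1, ev i ∈ W := fun i hi => hTW _ (Finset.mem_filter.1 hi).2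
  have hI2 : ∀ i ∈ I2, ev i ∈ W := fun i hi =>
    (Submodule.neg_mem_iff W).1 (hTW _ (Finset.mem_filter.1 hi).2)
  have hI : ∀ i ∈ I1 ∪ I2, ev i ∈ W := fun i hi => by
    rcases Finset.mem_union.1 hi with h | h
    · exact hI1 i h
    · exact hI2 i h
  have hWr : finrank ℝ W ≤ k + 1 := by
    have h1 : finrank ℝ W ≤ finrank ℝ F.direction + finrank ℝ (span ℝ {t0}) :=
      Submodule.finrank_add_le_finrank_add_finrank F.direction (span ℝ {t0})
    have h2 : finrank ℝ (span ℝ {t0}) ≤ 1 := by
      have := finrank_span_le_card (R := ℝ) ({t0} : Set (EuclideanSpace ℝ (Fin d)))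
      simpa using this
    omega
  have hT : T ⊆ insert 0 (I1.image ev ∪ I2.image fun i => - ev i) := by
    intro t ht
    rcases mem_cross.1 (hTS ht) with rfl | ⟨i, rfl⟩ | ⟨i, rfl⟩
    · exact Finset.mem_insert_self _ _
    · exact Finset.mem_insert_of_mem (Finset.mem_union_left _ (Finset.mem_image_of_mem _
        (Finset.mem_filter.2 ⟨Finset.mem_univ _, ht⟩)))
    · exact Finset.mem_insert_of_mem (Finset.mem_union_right _ (Finset.mem_image_of_mem
        (fun i => - ev i) (Finset.mem_filter.2 ⟨Finset.mem_univ _, ht⟩)))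
  by_cases h0 : (0 : EuclideanSpace ℝ (Fin d)) ∈ F
  · have hWF : W = F.direction := by
      rw [hW, sup_eq_left, span_singleton_le_iff_mem]
      have := hdiff _ (hTF t0 ht0) 0 h0
      simpa using this
    have h1 := card_le_finrank W (I1 ∪ I2) hI
    rw [hWF, hF] at h1
    have h2 := Finset.card_le_card hT
    have h3 := Finset.card_insert_le (0 : EuclideanSpace ℝ (Fin d))
      (I1.image ev ∪ I2.image fun i => - ev i)
    have h4 := Finset.card_union_le (I1.image ev) (I2.image fun i => - ev i)
    have h5 := Finset.card_image_le (s := I1) (f := ev)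
    have h6 := Finset.card_image_le (s := I2) (f := fun i => - ev i)
    have h7 := Finset.card_le_card (Finset.subset_union_left (s₁ := I1) (s₂ := I2))
    have h8 := Finset.card_le_card (Finset.subset_union_right (s₁ := I1) (s₂ := I2))
    omega
  · have hdisj : Disjoint I1 I2 := by
      rw [Finset.disjoint_left]
      intro i hi hi'
      apply h0
      have h1 := hTF _ (Finset.mem_filter.1 hi).2
      have h2 := hTF _ (Finset.mem_filter.1 hi').2
      have h3 := AffineMap.lineMap_mem (1/2 : ℝ) h1 h2
      have h4 : AffineMap.lineMap (ev i) (- ev i) (1/2 : ℝ) = (0 : EuclideanSpace ℝ (Fin d)) := by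
        rw [AffineMap.lineMap_apply]
        ext j
        simp
        ring
      rwa [h4] at h3
    have h1 := card_le_finrank W (I1 ∪ I2) hI
    rw [Finset.card_union_of_disjoint hdisj] at h1
    have hT' : T ⊆ I1.image ev ∪ I2.image fun i => - ev i := by
      intro t ht
      rcases Finset.mem_insert.1 (hT ht) with rfl | h
      · exact absurd (hTF _ ht) h0
      · exact h
    have h2 := Finset.card_le_card hT'
    have h4 := Finset.card_union_le (I1.image ev) (I2.image fun i => - ev i)
    have h5 := Finset.card_image_le (s := I1) (f := ev)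
    have h6 := Finset.card_image_le (s := I2) (f := fun i => - ev i)
    omega

theorem cross_not_divisible {k : ℕ} (hk : 1 ≤ k) : ¬ Divisible k (cross d) := by
  classical
  rintro ⟨A, B, hAB, hU, hdim⟩
  have hmem : ∀ x, x ∈ A ∨ x ∈ B → x ∈ cross d := by
    intro x hx
    have : x ∈ (A : Set (EuclideanSpace ℝ (Fin d))) ∪ B := by
      rcases hx with h | h
      · exact Or.inl h
      · exact Or.inr h
    rw [hU] at this
    exact this
  have hnn : ∀ (C : Finset (EuclideanSpace ℝ (Fin d))) (i : Fin d), (∀ x ∈ C, x ∈ cross d) →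
      - ev i ∉ C → ∀ x ∈ convexHull ℝ (C : Set (EuclideanSpace ℝ (Fin d))), 0 ≤ x i := by
    intro C i hC hi x hx
    have h1 : Convex ℝ {y : EuclideanSpace ℝ (Fin d) | 0 ≤ y i} := by
      intro y hy z hz a b ha hb _
      simp only [Set.mem_ofPred_eq, PiLp.add_apply, PiLp.smul_apply, smul_eq_mul] at *
      positivity
    refine convexHull_min ?_ h1 hx
    intro y hy
    rcases mem_cross.1 (hC y hy) with rfl | ⟨j, rfl⟩ | ⟨j, rfl⟩
    · simp
    · simp only [Set.mem_ofPred_eq, ev_apply]; split_ifs <;> norm_num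
    · simp only [Set.mem_ofPred_eq, PiLp.neg_apply, ev_apply]
      split_ifs with h
      · subst h; exact absurd hy hi
      · simp
  have hnp : ∀ (C : Finset (EuclideanSpace ℝ (Fin d))) (i : Fin d), (∀ x ∈ C, x ∈ cross d) →
      ev i ∉ C → ∀ x ∈ convexHull ℝ (C : Set (EuclideanSpace ℝ (Fin d))), x i ≤ 0 := by
    intro C i hC hi x hx
    have h1 : Convex ℝ {y : EuclideanSpace ℝ (Fin d) | y i ≤ 0} := by
      intro y hy z hz a b ha hb _
      simp only [Set.mem_ofPred_eq, PiLp.add_apply, PiLp.smul_apply, smul_eq_mul] at *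
      nlinarith
    refine convexHull_min ?_ h1 hx
    intro y hy
    rcases mem_cross.1 (hC y hy) with rfl | ⟨j, rfl⟩ | ⟨j, rfl⟩
    · simp
    · simp only [Set.mem_ofPred_eq, ev_apply]
      split_ifs with h
      · subst h; exact absurd hy hi
      · simp
    · simp only [Set.mem_ofPred_eq, PiLp.neg_apply, ev_apply]; split_ifs <;> norm_num
  have hsub : convexHull ℝ (A : Set (EuclideanSpace ℝ (Fin d))) ∩
      convexHull ℝ (B : Set (EuclideanSpace ℝ (Fin d))) ⊆ {0} := by
    rintro x ⟨hxA, hxB⟩
    rw [Set.mem_singleton_iff]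
    ext i
    refine le_antisymm ?_ ?_
    · by_cases h : ev i ∈ A
      · exact hnp B i (fun x hx => hmem x (Or.inr hx)) (Finset.disjoint_left.1 hAB h) x hxB
      · exact hnp A i (fun x hx => hmem x (Or.inl hx)) h x hxA
    · by_cases h : - ev i ∈ A
      · exact hnn B i (fun x hx => hmem x (Or.inr hx)) (Finset.disjoint_left.1 hAB h) x hxB
      · exact hnn A i (fun x hx => hmem x (Or.inl hx)) h x hxA
  have h1 := hdim.trans (convDim_mono hsub)
  have h2 : convDim ({0} : Set (EuclideanSpace ℝ (Fin d))) = 0 := by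
    unfold convDim
    rw [if_pos (Set.singleton_nonempty _), vectorSpan_singleton, finrank_bot]
    rfl
  rw [h2] at h1
  omega

theorem nDiv_isLeast {k : ℕ} (hkd : k ≤ d) :
    IsLeast {N : ℕ | ∀ S : Finset (EuclideanSpace ℝ (Fin d)), N ≤ S.card → FlatCondition k S →
      Divisible k S} (nDiv k d) := by
  refine ⟨?_, fun N hN => Nat.sInf_le hN⟩
  exact Nat.sInf_mem (s := {N : ℕ | ∀ S : Finset (EuclideanSpace ℝ (Fin d)), N ≤ S.card →
      FlatCondition k S → Divisible k S}) ⟨2 * d + k + 2,
        fun S hcard hS => divisible_of_card hkd S hS hcard⟩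

theorem le_nDiv {k : ℕ} (hk : 1 ≤ k) (hkd : k ≤ d) : 2 * d + 2 ≤ nDiv k d := by
  by_contra hcon
  push Not at hcon
  exact cross_not_divisible hk ((nDiv_isLeast hkd).1 (cross d) (by rw [cross_card]; omega)
    (cross_flat k))

end H15
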