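import Mathlib

/-!
Definitions for (2,k)-divisibility.
-/

open Module

namespace H15

/-- Dimension of a (convex) set `C`: the dimension of its affine hull, and `-1` if `C = ∅`. -/
noncomputable def convDim {d : ℕ} (C : Set (EuclideanSpace ℝ (Fin d))) : ℤ :=
  open Classical in
  if C.Nonempty then (finrank ℝ (vectorSpan ℝ C) : ℤ) else -1

/-- `S` is `(2,k)`-divisible: it splits into two disjoint parts whose convex hulls meet in a set
of dimension at least `k`. -/
def Divisible {d : ℕ} (k : ℕ) (S : Finset (EuclideanSpace ℝ (Fin d))) : Prop :=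
  ∃ A B : Finset (EuclideanSpace ℝ (Fin d)), Disjoint A B ∧
    (A : Set (EuclideanSpace ℝ (Fin d))) ∪ B = (S : Set (EuclideanSpace ℝ (Fin d))) ∧
    (k : ℤ) ≤ convDim (convexHull ℝ (A : Set (EuclideanSpace ℝ (Fin d))) ∩
      convexHull ℝ (B : Set (EuclideanSpace ℝ (Fin d))))

/-- No `2k+2` points of `S` lie in a common `k`-flat. -/
def FlatCondition {d : ℕ} (k : ℕ) (S : Finset (EuclideanSpace ℝ (Fin d))) : Prop :=
  ¬ ∃ F : AffineSubspace ℝ (EuclideanSpace ℝ (Fin d)), ∃ T : Finset (EuclideanSpace ℝ (Fin d)),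
    (F : Set (EuclideanSpace ℝ (Fin d))).Nonempty ∧ finrank ℝ F.direction = k ∧
    T ⊆ S ∧ T.card = 2 * k + 2 ∧ ∀ x ∈ T, x ∈ F

/-- The least `N` such that every finite set of at least `N` points of `ℝ^d`, no `2k+2` of which
lie in a common `k`-flat, is `(2,k)`-divisible. -/
noncomputable def nDiv (k d : ℕ) : ℕ :=
  sInf {N : ℕ | ∀ S : Finset (EuclideanSpace ℝ (Fin d)), N ≤ S.card → FlatCondition k S →
    Divisible k S}

/-- The bound `α(k,d) = (d-k+2)k+2`. -/
def alpha (k d : ℕ) : ℕ := (d - k + 2) * k + 2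

end H15
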