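import Mathlib

/-!
Splitting lemma: distributing a linearly independent family between two subspaces.
-/

open Module Submodule

namespace H15

variable {E : Type*} [AddCommGroup E] [Module ℝ E]

/-- Alternating expansion: if `u i + v i` is a linearly independent family then for some `s` the
family which takes `v` on `s` and `u` off `s` is linearly independent. -/
theorem exists_piecewise_linearIndependent {ι : Type*} [Fintype ι] [DecidableEq ι]
    (u v : ι → E) (h : LinearIndependent ℝ (fun i => v i + u i)) :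
    ∃ s : Finset ι, LinearIndependent ℝ (s.piecewise v u) := by
  classical
  obtain ⟨P, hP⟩ : ∃ P : E →ₗ[ℝ] (ι → ℝ), ∀ i, P (v i + u i) = Pi.single i 1 := by
    have hinj := linearIndependent_iff_injective_fintypeLinearCombination.1 h
    obtain ⟨g, hg⟩ := LinearMap.exists_leftInverse_of_injective
      (Fintype.linearCombination ℝ (fun i => v i + u i)) (LinearMap.ker_eq_bot.2 hinj)
    refine ⟨g, fun i => ?_⟩
    have := LinearMap.congr_fun hg (Pi.single i 1)
    simpa using this
  let f : E [⋀^ι]→ₗ[ℝ] ℝ := (Matrix.detRowAlternating (n := ι) (R := ℝ)).compLinearMap P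
  have hf : f (v + u) ≠ 0 := by
    have : f (v + u) = Matrix.det (1 : Matrix ι ι ℝ) := by
      change Matrix.det (fun i => P (v i + u i)) = _
      congr 1
      ext i j
      rw [hP, Matrix.one_apply, Pi.single_apply]
      simp [eq_comm]
    rw [this]; simp
  rw [f.map_add_univ] at hf
  obtain ⟨s, -, hs⟩ := Finset.exists_ne_zero_of_sum_ne_zero hf
  exact ⟨s, by_contra fun hn => hs (f.map_linearDependent _ hn)⟩

variable [FiniteDimensional ℝ E]

/-- Splitting lemma. -/
theorem exists_split {ι : Type*} [Fintype ι] [DecidableEq ι] (A B : Submodule ℝ E)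
    (w : ι → E) (hw : LinearIndependent ℝ w) (hwm : ∀ i, w i ∈ A ⊔ B) :
    ∃ s : Finset ι, finrank ℝ ↥(A ⊔ B) + Fintype.card ι ≤
      finrank ℝ ↥(A ⊔ span ℝ (w '' (s : Set ι))) +
      finrank ℝ ↥(B ⊔ span ℝ (w '' ((s : Set ι)ᶜ))) := by
  classical
  obtain ⟨B', hB'⟩ : ∃ B' : Submodule ℝ E, B' ≤ B ∧ A ⊓ B' = ⊥ ∧ A ⊔ B' = A ⊔ B := by
    obtain ⟨C, hC⟩ := Submodule.exists_isCompl (Submodule.comap B.subtype A)
    refine ⟨C.map B.subtype, ?_, ?_, ?_⟩
    · exact Submodule.map_subtype_le B C
    · rw [eq_bot_iff]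
      rintro x ⟨hxA, hxC⟩
      obtain ⟨y, hy, rfl⟩ := hxC
      have : y ∈ Submodule.comap B.subtype A ⊓ C := ⟨hxA, hy⟩
      rw [hC.inf_eq_bot] at this
      rw [Submodule.mem_bot] at this
      simp [this]
    · apply le_antisymm
      · exact sup_le_sup_left (Submodule.map_subtype_le B C) A
      · refine sup_le le_sup_left ?_
        intro b hb
        have : (⟨b, hb⟩ : B) ∈ Submodule.comap B.subtype A ⊔ C := by
          rw [hC.sup_eq_top]; trivial
        obtain ⟨y, hy, z, hz, hyz⟩ := Submodule.mem_sup.1 this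
        have hb' : b = (y : E) + z := by
          have := congrArg Subtype.val hyz
          simpa using this.symm
        rw [hb']
        exact Submodule.add_mem_sup hy (Submodule.mem_map_of_mem hz)
  obtain ⟨hB'B, hinf, hsup⟩ := hB'
  have hdec : ∀ i, ∃ u v : E, u ∈ A ∧ v ∈ B' ∧ v + u = w i := by
    intro i
    have := hwm i
    rw [← hsup] at this
    obtain ⟨u, hu, v, hv, huv⟩ := Submodule.mem_sup.1 this
    exact ⟨u, v, hu, hv, by rw [add_comm]; exact huv⟩
  choose u v hu hv huv using hdec
  obtain ⟨s, hs⟩ := exists_piecewise_linearIndependent u v (by simpa [huv] using hw)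
  refine ⟨s, ?_⟩
  -- two independent subfamilies
  have hv_ind : LinearIndepOn ℝ v (s : Set ι) := by
    have h1 : LinearIndependent ℝ (fun i : (s : Set ι) => s.piecewise v u i) :=
      hs.comp _ Subtype.val_injective
    have h2 : (fun i : (s : Set ι) => s.piecewise v u i) = fun i : (s : Set ι) => v i := by
      ext i
      rw [Finset.piecewise_eq_of_mem _ _ _ (by exact_mod_cast i.2)]
    rw [h2] at h1
    exact h1
  have hu_ind : LinearIndepOn ℝ u ((s : Set ι)ᶜ) := by
    have h1 : LinearIndependent ℝ (fun i : ((s : Set ι)ᶜ : Set ι) => s.piecewise v u i) :=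
      hs.comp _ Subtype.val_injective
    have h2 : (fun i : ((s : Set ι)ᶜ : Set ι) => s.piecewise v u i)
        = fun i : ((s : Set ι)ᶜ : Set ι) => u i := by
      ext i
      rw [Finset.piecewise_eq_of_notMem _ _ _ (fun h => i.2 (by exact_mod_cast h))]
    rw [h2] at h1
    exact h1
  have hvr : finrank ℝ (span ℝ (v '' (s : Set ι))) = s.card := by
    have h3 := finrank_span_eq_card (R := ℝ) (b := fun i : (s : Set ι) => v i) hv_ind
    have h4 : Set.range (fun i : (s : Set ι) => v i) = v '' (s : Set ι) := by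
      rw [Set.image_eq_range]
    rw [h4] at h3
    rw [h3]
    simp
  have hur : finrank ℝ (span ℝ (u '' ((s : Set ι)ᶜ))) = Fintype.card ι - s.card := by
    have h3 := finrank_span_eq_card (R := ℝ) (b := fun i : ((s : Set ι)ᶜ : Set ι) => u i) hu_ind
    have h4 : Set.range (fun i : ((s : Set ι)ᶜ : Set ι) => u i) = u '' ((s : Set ι)ᶜ) := by
      rw [Set.image_eq_range]
    rw [h4] at h3
    rw [h3, ← Finset.card_compl, ← Set.toFinset_card]
    congr 1
    ext i
    simp
  have hsc : s.card ≤ Fintype.card ι := Finset.card_le_univ s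
  -- first summand
  have h1 : finrank ℝ A + s.card ≤ finrank ℝ ↥(A ⊔ span ℝ (w '' (s : Set ι))) := by
    have hle : A ⊔ span ℝ (v '' (s : Set ι)) ≤ A ⊔ span ℝ (w '' (s : Set ι)) := by
      refine sup_le le_sup_left (span_le.2 ?_)
      rintro _ ⟨i, hi, rfl⟩
      have : v i = w i - u i := by rw [← huv i]; abel
      rw [this]
      exact Submodule.sub_mem _
        (mem_sup_right (subset_span ⟨i, hi, rfl⟩)) (mem_sup_left (hu i))
    have hdisj : A ⊓ span ℝ (v '' (s : Set ι)) = ⊥ := by
      rw [eq_bot_iff, ← hinf]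
      refine inf_le_inf_left A (span_le.2 ?_)
      rintro _ ⟨i, _, rfl⟩
      exact hv i
    have := Submodule.finrank_sup_add_finrank_inf_eq A (span ℝ (v '' (s : Set ι)))
    rw [hdisj, finrank_bot, hvr] at this
    have := Submodule.finrank_mono hle
    omega
  have h2 : finrank ℝ B' + (Fintype.card ι - s.card)
      ≤ finrank ℝ ↥(B ⊔ span ℝ (w '' ((s : Set ι)ᶜ))) := by
    have hle : B' ⊔ span ℝ (u '' ((s : Set ι)ᶜ)) ≤ B ⊔ span ℝ (w '' ((s : Set ι)ᶜ)) := by
      refine sup_le (hB'B.trans le_sup_left) (span_le.2 ?_)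
      rintro _ ⟨i, hi, rfl⟩
      have : u i = w i - v i := by rw [← huv i]; abel
      rw [this]
      exact Submodule.sub_mem _
        (mem_sup_right (subset_span ⟨i, hi, rfl⟩)) (mem_sup_left (hB'B (hv i)))
    have hdisj : B' ⊓ span ℝ (u '' ((s : Set ι)ᶜ)) = ⊥ := by
      rw [eq_bot_iff, ← hinf, inf_comm A B']
      refine inf_le_inf_left B' (span_le.2 ?_)
      rintro _ ⟨i, _, rfl⟩
      exact hu i
    have := Submodule.finrank_sup_add_finrank_inf_eq B' (span ℝ (u '' ((s : Set ι)ᶜ)))
    rw [hdisj, finrank_bot, hur] at this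
    have := Submodule.finrank_mono hle
    omega
  have h3 := Submodule.finrank_sup_add_finrank_inf_eq A B'
  rw [hinf, finrank_bot, hsup] at h3
  omega

end H15
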